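import Pool.Agent.Helper78.TS.Multi

/-!
# Several far cells in a column, the lowest multiplier may be a little negative

`NX X d`: `X` is at least `-67/500 + 9/20 d`. `CdN` is the list `Cd` with `NX` in place of `0 ≤ X` and
with the condition `SZ` for a negative entry of the third class.
-/

set_option autoImplicit false

namespace Pool.Agent.Helper78.TS

open Pool.Agent.Helper84.TS Pool.Agent.Helper36.TS Pool.Agent.Helper83.TS Pool.Agent.Helper74.TS
  Pool.Agent.Helper34.TS Pool.Agent.Helper23.TS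

/-- the multiplier of the lowest class -/
def NX (X d : ℝ) : Prop := -67 / 500 + 9 / 20 * d ≤ X

/-- two far cells, the third class is lowest and negative -/
def SZ (X dy e W : ℝ) : Prop := ∀ t : ℝ, 0 ≤ t → dy + t ≤ 13 / 20 →
  yt X dy t + e + 169 / 400 * (dy + t) + 11 / 1000 ≤ W

/-- **The list for the ordered triple `(y; x, z)`.** `L` is the share of the pair `y, z`. -/
structure CdN (ny nx nz kxy kyz kxz L dy dx dz W : ℝ) : Prop where
  hX : NX (ny - kxy - kyz) dy
  mx : dx * (1 - dx) ≤ nx - kxz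
  u4 : 1 / 4 ≤ nx - kxz
  u3 : 7 / 20 ≤ dx → 1 / 3 ≤ nx - kxz
  i : dy ≤ 7 / 20 → 169 / 1600 + 13 / 40 * dy ≤ ny - kxy - kyz ∨
    (IA (ny - kxy - kyz) (ny - kyz) dy dx ∧ SS (ny - kxy - kyz) dy (nx - kxz) dx nz dz L W ∧
      SS (ny - kxy - kyz) dy nx dx (nz - kxz) dz L W ∧
      SZ (ny - kxy - kyz) dy (hc nx dx 0) W ∧ SZ (ny - kxy - kyz) dy (hc nx dx (1 / 5)) W)
  ib : 7 / 20 ≤ dy → IB (ny - kxy - kyz) (ny - kyz) dy dx ∧ IC (ny - kyz) kxy dy dx ∧
    SS (ny - kxy - kyz) dy (nx - kxz) dx nz dz L W ∧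
      SS (ny - kxy - kyz) dy nx dx (nz - kxz) dz L W ∧
      SZ (ny - kxy - kyz) dy (hc nx dx 0) W ∧ SZ (ny - kxy - kyz) dy (hc nx dx (1 / 5)) W
  t0 : T0 (ny - kxy - kyz) dy (hc (nx - kxz) dx 0 + hc nz dz 0) W
  tx : T1 (ny - kxy - kyz) dy (hc (nx - kxz) dx (13 / 20) + hc nz dz 0) W
  tz : T1 (ny - kxy - kyz) dy (hc (nx - kxz) dx 0 + hc nz dz (13 / 20)) W

namespace Neg

/-! ### The lowest slot -/

section

variable {X d u : ℝ}

theorem sx_yt (h : u ≤ 0) : sx X d u = yt X d (-u) := by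
  rw [sx_of_nonpos h, yt]
  ring

/-- the slot far below, from `13/20 - d` on -/
theorem far1 (h : NX X d) (r : Row d u) (hu : u ≤ -(13 / 20 - d)) :
    sx X d u ≤ yt X d (13 / 20 - d) := by
  have d0 := r.d0
  have d1 := r.d1
  have lo := r.lo
  unfold NX at h
  rw [sx_yt (by linarith)]
  obtain ⟨q, hq⟩ : ∃ q, q = -u - (13 / 20 - d) := ⟨_, rfl⟩
  have q0 : 0 ≤ q := by linarith
  have q1 : q ≤ 7 / 20 := by linarith
  have hb : 0 ≤ X + 7 / 20 * (13 / 20 - d) + (d / 2 - 3 / 20) * q - q ^ 2 / 3 := by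
    nlinarith [mul_nonneg q0 (sub_nonneg.2 q1), mul_nonneg d0 (sub_nonneg.2 q1),
      mul_nonneg d0 q0]
  have k := mul_nonneg q0 hb
  rw [show -u = 13 / 20 - d + q by linarith]
  unfold yt
  linarith

/-- the slot far below, from `13/20` on -/
theorem far2 (h : NX X d) (r : Row d u) (hu : u ≤ -(13 / 20)) :
    sx X d u ≤ yt X d (13 / 20) := by
  have d0 := r.d0
  have d1 := r.d1
  have lo := r.lo
  unfold NX at h
  rw [sx_yt (by linarith)]
  obtain ⟨q, hq⟩ : ∃ q, q = -u - 13 / 20 := ⟨_, rfl⟩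
  have q0 : 0 ≤ q := by linarith
  have q1 : q ≤ 7 / 20 - d := by linarith
  have hb : 0 ≤ X + 91 / 400 - 13 / 20 * d - (3 / 20 + d / 2) * q - q ^ 2 / 3 := by
    nlinarith [mul_nonneg q0 (sub_nonneg.2 q1), mul_nonneg d0 (sub_nonneg.2 q1),
      mul_nonneg d0 q0, mul_nonneg d0 d0]
  have k := mul_nonneg q0 hb
  rw [show -u = 13 / 20 + q by linarith]
  unfold yt
  linarith

/-- the slot of a negative entry -/
theorem small (h : NX X d) (r : Row d u) (hu : u ≤ 0) : sx X d u ≤ 11 / 1000 := by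
  have d0 := r.d0
  have d1 := r.d1
  have lo := r.lo
  unfold NX at h
  rw [sx_yt hu]
  obtain ⟨t, ht⟩ : ∃ t, t = -u := ⟨_, rfl⟩
  rw [← ht]
  have t0 : 0 ≤ t := by linarith
  have t1 : t ≤ 1 - d := by linarith
  have k1 : 0 ≤ (X + 67 / 500 - 9 / 20 * d) * t := mul_nonneg (by linarith) t0
  have k2 : 0 ≤ t * (1 - d - t) := mul_nonneg t0 (by linarith)
  have k3 : 0 ≤ d * t * (1 - d - t) := mul_nonneg (mul_nonneg d0 t0) (by linarith)
  have key : 67 / 500 * t - t ^ 2 / 2 + t ^ 3 / 3 - d * t * (9 / 20 - t / 2) ≤ 11 / 1000 := by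
    nlinarith [mul_nonneg t0 (sq_nonneg (t - 4 / 25)), sq_nonneg (t - 4 / 25),
      mul_nonneg (by linarith : 0 ≤ 1 - t) (sq_nonneg (t - 4 / 25)), mul_nonneg d0 t0,
      mul_nonneg (mul_nonneg d0 t0) (by linarith : 0 ≤ 1 - t),
      mul_nonneg (mul_nonneg d0 t0) t0]
  unfold yt
  linarith

/-- the representative of a low entry with its far cell of base `v` -/
theorem rep (h : NX X d) (r : Row d u) (hu : u ≤ 0) {v : ℝ} (v1 : v ≤ 13 / 20)
    (ho : u ≤ d - v) : ∃ t, 0 ≤ t ∧ d + t ≤ 13 / 20 ∧ v ≤ d + t ∧ sx X d u ≤ yt X d t := by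
  have d1 := r.d1
  rcases le_total (-u) (13 / 20 - d) with h1 | h1
  · exact ⟨-u, by linarith, by linarith, by linarith, (sx_yt hu).le⟩
  · exact ⟨13 / 20 - d, by linarith, by linarith, by linarith, far1 h r (by linarith)⟩

/-- the same for `u ≤ -v` -/
theorem rep2 (h : NX X d) (r : Row d u) {v : ℝ} (v0 : 0 ≤ v) (v1 : v ≤ 13 / 20)
    (ho : u ≤ -v) : ∃ t, v ≤ t ∧ t ≤ 13 / 20 ∧ sx X d u ≤ yt X d t := by
  rcases le_total (-u) (13 / 20) with h1 | h1
  · exact ⟨-u, by linarith, by linarith, (sx_yt (by linarith)).le⟩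
  · exact ⟨13 / 20, v1, le_rfl, far2 h r (by linarith)⟩

end

section

variable {nx ny nz kxy kxz kyz Lxy Lxz Lyz W dx dy dz ux uy uz : ℝ}

/-- the part of `x` is one of the two numbers -/
theorem sz_part {X m : ℝ} (h0 : SZ X dy (hc m dx 0) W) (h1 : SZ X dy (hc m dx (1 / 5)) W)
    (rx : Row dx ux) (hm : dx * (1 - dx) ≤ m) {w f : ℝ} (w0 : 0 ≤ w) (w1 : w ≤ 1 / 5)
    (hu : ux ≤ dx - w) (hf : f ≤ vm w) : ∃ E, sx m dx ux + f ≤ E ∧ SZ X dy E W := by
  rcases le_total (hc m dx 0) (hc m dx (1 / 5)) with h | h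
  · exact ⟨_, lowpart rx hm w0 (by linarith) hu hf w1 h le_rfl, h1⟩
  · exact ⟨_, lowpart rx hm w0 (by linarith) hu hf w1 le_rfl h, h0⟩

section

variable {X m c L f w g v e ga de sxy syz : ℝ}

/-- two far cells, no entry raised, `uz ≤ 0` or kind A -/
theorem ss_A {E B : ℝ} (hA : SA X dy E c dz W) (hX : NX X dy) (ry : Row dy uy) (ez : En c dz uz)
    (hy : uy ≤ 0) (v1 : v ≤ 13 / 20) (ho : uy ≤ dy - v) (hB0 : 0 ≤ B)
    (hB : B ≤ 13 / 20) (hg : g ≤ 13 / 20 * v * B) (hz : max uz 0 ≤ 1 - B + dz) :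
    sx X dy uy + E + sx c dz uz + g ≤ W := by
  obtain ⟨t, t0, t2, t1, e1⟩ := rep hX ry hy v1 ho
  have e2 := sx_le_st ez
  have e3 := hA _ B _ t0 t2 hB0 hB (le_max_right uz 0) (max_le ez.hi zero_le_one) hz
  have e4 : 13 / 20 * v * B ≤ 13 / 20 * (dy + t) * B :=
    mul_le_mul_of_nonneg_right (by linarith) hB0
  linarith

/-- two far cells, no entry raised, `z` above `y` -/
theorem ss_bound (hS : SS X dy m dx c dz L W) (hX : NX X dy) (hm : dx * (1 - dx) ≤ m) (hc0 : 0 ≤ c)
    (hL : 0 ≤ L) (rx : Row dx ux) (ry : Row dy uy) (rz : Row dz uz)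
    (w0 : 0 ≤ w) (w1 : w ≤ 1 / 5) (hux : ux ≤ dx - w) (hf : f ≤ vm w)
    (G : FarC g v e ga de uy ux uz dy dx dz sxy syz) (o : v ≤ -uy + max (dy - e) 0)
    (v1 : v ≤ 13 / 20) (he : 7 / 20 ≤ e) (hy : uy ≤ 0) (hyz : uy ≤ uz) (hs : 0 ≤ syz) :
    sx X dy uy + sx m dx ux + sx c dz uz + f + g ≤ W + L * syz := by
  obtain ⟨E, hE, hA, hB⟩ := hS.part rx hm w0 w1 hux hf
  obtain ⟨g1, g2, g3, g4, g5, g6⟩ := farC_vl G
  have v0 := G.w0
  have dy0 := ry.d0
  have dy1 := ry.d1
  have dz0 := rz.d0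
  have ho : uy ≤ dy - v := by
    rcases max_cases (dy - e) 0 with ⟨h, -⟩ | ⟨h, -⟩ <;> rw [h] at o <;> linarith
  have ez : En c dz uz := ⟨hc0, rz.d0, rz.d1.le, rz.lo, rz.hi⟩
  have b0 : 0 ≤ min (1 - ga) (1 - de) := le_min g2.le g3.le
  have b1 : min (1 - ga) (1 - de) ≤ (1 + v - e) / 2 := by
    rcases le_total (1 - ga) (1 - de) with h | h
    · rw [min_eq_left h]; linarith
    · rw [min_eq_right h]; linarith
  have hg : g ≤ 13 / 20 * v * min (1 - ga) (1 - de) := by
    rw [g1]
    exact vl_65 v0.le v1 g2.le g3.le g4.le (by linarith)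
  have kA : max uz 0 ≤ 1 - min (1 - ga) (1 - de) + dz →
      sx X dy uy + sx m dx ux + sx c dz uz + f + g ≤ W + L * syz := by
    intro hz
    have := ss_A hA hX ry ez hy v1 ho b0 (by linarith) hg hz
    have := mul_nonneg hL hs
    linarith
  rcases le_total uz 0 with hz | hz
  · refine kA ?_
    rw [max_eq_right hz]
    linarith
  · rw [max_eq_left hz] at kA
    have hz1 := rz.hi
    rcases G.capy with hc | hc
    · rw [min_eq_left (by linarith : uz ≤ 2 - v)] at hc
      refine kA ?_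
      have := min_le_right (1 - ga) (1 - de)
      linarith
    · rw [min_eq_left (by linarith : uz ≤ 2 - v), min_eq_left hyz] at hc
      rcases le_total (v + 2 * uz - 1) e with h | h
      · refine kA ?_
        linarith
      · -- kind B
        have hsl : uz + v - e ≤ syz := by
          rcases max_cases (dy - e) 0 with ⟨h, -⟩ | ⟨h, -⟩ <;> rw [h] at o <;> linarith
        have hsl' := mul_le_mul_of_nonneg_left hsl hL
        have f4 := Pool.Agent.Helper19.TS.FarC_le_four G
        -- the two ends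
        have a1 := ss_A (g := 13 / 20 * v * (1 - uz)) (B := 1 - uz) hA hX ry ez hy v1 ho
          (by linarith) (by linarith) le_rfl (by rw [max_eq_left hz]; linarith)
        obtain ⟨t, t0, t2, t1, e1⟩ := rep hX ry hy v1 ho
        have b1 := hB v t uz v0.le t0 t1 t2 hz hz1 (by linarith)
        rw [← sx_eq_st hz hz1] at b1
        -- `R` is the rest
        obtain ⟨R, hR⟩ : ∃ R, R = W - (sx X dy uy + E + sx c dz uz) := ⟨_, rfl⟩
        have a2 : v * (1 - uz) ^ 2 - v ^ 3 / 4 - L * (1 - uz) ≤ R := by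
          have k1 : 0 ≤ v * (1 - uz) * (13 / 20 - (1 - uz)) :=
            mul_nonneg (mul_nonneg v0.le (by linarith)) (by linarith)
          have k2 : 0 ≤ L * (1 - uz) := mul_nonneg hL (by linarith)
          have k3 : 0 ≤ v ^ 3 := pow_nonneg v0.le 3
          rw [hR]
          linarith
        have b2 : v * (13 / 20 + v) ^ 2 / 4 - v ^ 3 / 4 - L * (uz + v - 7 / 20) ≤ R := by
          rw [hR]
          linarith
        have key : v * (1 + v - e) ^ 2 / 4 - v ^ 3 / 4 - L * (uz + v - e) ≤ R := by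
          -- `e` lies between `7/20` and `D = v + 2 uz - 1`
          obtain ⟨D, hD⟩ : ∃ D, D = v + 2 * uz - 1 := ⟨_, rfl⟩
          have a2' : v * (1 + v - D) ^ 2 / 4 - v ^ 3 / 4 - L * (uz + v - D) ≤ R := by
            refine le_trans (le_of_eq ?_) a2
            rw [hD]
            ring
          have hDe : e ≤ D := by linarith
          rcases eq_or_lt_of_le (he.trans hDe) with h7 | h7
          · have : e = 7 / 20 := by linarith
            rw [this]
            refine le_trans (le_of_eq ?_) b2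
            ring
          · have k1 : 0 ≤ (D - e) * (R - (v * (13 / 20 + v) ^ 2 / 4 - v ^ 3 / 4
                - L * (uz + v - 7 / 20))) := mul_nonneg (by linarith) (by linarith)
            have k2 : 0 ≤ (e - 7 / 20) * (R - (v * (1 + v - D) ^ 2 / 4 - v ^ 3 / 4
                - L * (uz + v - D))) := mul_nonneg (by linarith) (by linarith)
            have k3 : 0 ≤ (D - 7 / 20) * (v * ((D - e) * (e - 7 / 20))) :=
              mul_nonneg (by linarith) (mul_nonneg v0.le
                (mul_nonneg (by linarith) (by linarith)))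
            have key : 0 ≤ (D - 7 / 20) * (R - (v * (1 + v - e) ^ 2 / 4 - v ^ 3 / 4
                - L * (uz + v - e))) := by
              linarith
            by_contra hcon
            have := mul_neg_of_pos_of_neg (by linarith : 0 < D - 7 / 20)
              (by linarith : R - (v * (1 + v - e) ^ 2 / 4 - v ^ 3 / 4 - L * (uz + v - e)) < 0)
            linarith
        rw [hR] at key
        linarith

end

/-- **Two far cells**: `y` lower, `x` upper, `z` the third class. -/
theorem two_real (hT : ColT nx ny nz kxy kxz kyz Lxy Lxz Lyz W dx dy dz) (hxy : 0 ≤ kxy)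
    (hxz : 0 ≤ kxz) (hyz : 0 ≤ kyz) (C : CdN ny nx nz kxy kyz kxz Lyz dy dx dz W)
    (hz : NX (nz - kxz - kyz) dz) (hz2 : 0 ≤ nz - kxz) (rx : Row dx ux) (ry : Row dy uy) (rz : Row dz uz)
    {f w d al be g v e ga de sxy sxz syz : ℝ}
    (F : FarC f w d al be ux uy uz dx dy dz sxy sxz) (oF : w ≤ -ux + max (dx - d) 0)
    (w1 : w ≤ 13 / 20) (hf : f ≤ 9 / 25)
    (G : FarC g v e ga de uy ux uz dy dx dz sxy syz) (oG : v ≤ -uy + max (dy - e) 0)
    (v1 : v ≤ 13 / 20) (hg : g ≤ 9 / 25) (s1 : 0 ≤ sxy) (s2 : 0 ≤ sxz) (s3 : 0 ≤ syz)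
    (hle : uy ≤ ux) (R : 27 / 20 ≤ al + e ∨ 27 / 20 ≤ ga + d) :
    Tv nx ny nz kxy kxz kyz dx dy dz ux uy uz + f + g ≤ W + Lxy * sxy + Lxz * sxz + Lyz * syz := by
  have q1 := mul_nonneg hT.lxy s1
  have q2 := mul_nonneg hT.lxz s2
  have q3 := mul_nonneg hT.lyz s3
  have dx0 := rx.d0
  have dx1 := rx.d1
  have dy0 := ry.d0
  have dy1 := ry.d1
  have w0 := F.w0
  have v0 := G.w0
  have hux : ux ≤ dx - w := by
    have := F.d0
    rcases max_cases (dx - d) 0 with ⟨h, -⟩ | ⟨h, -⟩ <;> rw [h] at oF <;> linarith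
  rcases R with R | R
  · -- the cap of `F` on `y` is high
    have he : 7 / 20 ≤ e := by linarith [F.al1]
    have hal : 7 / 20 ≤ al := by linarith [G.d1]
    have hgm := farC_fm G v1 he
    have oG' : v ≤ -uy + max (dy - 7 / 20) 0 :=
      oG.trans (by linarith [max_le_max_right (0 : ℝ) (by linarith : dy - e ≤ dy - 7 / 20)])
    -- the direct bound
    have direct : uy ≤ 0 → w ≤ 1 / 5 →
        SS (ny - kxy - kyz) dy (nx - kxz) dx nz dz Lyz W →
        SS (ny - kxy - kyz) dy nx dx (nz - kxz) dz Lyz W →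
        SZ (ny - kxy - kyz) dy (hc nx dx 0) W → SZ (ny - kxy - kyz) dy (hc nx dx (1 / 5)) W →
        Tv nx ny nz kxy kxz kyz dx dy dz ux uy uz + f + g ≤
          W + Lxy * sxy + Lxz * sxz + Lyz * syz := by
      intro hy hw5 S0 S1 Z0 Z1
      have hfv := farC_vm F w1
      have hmx := C.mx
      rcases le_total uy uz with hyz' | hyz'
      · rcases le_total ux uz with hxz' | hxz'
        · have key := ss_bound S0 C.hX C.mx (by linarith) hT.lyz rx ry rz w0.le hw5 hux hfv G oG
            v1 he hy hyz' s3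
          unfold Tv
          rw [min_eq_right hle, min_eq_left hxz', min_eq_left hyz']
          have e1 : sx (ny - kxy - kyz) dy uy = sx ny dy uy - kxy * uy - kyz * uy := by
            rw [sx_sub, sx_sub]
          rw [e1, sx_sub] at key
          linarith
        · have key := ss_bound S1 C.hX (by linarith) (by linarith) hT.lyz rx ry rz w0.le hw5 hux
            hfv G oG v1 he hy hyz' s3
          unfold Tv
          rw [min_eq_right hle, min_eq_right hxz', min_eq_left hyz']
          have e1 : sx (ny - kxy - kyz) dy uy = sx ny dy uy - kxy * uy - kyz * uy := by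
            rw [sx_sub, sx_sub]
          rw [e1, sx_sub] at key
          linarith
      · -- `z` lowest
        obtain ⟨E, hE, hA⟩ := sz_part Z0 Z1 rx (by linarith) w0.le hw5 hux hfv
        obtain ⟨g1, g2, g3, g4, g5, g6⟩ := farC_vl G
        have b1 : min (1 - ga) (1 - de) ≤ (1 + v - e) / 2 := by
          rcases le_total (1 - ga) (1 - de) with h | h
          · rw [min_eq_left h]; linarith
          · rw [min_eq_right h]; linarith
        have hg65 : g ≤ 13 / 20 * v * min (1 - ga) (1 - de) := by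
          rw [g1]
          exact vl_65 v0.le v1 g2.le g3.le g4.le (by linarith)
        have hg66 : g ≤ 169 / 400 * v := by
          have := mul_le_mul_of_nonneg_left (by linarith : min (1 - ga) (1 - de) ≤ 13 / 20)
            (by linarith : 0 ≤ 13 / 20 * v)
          linarith
        have ho : uy ≤ dy - v := by
          rcases max_cases (dy - e) 0 with ⟨h, -⟩ | ⟨h, -⟩ <;> rw [h] at oG <;> linarith
        obtain ⟨t, t0, t2, t1, key⟩ := rep C.hX ry hy v1 ho
        have hZ := hA t t0 t2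
        have ez' := small hz rz (hyz'.trans hy)
        unfold Tv
        rw [min_eq_right hle, min_eq_right (hyz'.trans hle), min_eq_right hyz']
        have e1 : sx (ny - kxy - kyz) dy uy = sx ny dy uy - kxy * uy - kyz * uy := by
          rw [sx_sub, sx_sub]
        have e2 : sx (nz - kxz - kyz) dz uz = sx nz dz uz - kxz * uz - kyz * uz := by
          rw [sx_sub, sx_sub]
        have e3 : kyz * uy ≤ 0 := mul_nonpos_of_nonneg_of_nonpos hyz hy
        rw [e1] at key
        rw [e2] at ez'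
        linarith
    rcases le_total dy (7 / 20) with h | h
    · rw [max_eq_right (by linarith : dy - 7 / 20 ≤ 0)] at oG'
      have e1 : sx (ny - kxy - kyz) dy uy = sx (ny - kyz) dy uy - kxy * uy := by
        rw [← sx_sub]
        congr 1
        ring
      rcases C.i h with hX | ⟨hI, S0, S1, Z0, Z1⟩
      · -- raised to `0`
        have hyt := yt_le (by linarith : 0 ≤ ny - kxy - kyz) ry.lo (by linarith : uy ≤ -v) v0.le
        rw [e1] at hyt
        have key := raise (g := g) (θ := 0) hT hyz rx ry rz F oF w1 hf s2 (by linarith)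
          zero_le_one (by linarith) (by
            rw [min_eq_right hle, sx_of_nonneg (u := 0) le_rfl zero_le_one]
            have k1 : kxy * (min ux 0 - uy) ≤ kxy * (0 - uy) :=
              mul_le_mul_of_nonneg_left (by linarith [min_le_right ux 0]) hxy
            have k2 : 0 ≤ v * (ny - kxy - kyz + (1 - dy) * v / 2 - (13 / 20 + v) ^ 2 / 4) := by
              refine mul_nonneg v0.le ?_
              nlinarith [mul_nonneg v0.le (by linarith : 0 ≤ 13 / 20 - v),
                mul_nonneg dy0 (by linarith : 0 ≤ 13 / 20 - v)]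
            unfold yt at hyt
            unfold fm at hgm
            linarith)
        linarith
      · rcases le_total w (1 / 5) with hw5 | hw5
        · exact direct (by linarith) hw5 S0 S1 Z0 Z1
        · -- raised to `7/20 + dy`
          obtain ⟨t, t1, t2, hyt⟩ := rep2 C.hX ry v0.le v1 (by linarith)
          rw [e1] at hyt
          have hft := fm_mono v0.le t1 t2
          have key := raise (g := g) (θ := 7 / 20 + dy) hT hyz rx ry rz F oF w1 hf s2
            (by linarith) (by linarith) (by linarith) (by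
              rw [min_eq_right hle, sx_of_nonneg (u := 7 / 20 + dy) (by linarith) (by linarith)]
              have k1 : kxy * (min ux (7 / 20 + dy) - uy) ≤ kxy * (dx - 1 / 5 - uy) :=
                mul_le_mul_of_nonneg_left (by linarith [min_le_left ux (7 / 20 + dy)]) hxy
              have k2 := hI t (v0.le.trans t1) t2
              have hgt := hgm.trans hft
              unfold yt at hyt
              unfold fm at hgt
              linarith)
          linarith
    · rw [max_eq_left (by linarith : 0 ≤ dy - 7 / 20)] at oG'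
      obtain ⟨hB, hC, S0, S1, Z0, Z1⟩ := C.ib h
      rcases le_total uy 0 with hy | hy
      · rcases le_total w (1 / 5) with hw5 | hw5
        · exact direct hy hw5 S0 S1 Z0 Z1
        · have key := raise (g := g) (θ := 7 / 20 + dy) hT hyz rx ry rz F oF w1 hf s2
            (by linarith) (by linarith) (by linarith) (by
              rw [min_eq_right hle, sx_of_nonneg (u := 7 / 20 + dy) (by linarith) (by linarith),
                sx_of_nonpos hy]
              have k1 : kxy * (min ux (7 / 20 + dy) - uy) ≤ kxy * (dx - 1 / 5 - uy) :=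
                mul_le_mul_of_nonneg_left (by linarith [min_le_left ux (7 / 20 + dy)]) hxy
              have k2 := hB (-uy) (by linarith) (by linarith [ry.lo])
              have k3 := fm_mono v0.le (by linarith : v ≤ -uy + (dy - 7 / 20))
                (by linarith [ry.lo])
              linarith)
          linarith
      · have key := raise (g := g) (θ := 7 / 20 + dy) hT hyz rx ry rz F oF w1 hf s2
            (by linarith) (by linarith) (by linarith) (by
              rw [min_eq_right hle, sx_of_nonneg (u := 7 / 20 + dy) (by linarith) (by linarith),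
                sx_of_nonneg hy ry.hi]
              have k1 : kxy * (min ux (7 / 20 + dy) - uy) ≤ kxy * (dx - uy) :=
                mul_le_mul_of_nonneg_left (by linarith [min_le_left ux (7 / 20 + dy)]) hxy
              have k2 := hC uy hy (by linarith)
              have k3 := fm_mono v0.le (by linarith : v ≤ dy - 7 / 20 - uy)
                (by linarith)
              linarith)
        linarith
  · -- the cap of `G` on `x` is high: `x` is raised
    have hd : 7 / 20 ≤ d := by linarith [G.al1]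
    have hga : 7 / 20 ≤ ga := by linarith [F.d1]
    have hfm := farC_fm F w1 hd
    have oF' : ux ≤ -w + max (dx - 7 / 20) 0 := by
      have := max_le_max_right (0 : ℝ) (by linarith : dx - d ≤ dx - 7 / 20)
      linarith
    have hdr := dropU rx C.u4 C.u3 w0.le w1 oF'
    have hθ : ux ≤ 7 / 20 + dx := by linarith
    have key := raise (g := f) (θ := 7 / 20 + dx) hT.swap12 hxz ry rx rz G oG v1 hg s3
      hθ (by linarith) (by linarith) (by
        rw [min_eq_left hle, min_eq_left (hle.trans hθ)]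
        linarith)
    rw [← Tv_swap12] at key
    linarith

/-- the entry and the far cell of the lowest class -/
theorem ylow {X d u w D g : ℝ} {φ : ℝ → ℝ} (hX : u ≤ D - 13 / 20 → sx X d u ≤ sx X d (D - 13 / 20))
    (r : Row d u) (w0 : 0 ≤ w)
    (w1 : w ≤ 13 / 20) (hD0 : 0 ≤ D) (hD : D ≤ 13 / 20) (hu : u ≤ D - w) (hg : g ≤ φ w)
    (hφ : ∀ a b, 0 ≤ a → a ≤ b → b ≤ 13 / 20 → φ a ≤ φ b) :
    ∃ s, 0 ≤ s ∧ s ≤ 13 / 20 ∧ sx X d u + g ≤ mj X (1 - d) D s + φ s := by
  rcases le_total (D - u) (13 / 20) with h | h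
  · refine ⟨D - u, by linarith, h, ?_⟩
    have e1 := sx_le_mj (X := X) (d := d) (u := u) (D := D) (s := D - u) hD0 (by linarith) rfl r.hi
    have e2 := hφ w (D - u) w0 (by linarith) h
    linarith
  · refine ⟨13 / 20, by norm_num, le_rfl, ?_⟩
    have e0 := hX (by linarith)
    have e1 := sx_le_mj (X := X) (d := d) (u := D - 13 / 20) (D := D) (s := 13 / 20) hD0
      (by norm_num) (by ring) (by linarith)
    have e2 := hφ w (13 / 20) w0 w1 le_rfl
    linarith

theorem yh1 {X d u : ℝ} (h : NX X d) (r : Row d u) :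
    u ≤ d - 13 / 20 → sx X d u ≤ sx X d (d - 13 / 20) := by
  intro hu
  have d1 := r.d1
  have := far1 h r (by linarith)
  rw [sx_yt (by linarith : d - 13 / 20 ≤ 0), show -(d - 13 / 20) = 13 / 20 - d by ring]
  exact this

theorem yh2 {X d u : ℝ} (h : NX X d) (r : Row d u) :
    u ≤ 0 - 13 / 20 → sx X d u ≤ sx X d (0 - 13 / 20) := by
  intro hu
  have := far2 h r (by linarith)
  rw [sx_yt (by norm_num : (0 : ℝ) - 13 / 20 ≤ 0), show -((0 : ℝ) - 13 / 20) = 13 / 20 by ring]
  exact this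

theorem yh3 {X d u : ℝ} (h : NX X d) (r : Row d u) (hd : 7 / 20 ≤ d) :
    u ≤ d - 7 / 20 - 13 / 20 → sx X d u ≤ sx X d (d - 7 / 20 - 13 / 20) := by
  intro hu
  have d1 := r.d1
  unfold NX at h
  exact sx_mono (by linarith) (by linarith) r.lo r.hi hu (by nlinarith)

/-- **Three far cells**: `uy ≤ ux ≤ uz`. -/
theorem three_real (hxz : 0 ≤ kxz) (C : CdN ny nx nz kxy kyz kxz Lyz dy dx dz W)
    {L' : ℝ} (C' : CdN ny nz nx kyz kxy kxz L' dy dz dx W)
    (rx : Row dx ux) (ry : Row dy uy) (rz : Row dz uz)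
    {f w d al be g v e ga de h p q ka la s1 s2 s3 s4 s5 s6 : ℝ}
    (F : FarC f w d al be ux uy uz dx dy dz s1 s2) (oF : w ≤ -ux + max (dx - d) 0)
    (w1 : w ≤ 13 / 20)
    (G : FarC g v e ga de uy ux uz dy dx dz s3 s4) (oG : v ≤ -uy + max (dy - e) 0)
    (v1 : v ≤ 13 / 20)
    (H : FarC h p q ka la uz ux uy dz dx dy s5 s6) (oH : p ≤ -uz + max (dz - q) 0)
    (p1 : p ≤ 13 / 20) (h1 : uy ≤ ux) (h2 : ux ≤ uz)
    (R1 : 7 / 20 ≤ d ∨ 7 / 20 ≤ e) (R2 : 7 / 20 ≤ d ∨ 7 / 20 ≤ q)
    (R3 : 7 / 20 ≤ e ∨ 7 / 20 ≤ q) :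
    Tv nx ny nz kxy kxz kyz dx dy dz ux uy uz + f + g + h ≤ W := by
  have dx0 := rx.d0
  have dx1 := rx.d1
  have dy0 := ry.d0
  have dy1 := ry.d1
  have dz0 := rz.d0
  have dz1 := rz.d1
  have w0 := F.w0
  have v0 := G.w0
  have p0 := H.w0
  have hux : ux ≤ dx - w := by
    have := F.d0
    rcases max_cases (dx - d) 0 with ⟨h, -⟩ | ⟨h, -⟩ <;> rw [h] at oF <;> linarith
  have huz : uz ≤ dz - p := by
    have := H.d0
    rcases max_cases (dz - q) 0 with ⟨h, -⟩ | ⟨h, -⟩ <;> rw [h] at oH <;> linarith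
  have huy : uy ≤ dy - v := by
    have := G.d0
    rcases max_cases (dy - e) 0 with ⟨h, -⟩ | ⟨h, -⟩ <;> rw [h] at oG <;> linarith
  have eT : Tv nx ny nz kxy kxz kyz dx dy dz ux uy uz =
      sx (ny - kxy - kyz) dy uy + sx (nx - kxz) dx ux + sx nz dz uz := by
    unfold Tv
    rw [min_eq_right h1, min_eq_left h2, min_eq_left (h1.trans h2), sx_sub, sx_sub, sx_sub]
    ring
  have mz : dz * (1 - dz) ≤ nz := by linarith [C'.mx]
  have u4 : 1 / 4 ≤ nz := by linarith [C'.u4]
  have u3 : 7 / 20 ≤ dz → 1 / 3 ≤ nz := fun h => by linarith [C'.u3 h]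
  -- the parts
  have ph : ∀ {c d' u' w' : ℝ} {t t' : ℝ}, w' ≤ -u' + max (d' - t) 0 → t' ≤ t →
      u' ≤ -w' + max (d' - t') 0 := by
    intro c d' u' w' t t' h ht
    have := max_le_max_right (0 : ℝ) (by linarith : d' - t ≤ d' - t')
    linarith
  have px : 7 / 20 ≤ d → sx (nx - kxz) dx ux + f ≤ hc (nx - kxz) dx 0 := by
    intro hd
    have a := farC_fm F w1 hd
    have b := hipart rx C.u4 C.u3 w0.le w1 (ph (c := 0) oF hd)
    linarith
  have pz : 7 / 20 ≤ q → sx nz dz uz + h ≤ hc nz dz 0 := by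
    intro hd
    have a := farC_fm H p1 hd
    have b := hipart rz u4 u3 p0.le p1 (ph (c := 0) oH hd)
    linarith
  have low : sx (nx - kxz) dx ux + f ≤ hc (nx - kxz) dx 0 → sx nz dz uz + h ≤ hc nz dz 0 →
      Tv nx ny nz kxy kxz kyz dx dy dz ux uy uz + f + g + h ≤ W := by
    intro a b
    obtain ⟨s, k0, k1, k2⟩ := ylow (φ := vm) (yh1 C.hX ry) ry v0.le v1 dy0 (by linarith) huy
      (farC_vm G v1) (fun a b => vm_mono)
    have := C.t0 s k0 k1
    linarith
  have high : ∀ {e' : ℝ}, 7 / 20 ≤ e → T1 (ny - kxy - kyz) dy e' W →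
      sx (ny - kxy - kyz) dy uy + g + e' ≤ W := by
    intro e' he T
    have a := farC_fm G v1 he
    have b := ph (c := 0) oG he
    rcases le_total dy (7 / 20) with hd | hd
    · rw [max_eq_right (by linarith : dy - 7 / 20 ≤ 0)] at b
      obtain ⟨s, k0, k1, k2⟩ := ylow (φ := fm) (D := 0) (yh2 C.hX ry) ry v0.le v1 le_rfl (by norm_num)
        (by linarith) a (fun a b => fm_mono)
      have := (T s k0 k1).1 hd
      linarith
    · rw [max_eq_left (by linarith : 0 ≤ dy - 7 / 20)] at b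
      obtain ⟨s, k0, k1, k2⟩ := ylow (φ := fm) (D := dy - 7 / 20) (yh3 C.hX ry hd) ry v0.le v1 (by linarith)
        (by linarith) (by linarith) a (fun a b => fm_mono)
      have := (T s k0 k1).2 hd
      linarith
  by_cases hd : 7 / 20 ≤ d
  · by_cases hq : 7 / 20 ≤ q
    · exact low (px hd) (pz hq)
    · have he := R3.resolve_right hq
      rcases le_total (hc nz dz (13 / 20)) (hc nz dz 0) with hh | hh
      · exact low (px hd) (lowpart rz mz p0.le p1 huz (farC_vm H p1) p1 le_rfl hh)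
      · have a := lowpart rz mz p0.le p1 huz (farC_vm H p1) p1 hh le_rfl
        have b := high he C.tz
        have c := px hd
        linarith
  · have he := R1.resolve_left hd
    have hq := R2.resolve_left hd
    rcases le_total (hc (nx - kxz) dx (13 / 20)) (hc (nx - kxz) dx 0) with hh | hh
    · exact low (lowpart rx C.mx w0.le w1 hux (farC_vm F w1) w1 le_rfl hh) (pz hq)
    · have a := lowpart rx C.mx w0.le w1 hux (farC_vm F w1) w1 hh le_rfl
      have b := high he C.tx
      have c := pz hq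
      linarith

end

theorem nz_eq {nz kxz kyz dz : ℝ} (h : NX (nz - kxz - kyz) dz) : NX (nz - kxz - kyz) dz := h

theorem nz_eq' {nz kxz kyz dz : ℝ} (h : NX (nz - kxz - kyz) dz) : NX (nz - kyz - kxz) dz := by
  rw [show nz - kyz - kxz = nz - kxz - kyz by ring]
  exact h

/-- **All conditions of a column** with any number of far cells -/
structure ColN (nx ny nz kxy kxz kyz Lxy Lxz Lyz W dx dy dz : ℝ) : Prop where
  t : ColT nx ny nz kxy kxz kyz Lxy Lxz Lyz W dx dy dz
  hxy : 0 ≤ kxy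
  hxz : 0 ≤ kxz
  hyz : 0 ≤ kyz
  xy : CdN nx ny nz kxy kxz kyz Lxz dx dy dz W
  xz : CdN nx nz ny kxz kxy kyz Lxy dx dz dy W
  yx : CdN ny nx nz kxy kyz kxz Lyz dy dx dz W
  yz : CdN ny nz nx kyz kxy kxz Lxy dy dz dx W
  zx : CdN nz nx ny kxz kyz kxy Lyz dz dx dy W
  zy : CdN nz ny nx kyz kxz kxy Lxz dz dy dx W

section

variable {nx ny nz kxy kxz kyz Lxy Lxz Lyz W dx dy dz : ℝ}

theorem ColN.swap12 (h : ColN nx ny nz kxy kxz kyz Lxy Lxz Lyz W dx dy dz) :
    ColN ny nx nz kxy kyz kxz Lxy Lyz Lxz W dy dx dz :=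
  ⟨h.t.swap12, h.hxy, h.hyz, h.hxz, h.yx, h.yz, h.xy, h.xz, h.zy, h.zx⟩

theorem ColN.swap23 (h : ColN nx ny nz kxy kxz kyz Lxy Lxz Lyz W dx dy dz) :
    ColN nx nz ny kxz kxy kyz Lxz Lxy Lyz W dx dz dy :=
  ⟨h.t.swap23, h.hxz, h.hxy, h.hyz, h.xz, h.xy, h.zx, h.zy, h.yx, h.yz⟩

/-- two far cells, any order of the entries -/
theorem ColN.two (M : ColN nx ny nz kxy kxz kyz Lxy Lxz Lyz W dx dy dz) {ux uy uz : ℝ}
    (rx : Row dx ux) (ry : Row dy uy) (rz : Row dz uz) {f w d al be g v e ga de sxy sxz syz : ℝ}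
    (F : FarC f w d al be ux uy uz dx dy dz sxy sxz) (oF : w ≤ -ux + max (dx - d) 0)
    (w1 : w ≤ 13 / 20) (hf : f ≤ 9 / 25)
    (G : FarC g v e ga de uy ux uz dy dx dz sxy syz) (oG : v ≤ -uy + max (dy - e) 0)
    (v1 : v ≤ 13 / 20) (hg : g ≤ 9 / 25) (s1 : 0 ≤ sxy) (s2 : 0 ≤ sxz) (s3 : 0 ≤ syz)
    (R : 27 / 20 ≤ al + e ∨ 27 / 20 ≤ ga + d) :
    Tv nx ny nz kxy kxz kyz dx dy dz ux uy uz + f + g ≤ W + Lxy * sxy + Lxz * sxz + Lyz * syz := by
  rcases le_total uy ux with h | h
  · exact two_real M.t M.hxy M.hxz M.hyz M.yx (nz_eq M.zx.hX)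
      (by linarith [M.yz.u4]) rx ry rz F oF w1 hf G oG v1 hg s1 s2 s3 h R
  · have := two_real M.t.swap12 M.hxy M.hyz M.hxz M.xy (nz_eq' M.zx.hX)
      (by linarith [M.xz.u4]) ry rx rz G oG v1 hg F oF w1
      hf s1 s3 s2 h R.symm
    rw [Tv_swap12]
    linarith

/-- three far cells, any order of the entries -/
theorem ColN.three (M : ColN nx ny nz kxy kxz kyz Lxy Lxz Lyz W dx dy dz) {ux uy uz : ℝ}
    (rx : Row dx ux) (ry : Row dy uy) (rz : Row dz uz)
    {f w d al be g v e ga de h p q ka la s1 s2 s3 s4 s5 s6 : ℝ}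
    (F : FarC f w d al be ux uy uz dx dy dz s1 s2) (oF : w ≤ -ux + max (dx - d) 0)
    (w1 : w ≤ 13 / 20)
    (G : FarC g v e ga de uy ux uz dy dx dz s3 s4) (oG : v ≤ -uy + max (dy - e) 0)
    (v1 : v ≤ 13 / 20)
    (H : FarC h p q ka la uz ux uy dz dx dy s5 s6) (oH : p ≤ -uz + max (dz - q) 0)
    (p1 : p ≤ 13 / 20) (R1 : 7 / 20 ≤ d ∨ 7 / 20 ≤ e) (R2 : 7 / 20 ≤ d ∨ 7 / 20 ≤ q)
    (R3 : 7 / 20 ≤ e ∨ 7 / 20 ≤ q) :
    Tv nx ny nz kxy kxz kyz dx dy dz ux uy uz + f + g + h ≤ W := by
  have FS := Pool.Agent.Helper19.TS.FarC_swap F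
  have GS := Pool.Agent.Helper19.TS.FarC_swap G
  have HS := Pool.Agent.Helper19.TS.FarC_swap H
  -- `three_real` wants `uy ≤ ux ≤ uz`
  rcases le_total ux uy with h1 | h1 <;> rcases le_total uy uz with h2 | h2 <;>
    rcases le_total ux uz with h3 | h3
  · -- x ≤ y ≤ z
    have := three_real (nx := ny) (ny := nx) (nz := nz) M.hyz M.xy M.xz ry rx rz G oG v1 F oF w1
      HS oH p1 h1 h2 R1.symm R3 R2
    rw [Tv_swap12]
    linarith
  · -- x ≤ y ≤ z ≤ x
    have := three_real (nx := ny) (ny := nx) (nz := nz) M.hyz M.xy M.xz ry rx rz G oG v1 F oF w1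
      HS oH p1 h1 h2 R1.symm R3 R2
    rw [Tv_swap12]
    linarith
  · -- x ≤ z ≤ y
    have := three_real (nx := nz) (ny := nx) (nz := ny) M.hyz M.xz M.xy rz rx ry H oH p1 FS oF w1
      GS oG v1 h3 h2 R2.symm R3.symm R1
    rw [Tv_swap23, Tv_swap12]
    linarith
  · -- z ≤ x ≤ y
    have := three_real (nx := nx) (ny := nz) (nz := ny) M.hxy M.zx M.zy rx rz ry FS oF w1 H oH p1
      G oG v1 h3 h1 R2 R1 R3.symm
    rw [Tv_swap23]
    linarith
  · -- y ≤ x ≤ z
    have := three_real (nx := nx) (ny := ny) (nz := nz) M.hxz M.yx M.yz rx ry rz F oF w1 G oG v1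
      H oH p1 h1 h3 R1 R2 R3
    linarith
  · -- y ≤ z ≤ x
    have := three_real (nx := nz) (ny := ny) (nz := nx) M.hxz M.yz M.yx rz ry rx HS oH p1 GS oG v1
      FS oF w1 h2 h3 R3.symm R2.symm R1.symm
    rw [Tv_swap12, Tv_swap23, Tv_swap12]
    linarith
  · -- z ≤ y ≤ x
    have := three_real (nx := ny) (ny := nz) (nz := nx) M.hxy M.zy M.zx ry rz rx GS oG v1 HS oH p1
      F oF w1 h2 h1 R3 R1.symm R2.symm
    rw [Tv_swap12, Tv_swap23]
    linarith
  · -- z ≤ y ≤ x
    have := three_real (nx := ny) (ny := nz) (nz := nx) M.hxy M.zy M.zx ry rz rx GS oG v1 HS oH p1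
      F oF w1 h2 h1 R3 R1.symm R2.symm
    rw [Tv_swap12, Tv_swap23]
    linarith

end

section

variable {A : Fin 4 → Fin 4 → Option (Fin 4 → ℝ)} {P : Fin 4 → Fin 4 → ℝ}
  {nx ny nz kxy kxz kyz Lxy Lxz Lyz W : ℝ} {m x y z : Fin 4}

/-- no far cell of the class `z` -/
theorem multi_aux (R : Rows3 A P m x y z)
    (M : ColN nx ny nz kxy kxz kyz Lxy Lxz Lyz W (P x x - 1) (P y y - 1) (P z z - 1))
    (hz0 : A z m = none) : ColI A P m x y z nx ny nz kxy kxz kyz Lxy Lxz Lyz W := by
  have h := R.of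
  have s1 := R.sxy
  have s2 := R.sxz
  have s3 := R.syz
  have q1 := mul_nonneg M.t.lxy s1
  have q2 := mul_nonneg M.t.lxz s2
  have q3 := mul_nonneg M.t.lyz s3
  have hmx : m ≠ x := (nodup_ne R.ndx).1
  have hmy : m ≠ y := (nodup_ne R.ndy).1
  apply colI_Tv
  rw [rst_none id hz0]
  rcases hX : A x m with _ | F
  · rcases hY : A y m with _ | G
    · rw [rst_none id hX, rst_none id hY]
      have := M.t.none _ _ _ R.rx R.ry R.rz
      linarith
    · rw [rst_none id hX, rst_some (s := id) hmy.symm hY]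
      have G' := farC_loc h hY R.hx R.hz R.ndy
      rw [slk_comm P y x m z] at G'
      have := M.t.fy _ _ _ _ _ _ _ _ _ _ R.rx R.ry R.rz G' (own_main h R.hy hY hmy)
        (R.sm y G hmy.symm hY) (small_loc h hY R.ndy (R.sm y G hmy.symm hY)) s1 s3
      linarith
  · have F' := farC_loc h hX R.hy R.hz R.ndx
    have w1 := R.sm x F hmx.symm hX
    rcases hY : A y m with _ | G
    · rw [rst_none id hY, rst_some (s := id) hmx.symm hX]
      have := M.t.fx _ _ _ _ _ _ _ _ _ _ R.rx R.ry R.rz F' (own_main h R.hx hX hmx)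
        w1 (small_loc h hX R.ndx w1) s1 s2
      linarith
    · rw [rst_some (s := id) hmx.symm hX, rst_some (s := id) hmy.symm hY]
      have G' := farC_loc h hY R.hx R.hz R.ndy
      have v1 := R.sm y G hmy.symm hY
      rw [slk_comm P y x m z] at G'
      have r1 := two_cap34 h hX hY R.ndx w1 v1
      have := M.two R.rx R.ry R.rz F' (own_main h R.hx hX hmx) w1 (small_loc h hX R.ndx w1)
        G' (own_main h R.hy hY hmy) v1 (small_loc h hY R.ndy v1) s1 s2 s3
        (by rcases r1 with r | r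
            · left; linarith
            · right; linarith)
      linarith

/-- **A column with any number of far cells.** -/
theorem multi (R : Rows3 A P m x y z)
    (M : ColN nx ny nz kxy kxz kyz Lxy Lxz Lyz W (P x x - 1) (P y y - 1) (P z z - 1)) :
    ColI A P m x y z nx ny nz kxy kxz kyz Lxy Lxz Lyz W := by
  rcases hZ : A z m with _ | H
  · exact multi_aux R M hZ
  rcases hY : A y m with _ | G
  · exact (multi_aux R.swap23 M.swap23 hY).swap23
  rcases hX : A x m with _ | F
  · have := multi_aux R.swap12.swap23 M.swap12.swap23 hX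
    exact this.swap23.swap12
  have h := R.of
  have hmx : m ≠ x := (nodup_ne R.ndx).1
  have hmy : m ≠ y := (nodup_ne R.ndy).1
  have hmz : m ≠ z := (nodup_ne R.ndz).1
  have q1 := mul_nonneg M.t.lxy R.sxy
  have q2 := mul_nonneg M.t.lxz R.sxz
  have q3 := mul_nonneg M.t.lyz R.syz
  have w1 := R.sm x F hmx.symm hX
  have v1 := R.sm y G hmy.symm hY
  have p1 := R.sm z H hmz.symm hZ
  have nzy : [z, m, y, x].Nodup := nodup_swap34 R.ndz
  have nxz : [x, m, z, y].Nodup := nodup_swap34 R.ndx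
  have nyz : [y, m, z, x].Nodup := nodup_swap34 R.ndy
  apply colI_Tv
  rw [rst_some (s := id) hmx.symm hX, rst_some (s := id) hmy.symm hY,
    rst_some (s := id) hmz.symm hZ]
  have := M.three R.rx R.ry R.rz (farC_loc h hX R.hy R.hz R.ndx) (own_main h R.hx hX hmx) w1
    (farC_loc h hY R.hx R.hz R.ndy) (own_main h R.hy hY hmy) v1
    (farC_loc h hZ R.hx R.hy R.ndz) (own_main h R.hz hZ hmz) p1
    (height_two h hX hY R.ndx R.ndy w1 v1) (height_two h hX hZ nxz R.ndz w1 p1)
    (height_two h hY hZ nyz nzy v1 p1)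
  linarith

end

end Neg

end Pool.Agent.Helper78.TS
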