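import Pool.Agent.Helper78.TS.Piece
import Pool.Agent.Helper32.TS.GainC

/-!
# The generic glue for the pieces of `CaseOneLow`, with chains

As `Piece`, with `GainsC` of `Helper32`: the field `three` is replaced by the two chains.
-/

set_option autoImplicit false

namespace Pool.Agent.Helper78.TS

open Pool.Agent.Helper84.TS Pool.Agent.Helper36.TS Pool.Agent.Helper74.TS Pool.Agent.Helper5.TS
  Pool.Agent.Helper32.TS Pool.Agent.Helper8.TS

/-- **All the values of the gain of the column `z`** with the rows `x`, `y`, with chains.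
`A = 1 - cap on x` is `1 - (support in the column y)`, `B = 1 - cap on y` is
`1 - (support in the column x)`; `s` is the multiplier of `1 - d_C = A + B - w`. `Bzx w c`: the bound
of the gain of `z` if it supports `c` in the column `x`; `Bxy`: the bound of the gain of `x` if it
supports in the column `y`. -/
structure ModesC (nx ny k X Y W' W s g τ : ℝ) (R : ℝ → ℝ → ℝ → ℝ → ℝ → Prop) (f : Fl)
    (φz φx φy : ℝ → ℝ) (Bzx Bzy Bxy Byx : ℝ → ℝ → ℝ) : Prop where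
  one : ∀ w A B, Cl w A B →
    Bd nx ny k X Y W' W (R w A B) f w A B (φz w + s * (A + B - w))
  top : ∀ w A B, Cl w A B →
    Bd nx ny k X Y W' W (R w A B) f w A B (g + s * (A + B - w))
  twoy : ∀ w A B, Cl w A B → A ≤ 1 →
    Bd nx ny k X Y W' W (R w A B) f w A B (g - φy (1 - A) + s * (A + B - w))
  twox : ∀ w A B, Cl w A B → B ≤ 1 →
    Bd nx ny k X Y W' W (R w A B) f w A B (g - φx (1 - B) + s * (A + B - w))
  chainy : ∀ w A B t, Cl w A B → A ≤ 1 → 0 ≤ t → t ≤ 1 - B →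
    Bd nx ny k X Y W' W (R w A B) f w A B
      (g + τ - Byx (1 - A) t - φx t + s * (A + B - w))
  chainx : ∀ w A B t, Cl w A B → B ≤ 1 → 0 ≤ t → t ≤ 1 - A →
    Bd nx ny k X Y W' W (R w A B) f w A B
      (g + τ - Bxy (1 - B) t - φy t + s * (A + B - w))
  capy : ∀ w A B c, Cl w A B → 0 ≤ c → c ≤ 1 - A →
    Bd nx ny k X Y W' W (R w A B) f w A B (Bzy w c + s * (A + B - w))
  capx : ∀ w A B c, Cl w A B → 0 ≤ c → c ≤ 1 - B →
    Bd nx ny k X Y W' W (R w A B) f w A B (Bzx w c + s * (A + B - w))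

/-- the inequalities of `GainsC` for the column `z` with the rows `x`, `y` -/
structure ColGC (A : Fin 4 → Fin 4 → Option (Fin 4 → ℝ)) (a z x y : Fin 4) (γ : ℝ)
    (φ : Fin 4 → ℝ → ℝ) (B : Fin 4 → Fin 4 → ℝ → ℝ → ℝ) (g τ : ℝ) : Prop where
  none : A a z = none → γ ≤ 0
  one : ∀ F, A a z = some F → γ ≤ φ z (2 + F z)
  top : ∀ F, A a z = some F → γ ≤ g
  twoy : ∀ F, A a z = some F → 0 ≤ F y + (F a - 1) → γ + φ y (F y + (F a - 1)) ≤ g
  twox : ∀ F, A a z = some F → 0 ≤ F x + (F a - 1) → γ + φ x (F x + (F a - 1)) ≤ g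
  chainy : ∀ F, A a z = some F → 0 ≤ F y + (F a - 1) → ∀ t : ℝ, 0 ≤ t → t ≤ F x + (F a - 1) →
    γ + B y x (F y + (F a - 1)) t + φ x t ≤ g + τ
  chainx : ∀ F, A a z = some F → 0 ≤ F x + (F a - 1) → ∀ t : ℝ, 0 ≤ t → t ≤ F y + (F a - 1) →
    γ + B x y (F x + (F a - 1)) t + φ y t ≤ g + τ
  capy : ∀ F c, A a z = some F → 0 ≤ c → c ≤ F y + (F a - 1) → γ ≤ B z y (2 + F z) c
  capx : ∀ F c, A a z = some F → 0 ≤ c → c ≤ F x + (F a - 1) → γ ≤ B z x (2 + F z) c

theorem ColGC.swap {A : Fin 4 → Fin 4 → Option (Fin 4 → ℝ)} {a z x y : Fin 4} {γ : ℝ}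
    {φ : Fin 4 → ℝ → ℝ} {B : Fin 4 → Fin 4 → ℝ → ℝ → ℝ} {g τ : ℝ}
    (G : ColGC A a z x y γ φ B g τ) : ColGC A a z y x γ φ B g τ :=
  ⟨G.none, G.one, G.top, G.twox, G.twoy, G.chainx, G.chainy, G.capx, G.capy⟩

section

variable {A : Fin 4 → Fin 4 → Option (Fin 4 → ℝ)} {P : Fin 4 → Fin 4 → ℝ} {a z x y : Fin 4}
  {nx ny k K W' W s g τ : ℝ} {Q : ℝ → ℝ → Prop} {R : ℝ → ℝ → ℝ → ℝ → ℝ → Prop} {f : Fl}

/-- **The inequalities of `GainsC` for one column.** -/
theorem colG_ofC (h : OLB A P a) (hn : [a, z, x, y].Nodup)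
    (E : ColE A P a z x y nx ny k K W' W Q R f) {φ : Fin 4 → ℝ → ℝ}
    {B : Fin 4 → Fin 4 → ℝ → ℝ → ℝ}
    (M : ModesC nx ny k (P x x - 1) (P y y - 1) W' W s g τ R f (φ z) (φ x) (φ y) (B z x)
      (B z y) (B x y) (B y x)) :
    ColGC A a z x y (gz A P a z x y nx ny k K W s) φ B g τ := by
  have val : ∀ F, A a z = some F → ∀ m : ℝ,
      Bd nx ny k (P x x - 1) (P y y - 1) W' W
        (R (2 + F z) (1 - (F y + (F a - 1))) (1 - (F x + (F a - 1)))) f (2 + F z)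
        (1 - (F y + (F a - 1))) (1 - (F x + (F a - 1)))
        (m + s * (1 - (F y + (F a - 1)) + (1 - (F x + (F a - 1))) - (2 + F z))) →
      gz A P a z x y nx ny k K W s ≤ m := by
    intro F hF m H
    have e1 := E.val h hn hF rfl rfl rfl H
    have e2 := (cell_num h hn hF rfl rfl rfl).2.2.2.2.2.2.2
    have e3 : 1 - (F y + (F a - 1)) + (1 - (F x + (F a - 1))) - (2 + F z) = 1 - (F a - 1) := by
      linarith
    rw [e3] at e1
    unfold gz
    rw [hF]
    simp only [rd]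
    linarith
  have cl : ∀ F, A a z = some F →
      Cl (2 + F z) (1 - (F y + (F a - 1))) (1 - (F x + (F a - 1))) := by
    intro F hF
    obtain ⟨-, h1, h2, h3, h4, h5, h6, -⟩ := cell_num h hn hF rfl rfl rfl
    exact ⟨h1, h2, h3, h4, h5, h6⟩
  have ey : ∀ F : Fin 4 → ℝ, 1 - (1 - (F y + (F a - 1))) = F y + (F a - 1) := fun F => by ring
  have ex : ∀ F : Fin 4 → ℝ, 1 - (1 - (F x + (F a - 1))) = F x + (F a - 1) := fun F => by ring
  refine ⟨?_, ?_, ?_, ?_, ?_, ?_, ?_, ?_, ?_⟩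
  · intro hN
    by_cases hb : f.b
    · obtain ⟨H2, hQ, hW⟩ := E.base hb
      have := colNone h hn hQ H2
      rw [hN] at this
      simp only [fo] at this
      unfold gz
      rw [hN]
      simp only [rd]
      linarith
    · obtain ⟨C, hC, -⟩ := E.wit hb
      rw [hN] at hC
      exact absurd hC (by simp)
  · exact fun F hF => val F hF _ (M.one _ _ _ (cl F hF))
  · exact fun F hF => val F hF _ (M.top _ _ _ (cl F hF))
  · intro F hF h0
    have := val F hF _ (M.twoy _ _ _ (cl F hF) (by linarith))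
    rw [ey] at this
    linarith
  · intro F hF h0
    have := val F hF _ (M.twox _ _ _ (cl F hF) (by linarith))
    rw [ex] at this
    linarith
  · intro F hF h0 t t0 t1
    have := val F hF _ (M.chainy _ _ _ t (cl F hF) (by linarith) t0 (by linarith))
    rw [ey] at this
    linarith
  · intro F hF h0 t t0 t1
    have := val F hF _ (M.chainx _ _ _ t (cl F hF) (by linarith) t0 (by linarith))
    rw [ex] at this
    linarith
  · exact fun F c hF h0 h1 => val F hF _ (M.capy _ _ _ c (cl F hF) h0 (by linarith))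
  · exact fun F c hF h0 h1 => val F hF _ (M.capx _ _ _ c (cl F hF) h0 (by linarith))

end

section

variable {A : Fin 4 → Fin 4 → Option (Fin 4 → ℝ)} {P : Fin 4 → Fin 4 → ℝ} {a p r s : Fin 4}
  {φ : Fin 4 → ℝ → ℝ} {B : Fin 4 → Fin 4 → ℝ → ℝ → ℝ} {g τ : ℝ}

/-- the gains of three columns -/
theorem gains_ofC {Γ : Fin 4 → ℝ}
    (H : ∀ z, z ≠ a → ∃ x y, [a, z, x, y].Nodup ∧ ColGC A a z x y (Γ z) φ B g τ)
    (tau : 0 ≤ τ) (gnn : 0 ≤ g)
    (mono : ∀ z, z ≠ a → ∀ s t : ℝ, 0 ≤ s → s ≤ t → t ≤ 1 → φ z s ≤ φ z t)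
    (bmono : ∀ z y, z ≠ a → y ≠ a → z ≠ y → ∀ s t c : ℝ, 0 ≤ s → s ≤ t → t ≤ 1 → 0 ≤ c → c ≤ 1 →
      B z y s c ≤ B z y t c)
    (cyc : ∀ z y x, [a, z, y, x].Nodup → ∀ p q r : ℝ, 0 ≤ p → p ≤ 1 → 0 ≤ q → q ≤ 1 → 0 ≤ r →
      r ≤ 1 → B z y p q + B y x q r + B x z r p ≤ g + τ) : GainsC A a Γ φ B g τ := by
  have un : ∀ {a z x y y' x' : Fin 4}, [a, z, x, y].Nodup → [a, z, y', x'].Nodup →
      (y' = y ∧ x' = x) ∨ (y' = x ∧ x' = y) := by decide
  have H' : ∀ z y x, [a, z, y, x].Nodup → ColGC A a z x y (Γ z) φ B g τ := by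
    intro z y x hn
    obtain ⟨x', y', hn', G⟩ := H z (nodup_ne hn).1
    rcases un hn' hn with ⟨rfl, rfl⟩ | ⟨rfl, rfl⟩
    · exact G
    · exact G.swap
  have third : ∀ z y, z ≠ a → y ≠ a → z ≠ y → ∃ x, [a, z, y, x].Nodup := by
    intro z y h1 h2 h3
    exact exists_rest1 (i := a) (j := z) (k := y) (by simp [h1.symm, h2.symm, h3])
  refine ⟨tau, gnn, mono, bmono, ?_, ?_, ?_, ?_, ?_, ?_, cyc⟩
  · intro z hz
    obtain ⟨x, y, hn, G⟩ := H z hz
    exact G.none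
  · intro z F hz
    obtain ⟨x, y, hn, G⟩ := H z hz
    exact G.one F
  · intro z F hz
    obtain ⟨x, y, hn, G⟩ := H z hz
    exact G.top F
  · intro z y F hz hy hzy hF h0
    obtain ⟨x, hn⟩ := third z y hz hy hzy
    exact (H' z y x hn).twoy F hF h0
  · intro z y x F hn hF h0 t t0 t1
    exact (H' z y x hn).chainy F hF h0 t t0 t1
  · intro z y F c hz hy hzy hF h0 h1
    obtain ⟨x, hn⟩ := third z y hz hy hzy
    exact (H' z y x hn).capy F c hF h0 h1

/-- **A piece, with chains.** `(z₁, z₂, z₃)` are the columns in the order wanted by `HiP`. -/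
theorem pieceC (h : OLB A P a) (hn : [a, p, r, s].Nodup)
    {np nr ns kpr kps krs lpr lps lrs mpr mps mrs Wa Wp Wr Ws sp sr ss tp tr ts T : ℝ}
    (Gp : ColGC A a p r s (gz A P a p r s nr ns krs mrs Wp sp) φ B g τ)
    (Gr : ColGC A a r p s (gz A P a r p s np ns kps mps Wr sr) φ B g τ)
    (Gs : ColGC A a s p r (gz A P a s p r np nr kpr mpr Ws ss) φ B g τ)
    (tau : 0 ≤ τ) (gnn : 0 ≤ g)
    (bmono : ∀ z y, z ≠ a → y ≠ a → z ≠ y → ∀ s t c : ℝ, 0 ≤ s → s ≤ t → t ≤ 1 → 0 ≤ c → c ≤ 1 →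
      B z y s c ≤ B z y t c)
    (cyc : ∀ z y x, [a, z, y, x].Nodup → ∀ p q r : ℝ, 0 ≤ p → p ≤ 1 → 0 ≤ q → q ≤ 1 → 0 ≤ r →
      r ≤ 1 → B z y p q + B y x q r + B x z r p ≤ g + τ)
    {z₁ z₂ z₃ : Fin 4} (hz : [a, z₁, z₂, z₃].Nodup) (H : HiP φ B a z₁ z₂ z₃ (g + τ))
    (ep : sp * rd a (A a p) ≤ tp) (er : sr * rd a (A a r) ≤ tr) (es : ss * rd a (A a s) ≤ ts)
    (ca : ColI A P a p r s np nr ns kpr kps krs lpr lps lrs (Wa - tp - tr - ts))
    (spr : lpr + mpr ≤ kpr) (sps : lps + mps ≤ kps) (srs : lrs + mrs ≤ krs)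
    (tot : rowc np (P p p - 1) + rowc nr (P r r - 1) + rowc ns (P s s - 1)
      + kpr * ((P p p - 1) + (P r r - 1)) + kps * ((P p p - 1) + (P s s - 1))
      + krs * ((P r r - 1) + (P s s - 1)) + Wa + Wp + Wr + Ws + g + τ ≤ T) :
    ∑ i, VV A i ≤ T := by
  have hpr : p ≠ r := by
    clear * - hn; revert hn; revert a p r s; decide
  have hps : p ≠ s := by
    clear * - hn; revert hn; revert a p r s; decide
  have hrs : r ≠ s := by
    clear * - hn; revert hn; revert a p r s; decide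
  obtain ⟨Γ, hΓ⟩ : ∃ Γ : Fin 4 → ℝ, Γ p = gz A P a p r s nr ns krs mrs Wp sp ∧
      Γ r = gz A P a r p s np ns kps mps Wr sr ∧ Γ s = gz A P a s p r np nr kpr mpr Ws ss := by
    refine ⟨fun z => if z = p then gz A P a p r s nr ns krs mrs Wp sp else
      if z = r then gz A P a r p s np ns kps mps Wr sr else
        gz A P a s p r np nr kpr mpr Ws ss, ?_, ?_, ?_⟩
    · simp
    · simp [hpr.symm]
    · simp [hps.symm, hrs.symm]
  obtain ⟨g1, g2, g3⟩ := hΓ
  have n2 : [a, r, p, s].Nodup := by clear * - hn; revert hn; revert a p r s; decide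
  have n3 : [a, s, p, r].Nodup := by clear * - hn; revert hn; revert a p r s; decide
  have G : GainsC A a Γ φ B g τ := by
    refine gains_ofC ?_ tau gnn H.mono bmono cyc
    intro z hz
    rcases mem4 hn z with rfl | rfl | rfl | rfl
    · exact absurd rfl hz
    · exact ⟨r, s, hn, by rw [g1]; exact Gp⟩
    · exact ⟨p, s, n2, by rw [g2]; exact Gr⟩
    · exact ⟨p, r, n3, by rw [g3]; exact Gs⟩
  have k1 := asmLow (Gp := Wp + Γ p + tp) (Gr := Wr + Γ r + tr) (Gs := Ws + Γ s + ts)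
    (mpr := mpr) (mps := mps) (mrs := mrs) h hn ca
    (by rw [g1]; unfold gz; linarith) (by rw [g2]; unfold gz; linarith)
    (by rw [g3]; unfold gz; linarith) spr sps srs
  have k2 := gainsC_high h.of G H hz h.low
  -- the order of the three columns
  have k3 : Γ z₁ + Γ z₂ + Γ z₃ = Γ p + Γ r + Γ s := by
    have e1 := sum4 hz Γ
    have e2 := sum4 hn Γ
    linarith
  linarith

end

end Pool.Agent.Helper78.TS
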