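import Pool.Agent.Helper78.TS.Multi
import Pool.Agent.Helper74.TS.ColLo

/-!
# The conditions of a column with any number of far cells from the polynomial lists
-/

set_option autoImplicit false

namespace Pool.Agent.Helper78.TS

open Pool.Agent.Helper84.TS Pool.Agent.Helper36.TS Pool.Agent.Helper83.TS Pool.Agent.Helper74.TS

section

variable {nx ny nz kxy kxz kyz Lxy Lxz Lyz W dx dy dz : ℝ}

/-- three one-far lists give the one-far column in any order -/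
theorem colT_of_col (hx : Col (nx - kxy - kxz) dx ny dy nz dz kyz Lxy Lxz Lyz W)
    (hy : Col (ny - kxy - kyz) dy nx dx nz dz kxz Lxy Lyz Lxz W)
    (hz : Col (nz - kxz - kyz) dz nx dx ny dy kxy Lxz Lyz Lxy W) :
    ColT nx ny nz kxy kxz kyz Lxy Lxz Lyz W dx dy dz :=
  colT_of (colR_of_col hx) (colR_of_col hy) (colR_of_col hz)

/-- three one-far lists and six lists for several far cells -/
theorem colM_of (hx : Col (nx - kxy - kxz) dx ny dy nz dz kyz Lxy Lxz Lyz W)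
    (hy : Col (ny - kxy - kyz) dy nx dx nz dz kxz Lxy Lyz Lxz W)
    (hz : Col (nz - kxz - kyz) dz nx dx ny dy kxy Lxz Lyz Lxy W)
    (xy : Cd nx ny nz kxy kxz kyz Lxz dx dy dz W)
    (xz : Cd nx nz ny kxz kxy kyz Lxy dx dz dy W)
    (yx : Cd ny nx nz kxy kyz kxz Lyz dy dx dz W)
    (yz : Cd ny nz nx kyz kxy kxz Lxy dy dz dx W)
    (zx : Cd nz nx ny kxz kyz kxy Lyz dz dx dy W)
    (zy : Cd nz ny nx kyz kxz kxy Lxz dz dy dx W) :
    ColM nx ny nz kxy kxz kyz Lxy Lxz Lyz W dx dy dz :=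
  ⟨colT_of_col hx hy hz, hz.hκ, hy.hκ, hx.hκ, xy, xz, yx, yz, zx, zy⟩

end

/-- **Symmetric data**: the multipliers `n d`, `k d e = k e d` and the shares `k d e / 2`, and a
symmetric bound `W`; one list `Col` and one list `Cd` are enough. -/
theorem colM_sym {n : ℝ → ℝ} {k : ℝ → ℝ → ℝ} {W : ℝ → ℝ → ℝ → ℝ} (hk : ∀ a b, k a b = k b a)
    (hW1 : ∀ a b c, W a b c = W b a c) (hW2 : ∀ a b c, W a b c = W a c b)
    (h1 : ∀ a b c, 0 ≤ a → a < 3 / 5 → 0 ≤ b → b < 3 / 5 → 0 ≤ c → c < 3 / 5 →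
      Col (n a - k a b - k a c) a (n b) b (n c) c (k b c) (k a b / 2) (k a c / 2) (k b c / 2)
        (W a b c))
    (h2 : ∀ a b c, 0 ≤ a → a < 3 / 5 → 0 ≤ b → b < 3 / 5 → 0 ≤ c → c < 3 / 5 →
      Cd (n a) (n b) (n c) (k a b) (k a c) (k b c) (k a c / 2) a b c (W a b c))
    {a b c : ℝ} (a0 : 0 ≤ a) (a1 : a < 3 / 5) (b0 : 0 ≤ b) (b1 : b < 3 / 5) (c0 : 0 ≤ c)
    (c1 : c < 3 / 5) :
    ColM (n a) (n b) (n c) (k a b) (k a c) (k b c) (k a b / 2) (k a c / 2) (k b c / 2) (W a b c)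
      a b c := by
  have x1 := h1 a b c a0 a1 b0 b1 c0 c1
  have x2 := h1 b a c b0 b1 a0 a1 c0 c1
  have x3 := h1 c a b c0 c1 a0 a1 b0 b1
  have y1 := h2 a b c a0 a1 b0 b1 c0 c1
  have y2 := h2 a c b a0 a1 c0 c1 b0 b1
  have y3 := h2 b a c b0 b1 a0 a1 c0 c1
  have y4 := h2 b c a b0 b1 c0 c1 a0 a1
  have y5 := h2 c a b c0 c1 a0 a1 b0 b1
  have y6 := h2 c b a c0 c1 b0 b1 a0 a1
  rw [hW2 a c b] at y2
  rw [hW1 b a c] at x2 y3
  rw [hW2 b c a, hW1 b a c] at y4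
  rw [hW1 c a b, hW2 a c b] at x3 y5
  rw [hW2 c b a, hW1 c a b, hW2 a c b] at y6
  rw [hk b a] at x2 y3 y4
  rw [hk c a, hk c b] at x3 y5 y6
  rw [hk c b] at y2
  rw [hk c a] at y4
  rw [hk b a] at y6
  exact colM_of x1 x2 x3 y1 y2 y3 y4 y5 y6

end Pool.Agent.Helper78.TS
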