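import Pool.Agent.Helper78.TS.Col2
import Pool.Agent.Helper74.TS.KindB

/-!
# The generic glue for the pieces of `CaseOneLow`

* `Fl`: the flags of a column. `b`: the column may also be used without the cell (states `Base1`,
  bound `W'`); if `b` is false the cell has height less than `11/20` (a witness column). `qx`, `qy`:
  kind A on `x`, `y` for heights less than `11/20`. `ex`, `ey`: kind A on `x`, `y` for every height.
* `Bd`: what is wanted for one value of the gain, at the cell `(w, A, B)`.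
* `Modes`: all the values of the gain of one column.
* `ColE`: what the family gives for one column.
* `colG_of`: the inequalities of `Gains` for one column; `piece`: the total.
-/

set_option autoImplicit false

namespace Pool.Agent.Helper78.TS

open Pool.Agent.Helper84.TS Pool.Agent.Helper36.TS Pool.Agent.Helper74.TS Pool.Agent.Helper5.TS

/-- the flags of a column -/
structure Fl where
  b : Prop
  qx : Prop
  qy : Prop
  ex : Prop
  ey : Prop

/-- all the cells of height less than `11/20` are of kind A on both rows -/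
def flA : Fl := ⟨True, True, True, False, False⟩

/-- the same, and the cells are of kind A on `x` for every height -/
def flAx : Fl := ⟨True, True, True, True, False⟩

/-- a witness column, kind B on `x` -/
def flB : Fl := ⟨False, False, True, False, True⟩

/-- both lists of states -/
def St2 (nx ny k X Y W : ℝ) (R : ℝ → ℝ → Prop) (qx qy : Prop) (w A B φ : ℝ) : Prop :=
  St1W nx ny k X Y W R qx qy w A B φ ∧ St1W ny nx k Y X W (fun v u => R u v) qy qx w B A φ

/-- what is wanted for the value `φ` of the gain at the cell `(w, A, B)` -/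
def Bd (nx ny k X Y W' W : ℝ) (R : ℝ → ℝ → Prop) (f : Fl) (w A B φ : ℝ) : Prop :=
  (f.b → A + B ≤ w + 9 / 20 → φ + (W - W') < vl w A B →
    (¬ f.ex → St2 nx ny k X Y W (fun _ _ => True) False True w A B φ) ∧
    (¬ f.ey → St2 nx ny k X Y W (fun _ _ => True) True False w A B φ) ∧
    (f.ex → f.ey → St2 nx ny k X Y W (fun _ _ => True) True True w A B φ)) ∧
  (w + 9 / 20 < A + B → (f.b → φ + (W - W') < vl w A B) →
    St2 nx ny k X Y W R f.qx f.qy w A B φ)

section

variable {nx ny k X Y W W' w A B φ ψ : ℝ} {R : ℝ → ℝ → Prop} {f : Fl} {qx qy : Prop}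

theorem St1W.mono (h : St1W nx ny k X Y W R qx qy w A B φ) (e : φ ≤ ψ) :
    St1W nx ny k X Y W R qx qy w A B ψ where
  c := fun u v a1 a2 a3 a4 a5 => (h.c u v a1 a2 a3 a4 a5).trans (by linarith)
  x := fun u v o a1 a2 a3 a4 a5 a6 a7 a8 a9 =>
    (h.x u v o a1 a2 a3 a4 a5 a6 a7 a8 a9).trans (by linarith)
  r := fun u v o d a1 a2 a3 a4 a5 a6 a7 a8 a9 b1 b2 =>
    (h.r u v o d a1 a2 a3 a4 a5 a6 a7 a8 a9 b1 b2).trans (by linarith)
  xy := fun a1 a2 u v o p a3 a4 a5 a6 a7 a8 a9 b1 b2 b3 b4 b5 b6 =>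
    (h.xy a1 a2 u v o p a3 a4 a5 a6 a7 a8 a9 b1 b2 b3 b4 b5 b6).trans (by linarith)
  xr := fun a1 a2 u v o d p a3 a4 a5 a6 a7 a8 a9 b1 b2 b3 b4 b5 b6 b7 b8 =>
    (h.xr a1 a2 u v o d p a3 a4 a5 a6 a7 a8 a9 b1 b2 b3 b4 b5 b6 b7 b8).trans (by linarith)

theorem St2.mono (h : St2 nx ny k X Y W R qx qy w A B φ) (e : φ ≤ ψ) :
    St2 nx ny k X Y W R qx qy w A B ψ := ⟨h.1.mono e, h.2.mono e⟩

/-- two rows with `Side` -/
theorem St2.of (Sx : Side (nx - k) X) (Sy : Side (ny - k) Y) (k0 : 0 ≤ k) (Ux : Ups R X)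
    (Uy : Ups (fun v u => R u v) Y) (w1 : w ≤ 1) (A0 : 0 ≤ A) (B0 : 0 ≤ B)
    (H : St1 nx ny k X Y W R qx qy w A B φ)
    (H' : St1 ny nx k Y X W (fun v u => R u v) qy qx w B A φ) :
    St2 nx ny k X Y W R qx qy w A B φ :=
  ⟨H.toW Sx k0 Ux H' w1 A0, H'.toW Sy k0 Uy H w1 B0⟩

/-- a larger value -/
theorem Bd.mono (h : Bd nx ny k X Y W' W R f w A B φ) (e : φ ≤ ψ) :
    Bd nx ny k X Y W' W R f w A B ψ := by
  refine ⟨fun h1 h2 h3 => ?_, fun h1 h2 => ?_⟩
  · obtain ⟨k1, k2, k3⟩ := h.1 h1 h2 (by linarith)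
    exact ⟨fun t => (k1 t).mono e, fun t => (k2 t).mono e, fun t t' => (k3 t t').mono e⟩
  · exact (h.2 h1 fun hb => by have := h2 hb; linarith).mono e

/-- the volume is small: the states without the cell are enough -/
theorem Bd.small (hb : f.b) (e : vl w A B ≤ φ + (W - W')) :
    Bd nx ny k X Y W' W R f w A B φ :=
  ⟨fun _ _ h => absurd h (not_lt.2 e), fun _ h => absurd (h hb) (not_lt.2 e)⟩

/-- the cell of height at least `11/20` is used without its caps -/
theorem Bd.free (e : A + B ≤ w + 9 / 20 → vl w A B ≤ φ + (W - W'))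
    (h : w + 9 / 20 < A + B → (f.b → φ + (W - W') < vl w A B) →
      St2 nx ny k X Y W R f.qx f.qy w A B φ) : Bd nx ny k X Y W' W R f w A B φ :=
  ⟨fun _ h1 h2 => absurd h2 (not_lt.2 (e h1)), h⟩

/-- a witness column -/
theorem Bd.wit (hb : ¬ f.b) (h : w + 9 / 20 < A + B → St2 nx ny k X Y W R f.qx f.qy w A B φ) :
    Bd nx ny k X Y W' W R f w A B φ :=
  ⟨fun h1 => absurd h1 hb, fun h1 _ => h h1⟩

end

/-- the numbers of a cell of the low class -/
structure Cl (w A B : ℝ) : Prop where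
  w0 : 0 < w
  w1 : w ≤ 1
  A0 : 0 ≤ A
  B0 : 0 ≤ B
  lo : w ≤ A + B
  hi : A + B ≤ 1 + w

/-- **All the values of the gain of the column `z`** with the rows `x`, `y`. `A = 1 - cap on x` is
`1 - (support in the column y)`, `B = 1 - cap on y` is `1 - (support in the column x)`; `s` is the
multiplier of `1 - d_C = A + B - w`. -/
structure Modes (nx ny k X Y W' W s g τ : ℝ) (R : ℝ → ℝ → ℝ → ℝ → ℝ → Prop) (f : Fl)
    (φz φx φy : ℝ → ℝ) (Bx By : ℝ → ℝ → ℝ) : Prop where
  one : ∀ w A B, Cl w A B →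
    Bd nx ny k X Y W' W (R w A B) f w A B (φz w + s * (A + B - w))
  top : ∀ w A B, Cl w A B →
    Bd nx ny k X Y W' W (R w A B) f w A B (g + s * (A + B - w))
  twoy : ∀ w A B, Cl w A B → A ≤ 1 →
    Bd nx ny k X Y W' W (R w A B) f w A B (g - φy (1 - A) + s * (A + B - w))
  twox : ∀ w A B, Cl w A B → B ≤ 1 →
    Bd nx ny k X Y W' W (R w A B) f w A B (g - φx (1 - B) + s * (A + B - w))
  three : ∀ w A B, Cl w A B → A ≤ 1 → B ≤ 1 →
    Bd nx ny k X Y W' W (R w A B) f w A B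
      (g + τ - φy (1 - A) - φx (1 - B) + s * (A + B - w)) ∨
    Bd nx ny k X Y W' W (R w A B) f w A B (τ + s * (A + B - w))
  capy : ∀ w A B c, Cl w A B → 0 ≤ c → c ≤ 1 - A →
    Bd nx ny k X Y W' W (R w A B) f w A B (By w c + s * (A + B - w))
  capx : ∀ w A B c, Cl w A B → 0 ≤ c → c ≤ 1 - B →
    Bd nx ny k X Y W' W (R w A B) f w A B (Bx w c + s * (A + B - w))

/-- **What the family gives for the column `z`** with the rows `x`, `y` -/
structure ColE (A : Fin 4 → Fin 4 → Option (Fin 4 → ℝ)) (P : Fin 4 → Fin 4 → ℝ) (a z x y : Fin 4)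
    (nx ny k K W' W : ℝ) (Q : ℝ → ℝ → Prop) (R : ℝ → ℝ → ℝ → ℝ → ℝ → Prop) (f : Fl) :
    Prop where
  k0 : 0 ≤ k
  K0 : 0 ≤ K
  sx : SideW (nx - k) (P x x - 1)
  sy : SideW (ny - k) (P y y - 1)
  base : f.b → Col2 nx ny k K (P x x - 1) (P y y - 1) W' Q ∧ Q (-P x z) (-P y z) ∧ W' ≤ W
  wit : ¬ f.b → ∃ C, A a z = some C ∧ C a - 1 < 11 / 20
  ux : ∀ w α β, Ups (R w α β) (P x x - 1)
  uy : ∀ w α β, Ups (fun v u => R w α β u v) (P y y - 1)
  hR : ∀ C, A a z = some C → C a - 1 < 11 / 20 →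
    R (2 + C z) (1 - (C y + (C a - 1))) (1 - (C x + (C a - 1))) (-P x z) (-P y z)
  kx : ∀ C, A a z = some C → C a - 1 < 11 / 20 → f.qx → -P x z ≤ (C y + (C a - 1)) + (P x x - 1)
  ky : ∀ C, A a z = some C → C a - 1 < 11 / 20 → f.qy → -P y z ≤ (C x + (C a - 1)) + (P y y - 1)
  ex : ∀ C, A a z = some C → f.ex → -P x z ≤ (C y + (C a - 1)) + (P x x - 1)
  ey : ∀ C, A a z = some C → f.ey → -P y z ≤ (C x + (C a - 1)) + (P y y - 1)

/-- the number `1 - d` of the cell of the low class -/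
noncomputable def rd (a : Fin 4) : Option (Fin 4 → ℝ) → ℝ
  | none => 0
  | some C => 1 - (C a - 1)

/-- the gain of the column `z` -/
noncomputable def gz (A : Fin 4 → Fin 4 → Option (Fin 4 → ℝ)) (P : Fin 4 → Fin 4 → ℝ)
    (a z x y : Fin 4) (nx ny k K W s : ℝ) : ℝ :=
  cv A P a z x y nx ny k - W - K * slk P x y z a - s * rd a (A a z)

/-- the inequalities of `Gains` for the column `z` with the rows `x`, `y` -/
structure ColG (A : Fin 4 → Fin 4 → Option (Fin 4 → ℝ)) (a z x y : Fin 4) (γ : ℝ)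
    (φ : Fin 4 → ℝ → ℝ) (B : Fin 4 → Fin 4 → ℝ → ℝ → ℝ) (g τ : ℝ) : Prop where
  none : A a z = none → γ ≤ 0
  one : ∀ F, A a z = some F → γ ≤ φ z (2 + F z)
  top : ∀ F, A a z = some F → γ ≤ g
  twoy : ∀ F, A a z = some F → 0 ≤ F y + (F a - 1) → γ + φ y (F y + (F a - 1)) ≤ g
  twox : ∀ F, A a z = some F → 0 ≤ F x + (F a - 1) → γ + φ x (F x + (F a - 1)) ≤ g
  three : ∀ F, A a z = some F → 0 ≤ F y + (F a - 1) → 0 ≤ F x + (F a - 1) →
    γ + φ y (F y + (F a - 1)) + φ x (F x + (F a - 1)) ≤ g + τ ∨ γ ≤ τ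
  capy : ∀ F c, A a z = some F → 0 ≤ c → c ≤ F y + (F a - 1) → γ ≤ B z y (2 + F z) c
  capx : ∀ F c, A a z = some F → 0 ≤ c → c ≤ F x + (F a - 1) → γ ≤ B z x (2 + F z) c

section

variable {A : Fin 4 → Fin 4 → Option (Fin 4 → ℝ)} {P : Fin 4 → Fin 4 → ℝ} {a z x y : Fin 4}
  {nx ny k K W' W s g τ : ℝ} {Q : ℝ → ℝ → Prop} {R : ℝ → ℝ → ℝ → ℝ → ℝ → Prop} {f : Fl}

private theorem ups_true (X : ℝ) : Ups (fun _ _ => True) X :=
  ⟨fun _ _ _ _ => trivial, fun _ _ _ _ => trivial⟩

/-- one value of the gain -/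
theorem ColE.val (h : OLB A P a) (hn : [a, z, x, y].Nodup)
    (E : ColE A P a z x y nx ny k K W' W Q R f) {C : Fin 4 → ℝ} (hC : A a z = some C)
    {w α β φ : ℝ} (hw : w = 2 + C z) (hα : α = 1 - (C y + (C a - 1)))
    (hβ : β = 1 - (C x + (C a - 1)))
    (H : Bd nx ny k (P x x - 1) (P y y - 1) W' W (R w α β) f w α β φ) :
    cv A P a z x y nx ny k ≤ W + φ + K * slk P x y z a := by
  obtain ⟨hvol, w0, w1, α0, β0, hab, hab1, ed⟩ := cell_num h hn hC hw hα hβ
  have hKs := mul_nonneg E.K0 (olb_slk h hn)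
  have hR := fun hd => E.hR C hC hd
  rw [← hw, ← hα, ← hβ] at hR
  have low : C a - 1 < 11 / 20 → St2 nx ny k (P x x - 1) (P y y - 1) W (R w α β) f.qx f.qy w α β φ →
      cv A P a z x y nx ny k ≤ W + φ + K * slk P x y z a := by
    intro hd S
    have := colSt h hn E.k0 E.sx E.sy (hR hd) (E.ux _ _ _) (E.uy _ _ _) hC hw hα hβ
      (E.kx C hC hd) (E.ky C hC hd) S.1 S.2
    linarith
  have hgh : ∀ qx qy : Prop, (qx → -P x z ≤ (C y + (C a - 1)) + (P x x - 1)) →
      (qy → -P y z ≤ (C x + (C a - 1)) + (P y y - 1)) →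
      St2 nx ny k (P x x - 1) (P y y - 1) W (fun _ _ => True) qx qy w α β φ →
      cv A P a z x y nx ny k ≤ W + φ + K * slk P x y z a := by
    intro qx qy kx ky S
    have := colSt (R := fun _ _ => True) h hn E.k0 E.sx E.sy trivial (ups_true _) (ups_true _) hC
      hw hα hβ kx ky S.1 S.2
    linarith
  by_cases hb : f.b
  · obtain ⟨H2, hQ, hW⟩ := E.base hb
    have base := colNone h hn hQ H2
    rw [hvol] at base
    rcases le_or_gt (vl w α β) (φ + (W - W')) with h2 | h2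
    · linarith
    rcases le_or_gt (α + β) (w + 9 / 20) with h1 | h1
    · obtain ⟨k1, k2, k3⟩ := H.1 hb h1 h2
      by_cases hx : f.ex
      · by_cases hy : f.ey
        · exact hgh True True (fun _ => E.ex C hC hx) (fun _ => E.ey C hC hy) (k3 hx hy)
        · exact hgh True False (fun _ => E.ex C hC hx) (fun t => t.elim) (k2 hy)
      · by_cases hy : f.ey
        · exact hgh False True (fun t => t.elim) (fun _ => E.ey C hC hy) (k1 hx)
        · by_cases hc : -P x z ≤ (C y + (C a - 1)) + (P x x - 1)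
          · exact hgh True False (fun _ => hc) (fun t => t.elim) (k2 hy)
          · exact hgh False True (fun t => t.elim)
              (fun _ => VB.row h ⟨hn, hC, not_le.1 hc⟩) (k1 hx)
    · exact low (by rw [ed]; linarith) (H.2 h1 fun _ => h2)
  · obtain ⟨C', hC', hd⟩ := E.wit hb
    rw [hC, Option.some.injEq] at hC'
    subst hC'
    exact low hd (H.2 (by linarith) fun h => absurd h hb)

/-- **The inequalities of `Gains` for one column.** -/
theorem colG_of (h : OLB A P a) (hn : [a, z, x, y].Nodup)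
    (E : ColE A P a z x y nx ny k K W' W Q R f) {φ : Fin 4 → ℝ → ℝ}
    {B : Fin 4 → Fin 4 → ℝ → ℝ → ℝ}
    (M : Modes nx ny k (P x x - 1) (P y y - 1) W' W s g τ R f (φ z) (φ x) (φ y) (B z x)
      (B z y)) :
    ColG A a z x y (gz A P a z x y nx ny k K W s) φ B g τ := by
  have val : ∀ F, A a z = some F → ∀ m : ℝ,
      Bd nx ny k (P x x - 1) (P y y - 1) W' W
        (R (2 + F z) (1 - (F y + (F a - 1))) (1 - (F x + (F a - 1)))) f (2 + F z)
        (1 - (F y + (F a - 1))) (1 - (F x + (F a - 1)))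
        (m + s * (1 - (F y + (F a - 1)) + (1 - (F x + (F a - 1))) - (2 + F z))) →
      gz A P a z x y nx ny k K W s ≤ m := by
    intro F hF m H
    have e1 := E.val h hn hF rfl rfl rfl H
    have e2 := (cell_num h hn hF rfl rfl rfl).2.2.2.2.2.2.2
    have e3 : 1 - (F y + (F a - 1)) + (1 - (F x + (F a - 1))) - (2 + F z) = 1 - (F a - 1) := by
      linarith
    rw [e3] at e1
    unfold gz
    rw [hF]
    simp only [rd]
    linarith
  have cl : ∀ F, A a z = some F →
      Cl (2 + F z) (1 - (F y + (F a - 1))) (1 - (F x + (F a - 1))) := by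
    intro F hF
    obtain ⟨-, h1, h2, h3, h4, h5, h6, -⟩ := cell_num h hn hF rfl rfl rfl
    exact ⟨h1, h2, h3, h4, h5, h6⟩
  refine ⟨?_, ?_, ?_, ?_, ?_, ?_, ?_, ?_⟩
  · intro hN
    by_cases hb : f.b
    · obtain ⟨H2, hQ, hW⟩ := E.base hb
      have := colNone h hn hQ H2
      rw [hN] at this
      simp only [fo] at this
      unfold gz
      rw [hN]
      simp only [rd]
      linarith
    · obtain ⟨C, hC, -⟩ := E.wit hb
      rw [hN] at hC
      exact absurd hC (by simp)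
  · exact fun F hF => val F hF _ (M.one _ _ _ (cl F hF))
  · exact fun F hF => val F hF _ (M.top _ _ _ (cl F hF))
  · intro F hF h0
    have := val F hF _ (M.twoy _ _ _ (cl F hF) (by linarith))
    rw [show 1 - (1 - (F y + (F a - 1))) = F y + (F a - 1) by ring] at this
    linarith
  · intro F hF h0
    have := val F hF _ (M.twox _ _ _ (cl F hF) (by linarith))
    rw [show 1 - (1 - (F x + (F a - 1))) = F x + (F a - 1) by ring] at this
    linarith
  · intro F hF h0 h1
    rcases M.three _ _ _ (cl F hF) (by linarith) (by linarith) with H | H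
    · left
      have := val F hF _ H
      rw [show 1 - (1 - (F y + (F a - 1))) = F y + (F a - 1) by ring,
        show 1 - (1 - (F x + (F a - 1))) = F x + (F a - 1) by ring] at this
      linarith
    · exact Or.inr (val F hF _ H)
  · exact fun F c hF h0 h1 => val F hF _ (M.capy _ _ _ c (cl F hF) h0 (by linarith))
  · exact fun F c hF h0 h1 => val F hF _ (M.capx _ _ _ c (cl F hF) h0 (by linarith))

end

section

variable {A : Fin 4 → Fin 4 → Option (Fin 4 → ℝ)} {P : Fin 4 → Fin 4 → ℝ} {a p r s : Fin 4}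
  {φ : Fin 4 → ℝ → ℝ} {B : Fin 4 → Fin 4 → ℝ → ℝ → ℝ} {g τ : ℝ}

theorem ColG.swap {z x y : Fin 4} {γ : ℝ} (G : ColG A a z x y γ φ B g τ) :
    ColG A a z y x γ φ B g τ :=
  ⟨G.none, G.one, G.top, G.twox, G.twoy, fun F hF h0 h1 => by
    rcases G.three F hF h1 h0 with h | h
    · left
      linarith
    · exact Or.inr h, G.capx, G.capy⟩

/-- the gains of three columns -/
theorem gains_of {Γ : Fin 4 → ℝ}
    (H : ∀ z, z ≠ a → ∃ x y, [a, z, x, y].Nodup ∧ ColG A a z x y (Γ z) φ B g τ)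
    (tau : 0 ≤ τ) (gnn : 0 ≤ g)
    (mono : ∀ z, z ≠ a → ∀ s t : ℝ, 0 ≤ s → s ≤ t → t ≤ 1 → φ z s ≤ φ z t)
    (cyc : ∀ z y x, [a, z, y, x].Nodup → ∀ p q r : ℝ, 0 ≤ p → p ≤ 1 → 0 ≤ q → q ≤ 1 → 0 ≤ r →
      r ≤ 1 → B z y p q + B y x q r + B x z r p ≤ g + τ) : Gains A a Γ φ B g τ := by
  have sw : ∀ {a z x y : Fin 4}, [a, z, x, y].Nodup → [a, z, y, x].Nodup := by decide
  have un : ∀ {a z x y y' x' : Fin 4}, [a, z, x, y].Nodup → [a, z, y', x'].Nodup →
      (y' = y ∧ x' = x) ∨ (y' = x ∧ x' = y) := by decide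
  -- both orders
  have H' : ∀ z y x, [a, z, y, x].Nodup → ColG A a z x y (Γ z) φ B g τ := by
    intro z y x hn
    obtain ⟨x', y', hn', G⟩ := H z (nodup_ne hn).1
    rcases un hn' hn with ⟨rfl, rfl⟩ | ⟨rfl, rfl⟩
    · exact G
    · exact G.swap
  have third : ∀ z y, z ≠ a → y ≠ a → z ≠ y → ∃ x, [a, z, y, x].Nodup := by
    intro z y h1 h2 h3
    exact exists_rest1 (i := a) (j := z) (k := y) (by simp [h1.symm, h2.symm, h3])
  refine ⟨tau, gnn, mono, ?_, ?_, ?_, ?_, ?_, ?_, cyc⟩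
  · intro z hz
    obtain ⟨x, y, hn, G⟩ := H z hz
    exact G.none
  · intro z F hz
    obtain ⟨x, y, hn, G⟩ := H z hz
    exact G.one F
  · intro z F hz
    obtain ⟨x, y, hn, G⟩ := H z hz
    exact G.top F
  · intro z y F hz hy hzy hF h0
    obtain ⟨x, hn⟩ := third z y hz hy hzy
    exact (H' z y x hn).twoy F hF h0
  · intro z y x F hn hF h0 h1
    exact (H' z y x hn).three F hF h0 h1
  · intro z y F c hz hy hzy hF h0 h1
    obtain ⟨x, hn⟩ := third z y hz hy hzy
    exact (H' z y x hn).capy F c hF h0 h1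

/-- **A piece.** `tp tr ts` are the bounds of the terms `s * (1 - d_C)` of the columns; they are
taken from the column `a`. -/
theorem piece (h : OLB A P a) (hn : [a, p, r, s].Nodup)
    {np nr ns kpr kps krs lpr lps lrs mpr mps mrs Wa Wp Wr Ws sp sr ss tp tr ts T : ℝ}
    (Gp : ColG A a p r s (gz A P a p r s nr ns krs mrs Wp sp) φ B g τ)
    (Gr : ColG A a r p s (gz A P a r p s np ns kps mps Wr sr) φ B g τ)
    (Gs : ColG A a s p r (gz A P a s p r np nr kpr mpr Ws ss) φ B g τ)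
    (tau : 0 ≤ τ) (gnn : 0 ≤ g)
    (cyc : ∀ z y x, [a, z, y, x].Nodup → ∀ p q r : ℝ, 0 ≤ p → p ≤ 1 → 0 ≤ q → q ≤ 1 → 0 ≤ r →
      r ≤ 1 → B z y p q + B y x q r + B x z r p ≤ g + τ)
    (H : Pool.Agent.Helper8.TS.Hi φ a (3 / 5) (g + τ))
    (ep : sp * rd a (A a p) ≤ tp) (er : sr * rd a (A a r) ≤ tr) (es : ss * rd a (A a s) ≤ ts)
    (ca : ColI A P a p r s np nr ns kpr kps krs lpr lps lrs (Wa - tp - tr - ts))
    (spr : lpr + mpr ≤ kpr) (sps : lps + mps ≤ kps) (srs : lrs + mrs ≤ krs)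
    (tot : rowc np (P p p - 1) + rowc nr (P r r - 1) + rowc ns (P s s - 1)
      + kpr * ((P p p - 1) + (P r r - 1)) + kps * ((P p p - 1) + (P s s - 1))
      + krs * ((P r r - 1) + (P s s - 1)) + Wa + Wp + Wr + Ws + g + τ ≤ T) :
    ∑ i, VV A i ≤ T := by
  have ne := nodup_ne hn
  have hpr : p ≠ r := by
    clear * - hn; revert hn; revert a p r s; decide
  have hps : p ≠ s := by
    clear * - hn; revert hn; revert a p r s; decide
  have hrs : r ≠ s := by
    clear * - hn; revert hn; revert a p r s; decide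
  obtain ⟨Γ, hΓ⟩ : ∃ Γ : Fin 4 → ℝ, Γ p = gz A P a p r s nr ns krs mrs Wp sp ∧
      Γ r = gz A P a r p s np ns kps mps Wr sr ∧ Γ s = gz A P a s p r np nr kpr mpr Ws ss := by
    refine ⟨fun z => if z = p then gz A P a p r s nr ns krs mrs Wp sp else
      if z = r then gz A P a r p s np ns kps mps Wr sr else
        gz A P a s p r np nr kpr mpr Ws ss, ?_, ?_, ?_⟩
    · simp
    · simp [hpr.symm]
    · simp [hps.symm, hrs.symm]
  obtain ⟨g1, g2, g3⟩ := hΓ
  have n2 : [a, r, p, s].Nodup := by clear * - hn; revert hn; revert a p r s; decide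
  have n3 : [a, s, p, r].Nodup := by clear * - hn; revert hn; revert a p r s; decide
  have G : Gains A a Γ φ B g τ := by
    refine gains_of ?_ tau gnn (fun m hm => (H.star m hm).mono) cyc
    intro z hz
    rcases mem4 hn z with rfl | rfl | rfl | rfl
    · exact absurd rfl hz
    · exact ⟨r, s, hn, by rw [g1]; exact Gp⟩
    · exact ⟨p, s, n2, by rw [g2]; exact Gr⟩
    · exact ⟨p, r, n3, by rw [g3]; exact Gs⟩
  have k1 := asmLow (Gp := Wp + Γ p + tp) (Gr := Wr + Γ r + tr) (Gs := Ws + Γ s + ts)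
    (mpr := mpr) (mps := mps) (mrs := mrs) h hn ca
    (by rw [g1]; unfold gz; linarith) (by rw [g2]; unfold gz; linarith)
    (by rw [g3]; unfold gz; linarith) spr sps srs
  have k2 := gains_hi h.of h.low G H hn
  linarith

end

end Pool.Agent.Helper78.TS
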