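import Pool.Agent.Helper84.TS.Cases
import Pool.Agent.Helper36.TS.FrameG

/-!
# The typed cases from columns

`ColI` is the inequality of one column with explicit numbers. `asm4` puts four columns together
(all four classes are rows). `caseTxxxx_of`: let `C` be any statement about real numbers which gives
the column inequality (`hC`); if for all heights `d₁ d₂ d₃ d₄ ∈ [0, 3/5)` there are multipliers,
shares and column bounds which satisfy the four statements `C` and the total inequality, then the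
case holds.
-/

set_option autoImplicit false

namespace Pool.Agent.Helper78.TS

open Pool.Agent.Helper84.TS Pool.Agent.Helper36.TS

/-! ### Functions with prescribed values -/

theorem pairs_ne : ∀ {i j k l : Fin 4}, [i, j, k, l].Nodup →
    (({i, k} : Finset (Fin 4)) ≠ {i, j}) ∧ (({i, l} : Finset (Fin 4)) ≠ {i, j}) ∧
    (({i, l} : Finset (Fin 4)) ≠ {i, k}) ∧ (({j, k} : Finset (Fin 4)) ≠ {i, j}) ∧
    (({j, k} : Finset (Fin 4)) ≠ {i, k}) ∧ (({j, k} : Finset (Fin 4)) ≠ {i, l}) ∧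
    (({j, l} : Finset (Fin 4)) ≠ {i, j}) ∧ (({j, l} : Finset (Fin 4)) ≠ {i, k}) ∧
    (({j, l} : Finset (Fin 4)) ≠ {i, l}) ∧ (({j, l} : Finset (Fin 4)) ≠ {j, k}) ∧
    (({k, l} : Finset (Fin 4)) ≠ {i, j}) ∧ (({k, l} : Finset (Fin 4)) ≠ {i, k}) ∧
    (({k, l} : Finset (Fin 4)) ≠ {i, l}) ∧ (({k, l} : Finset (Fin 4)) ≠ {j, k}) ∧
    (({k, l} : Finset (Fin 4)) ≠ {j, l}) := by
  decide

/-- a symmetric function with six prescribed values -/
theorem sym_values {i j k l : Fin 4} (hn : [i, j, k, l].Nodup) (a b c d e f : ℝ) :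
    ∃ κ : Fin 4 → Fin 4 → ℝ, (∀ x y, κ x y = κ y x) ∧ κ i j = a ∧ κ i k = b ∧ κ i l = c ∧
      κ j k = d ∧ κ j l = e ∧ κ k l = f := by
  obtain ⟨h1, h2, h3, h4, h5, h6, h7, h8, h9, h10, h11, h12, h13, h14, h15⟩ := pairs_ne hn
  refine ⟨fun x y => if ({x, y} : Finset (Fin 4)) = {i, j} then a
    else if ({x, y} : Finset (Fin 4)) = {i, k} then b
    else if ({x, y} : Finset (Fin 4)) = {i, l} then c
    else if ({x, y} : Finset (Fin 4)) = {j, k} then d
    else if ({x, y} : Finset (Fin 4)) = {j, l} then e else f, ?_, ?_, ?_, ?_, ?_, ?_, ?_⟩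
  · intro x y
    simp only [Finset.pair_comm x y]
  · simp only [if_true]
  · simp only [if_neg h1, if_true]
  · simp only [if_neg h2, if_neg h3, if_true]
  · simp only [if_neg h4, if_neg h5, if_neg h6, if_true]
  · simp only [if_neg h7, if_neg h8, if_neg h9, if_neg h10, if_true]
  · simp only [if_neg h11, if_neg h12, if_neg h13, if_neg h14, if_neg h15]

theorem four_values {i j k l : Fin 4} (hn : [i, j, k, l].Nodup) {α : Type*} (a b c d : α) :
    ∃ W : Fin 4 → α, W i = a ∧ W j = b ∧ W k = c ∧ W l = d := by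
  simp only [List.nodup_cons, List.mem_cons, List.not_mem_nil, or_false, not_or] at hn
  obtain ⟨⟨h1, h2, h3⟩, ⟨h4, h5⟩, h6, -⟩ := hn
  refine ⟨fun x => if x = i then a else if x = j then b else if x = k then c else d,
    ?_, ?_, ?_, ?_⟩
  · simp
  · simp [Ne.symm h1]
  · simp [Ne.symm h2, Ne.symm h4]
  · simp [Ne.symm h3, Ne.symm h5, Ne.symm h6]

/-- the shares: three prescribed values for each column -/
theorem share_values {i j k l : Fin 4} (hn : [i, j, k, l].Nodup)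
    (ijk ijl ikl jik jil jkl kij kil kjl lij lik ljk : ℝ) :
    ∃ L : Fin 4 → Fin 4 → Fin 4 → ℝ,
      L i j k = ijk ∧ L i j l = ijl ∧ L i k l = ikl ∧ L j i k = jik ∧ L j i l = jil ∧
      L j k l = jkl ∧ L k i j = kij ∧ L k i l = kil ∧ L k j l = kjl ∧ L l i j = lij ∧
      L l i k = lik ∧ L l j k = ljk := by
  obtain ⟨Li, -, -, -, -, i1, i2, i3⟩ := sym_values hn 0 0 0 ijk ijl ikl
  obtain ⟨Lj, -, -, j1, j2, -, -, j3⟩ := sym_values hn 0 jik jil 0 0 jkl
  obtain ⟨Lk, -, k1, -, k2, -, k3, -⟩ := sym_values hn kij 0 kil 0 kjl 0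
  obtain ⟨Ll, -, l1, l2, -, l3, -, -⟩ := sym_values hn lij lik 0 ljk 0 0
  obtain ⟨L, hi, hj, hk, hl⟩ := four_values hn Li Lj Lk Ll
  refine ⟨L, ?_, ?_, ?_, ?_, ?_, ?_, ?_, ?_, ?_, ?_, ?_, ?_⟩
  · rw [hi]; exact i1
  · rw [hi]; exact i2
  · rw [hi]; exact i3
  · rw [hj]; exact j1
  · rw [hj]; exact j2
  · rw [hj]; exact j3
  · rw [hk]; exact k1
  · rw [hk]; exact k2
  · rw [hk]; exact k3
  · rw [hl]; exact l1
  · rw [hl]; exact l2
  · rw [hl]; exact l3

/-! ### One column -/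

/-- the inequality of the column `m` with the classes `a`, `b`, `c`: multipliers `na nb nc` of the
rows and `kab kac kbc` of the pairs, shares `Lab Lac Lbc` of the slacks, bound `W` -/
def ColI (A : Fin 4 → Fin 4 → Option (Fin 4 → ℝ)) (P : Fin 4 → Fin 4 → ℝ) (m a b c : Fin 4)
    (na nb nc kab kac kbc Lab Lac Lbc W : ℝ) : Prop :=
  sx na (P a a - 1) (-P a m) + sx nb (P b b - 1) (-P b m) + sx nc (P c c - 1) (-P c m)
    - kab * min (-P a m) (-P b m) - kac * min (-P a m) (-P c m) - kbc * min (-P b m) (-P c m)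
    + rst A id a m + rst A id b m + rst A id c m
    ≤ W + Lab * slk P a b m c + Lac * slk P a c m b + Lbc * slk P b c m a

section

variable {A : Fin 4 → Fin 4 → Option (Fin 4 → ℝ)} {P : Fin 4 → Fin 4 → ℝ}

theorem ColI.swap12 {m a b c : Fin 4} {na nb nc kab kac kbc Lab Lac Lbc W : ℝ}
    (h : ColI A P m a b c na nb nc kab kac kbc Lab Lac Lbc W) :
    ColI A P m b a c nb na nc kab kbc kac Lab Lbc Lac W := by
  unfold ColI at *
  rw [slk_comm P b a m c, min_comm (-P b m) (-P a m)]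
  linarith [h]

theorem ColI.swap23 {m a b c : Fin 4} {na nb nc kab kac kbc Lab Lac Lbc W : ℝ}
    (h : ColI A P m a b c na nb nc kab kac kbc Lab Lac Lbc W) :
    ColI A P m a c b na nc nb kac kab kbc Lac Lab Lbc W := by
  unfold ColI at *
  rw [slk_comm P c b m a, min_comm (-P c m) (-P b m)]
  linarith [h]

/-- the total inequality and the shares; the shares are named by the column and the pair -/
structure Tot (d1 d2 d3 d4 n1 n2 n3 n4 k12 k13 k14 k23 k24 k34 w1 w2 w3 w4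
    l123 l124 l134 l213 l214 l234 l312 l314 l324 l412 l413 l423 : ℝ) : Prop where
  s12 : l312 + l412 ≤ k12
  s13 : l213 + l413 ≤ k13
  s14 : l214 + l314 ≤ k14
  s23 : l123 + l423 ≤ k23
  s24 : l124 + l324 ≤ k24
  s34 : l134 + l234 ≤ k34
  tot : rowc n1 d1 + rowc n2 d2 + rowc n3 d3 + rowc n4 d4 + k12 * (d1 + d2) + k13 * (d1 + d3)
    + k14 * (d1 + d4) + k23 * (d2 + d3) + k24 * (d2 + d4) + k34 * (d3 + d4)
    + (w1 + w2 + w3 + w4) ≤ 613 / 200

/-- **Four columns.** -/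
theorem asm4 (h : OF A) (hP : ∀ x, A x x = some (P x)) {i j k l : Fin 4}
    (hn : [i, j, k, l].Nodup)
    {n1 n2 n3 n4 k12 k13 k14 k23 k24 k34 w1 w2 w3 w4
      l123 l124 l134 l213 l214 l234 l312 l314 l324 l412 l413 l423 : ℝ}
    (T : Tot (P i i - 1) (P j j - 1) (P k k - 1) (P l l - 1) n1 n2 n3 n4 k12 k13 k14 k23 k24 k34
      w1 w2 w3 w4 l123 l124 l134 l213 l214 l234 l312 l314 l324 l412 l413 l423)
    (ci : ColI A P i j k l n2 n3 n4 k23 k24 k34 l123 l124 l134 w1)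
    (cj : ColI A P j i k l n1 n3 n4 k13 k14 k34 l213 l214 l234 w2)
    (ck : ColI A P k i j l n1 n2 n4 k12 k14 k24 l312 l314 l324 w3)
    (cl : ColI A P l i j k n1 n2 n3 k12 k13 k23 l412 l413 l423 w4) :
    ∑ t, VV A t ≤ 613 / 200 := by
  obtain ⟨ν, νi, νj, νk, νl⟩ := four_values hn n1 n2 n3 n4
  obtain ⟨W, Wi, Wj, Wk, Wl⟩ := four_values hn w1 w2 w3 w4
  obtain ⟨κ, hκ, κij, κik, κil, κjk, κjl, κkl⟩ := sym_values hn k12 k13 k14 k23 k24 k34
  obtain ⟨L, Lijk, Lijl, Likl, Ljik, Ljil, Ljkl, Lkij, Lkil, Lkjl, Llij, Llik, Lljk⟩ :=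
    share_values hn l123 l124 l134 l213 l214 l234 l312 l314 l324 l412 l413 l423
  have hP' : ∀ x, A x (id x) = some (P x) := hP
  unfold ColI at ci cj ck cl
  rw [slk_comm' P k l j i] at cj
  rw [slk_comm' P i l k j, slk_comm' P j l k i] at ck
  rw [slk_comm' P i j l k, slk_comm' P i k l j, slk_comm' P j k l i] at cl
  have key := frameG h hP' hn (fun _ => 1) ν W κ L
    (by simp only [colg, νj, νk, νl, κjk, κjl, κkl, Lijk, Lijl, Likl, Wi, one_mul]; exact ci)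
    (by simp only [colg, νi, νk, νl, κik, κil, κkl, Ljik, Ljil, Ljkl, Wj, one_mul]; exact cj)
    (by simp only [colg, νi, νj, νl, κij, κil, κjl, Lkij, Lkil, Lkjl, Wk, one_mul]; exact ck)
    (by simp only [colg, νi, νj, νk, κij, κik, κjk, Llij, Llik, Lljk, Wl, one_mul]; exact cl)
    (by rw [Lkij, Llij, κij]; exact T.s12) (by rw [Ljik, Llik, κik]; exact T.s13)
    (by rw [Ljil, Lkil, κil]; exact T.s14) (by rw [Lijk, Lljk, κjk]; exact T.s23)
    (by rw [Lijl, Lkjl, κjl]; exact T.s24) (by rw [Likl, Ljkl, κkl]; exact T.s34)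
  have r0 : ∀ x, rst A id x x = 0 := fun x => rst_row A (s := id) rfl
  have tot := T.tot
  rw [r0, r0, r0, r0, νi, νj, νk, νl, κij, κik, κil, κjk, κjl, κkl, Wi, Wj, Wk, Wl] at key
  linarith [key, tot]

end

/-! ### The cases -/

/-- the heights of four good classes -/
structure Hts (d1 d2 d3 d4 : ℝ) : Prop where
  a0 : 0 ≤ d1
  a1 : d1 < 3 / 5
  b0 : 0 ≤ d2
  b1 : d2 < 3 / 5
  c0 : 0 ≤ d3
  c1 : d3 < 3 / 5
  e0 : 0 ≤ d4
  e1 : d4 < 3 / 5

theorem hts_of {A : Fin 4 → Fin 4 → Option (Fin 4 → ℝ)} {P : Fin 4 → Fin 4 → ℝ}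
    (hB : Base A P) (i j k l : Fin 4) :
    Hts (P i i - 1) (P j j - 1) (P k k - 1) (P l l - 1) := by
  have h : ∀ x, 0 ≤ P x x - 1 := fun x => by
    have := (hB.of.cell x x _ (hB.hP x)).one
    linarith
  exact ⟨h i, hB.hd i, h j, hB.hd j, h k, hB.hd k, h l, hB.hd l⟩

/-- `C ne na nb kea keb kab Lea Leb Lab W de da db` gives the column inequality of every column with
the lowest class `e` and the classes `a`, `b` -/
def Gives (C : ℝ → ℝ → ℝ → ℝ → ℝ → ℝ → ℝ → ℝ → ℝ → ℝ → ℝ → ℝ → ℝ → Prop) : Prop :=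
  ∀ (A : Fin 4 → Fin 4 → Option (Fin 4 → ℝ)) (P : Fin 4 → Fin 4 → ℝ), Base A P → OneFar A →
    ∀ m e a b : Fin 4, [m, e, a, b].Nodup → Low P m e →
    ∀ ne na nb kea keb kab Lea Leb Lab W : ℝ,
      C ne na nb kea keb kab Lea Leb Lab W (P e e - 1) (P a a - 1) (P b b - 1) →
      ColI A P m e a b ne na nb kea keb kab Lea Leb Lab W

section

variable {C : ℝ → ℝ → ℝ → ℝ → ℝ → ℝ → ℝ → ℝ → ℝ → ℝ → ℝ → ℝ → ℝ → Prop}

/-- **Type `(2,3,1,1)`**: classes `1 2 3 4 = i j k l`, lowest classes `2 3 1 1` -/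
theorem caseT2311_of (hC : Gives C) (H : ∀ d1 d2 d3 d4 : ℝ, Hts d1 d2 d3 d4 →
    ∃ n1 n2 n3 n4 k12 k13 k14 k23 k24 k34 w1 w2 w3 w4
      l123 l124 l134 l213 l214 l234 l312 l314 l324 l412 l413 l423 : ℝ,
      Tot d1 d2 d3 d4 n1 n2 n3 n4 k12 k13 k14 k23 k24 k34 w1 w2 w3 w4
        l123 l124 l134 l213 l214 l234 l312 l314 l324 l412 l413 l423 ∧
      C n2 n3 n4 k23 k24 k34 l123 l124 l134 w1 d2 d3 d4 ∧
      C n3 n1 n4 k13 k34 k14 l213 l234 l214 w2 d3 d1 d4 ∧
      C n1 n2 n4 k12 k14 k24 l312 l314 l324 w3 d1 d2 d4 ∧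
      C n1 n2 n3 k12 k13 k23 l412 l413 l423 w4 d1 d2 d3) : CaseT2311 := by
  intro A P hB hO i j k l hn li lj lk ll
  obtain ⟨n1, n2, n3, n4, k12, k13, k14, k23, k24, k34, w1, w2, w3, w4, l123, l124, l134, l213,
    l214, l234, l312, l314, l324, l412, l413, l423, T, c1, c2, c3, c4⟩ :=
    H _ _ _ _ (hts_of hB i j k l)
  have g1 := hC A P hB hO i j k l
    (by clear * - hn; revert hn; revert i j k l; decide) li _ _ _ _ _ _ _ _ _ _ c1
  have g2 := hC A P hB hO j k i l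
    (by clear * - hn; revert hn; revert i j k l; decide) lj _ _ _ _ _ _ _ _ _ _ c2
  have g3 := hC A P hB hO k i j l
    (by clear * - hn; revert hn; revert i j k l; decide) lk _ _ _ _ _ _ _ _ _ _ c3
  have g4 := hC A P hB hO l i j k
    (by clear * - hn; revert hn; revert i j k l; decide) ll _ _ _ _ _ _ _ _ _ _ c4
  exact asm4 hB.of hB.hP hn T g1 g2.swap12 g3 g4

/-- **Type `(2,3,4,1)`**: classes `1 2 3 4 = i j k l`, lowest classes `2 3 4 1` -/
theorem caseT2341_of (hC : Gives C) (H : ∀ d1 d2 d3 d4 : ℝ, Hts d1 d2 d3 d4 →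
    ∃ n1 n2 n3 n4 k12 k13 k14 k23 k24 k34 w1 w2 w3 w4
      l123 l124 l134 l213 l214 l234 l312 l314 l324 l412 l413 l423 : ℝ,
      Tot d1 d2 d3 d4 n1 n2 n3 n4 k12 k13 k14 k23 k24 k34 w1 w2 w3 w4
        l123 l124 l134 l213 l214 l234 l312 l314 l324 l412 l413 l423 ∧
      C n2 n3 n4 k23 k24 k34 l123 l124 l134 w1 d2 d3 d4 ∧
      C n3 n1 n4 k13 k34 k14 l213 l234 l214 w2 d3 d1 d4 ∧
      C n4 n1 n2 k14 k24 k12 l314 l324 l312 w3 d4 d1 d2 ∧
      C n1 n2 n3 k12 k13 k23 l412 l413 l423 w4 d1 d2 d3) : CaseT2341 := by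
  intro A P hB hO i j k l hn li lj lk ll
  obtain ⟨n1, n2, n3, n4, k12, k13, k14, k23, k24, k34, w1, w2, w3, w4, l123, l124, l134, l213,
    l214, l234, l312, l314, l324, l412, l413, l423, T, c1, c2, c3, c4⟩ :=
    H _ _ _ _ (hts_of hB i j k l)
  have g1 := hC A P hB hO i j k l
    (by clear * - hn; revert hn; revert i j k l; decide) li _ _ _ _ _ _ _ _ _ _ c1
  have g2 := hC A P hB hO j k i l
    (by clear * - hn; revert hn; revert i j k l; decide) lj _ _ _ _ _ _ _ _ _ _ c2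
  have g3 := hC A P hB hO k l i j
    (by clear * - hn; revert hn; revert i j k l; decide) lk _ _ _ _ _ _ _ _ _ _ c3
  have g4 := hC A P hB hO l i j k
    (by clear * - hn; revert hn; revert i j k l; decide) ll _ _ _ _ _ _ _ _ _ _ c4
  exact asm4 hB.of hB.hP hn T g1 g2.swap12 g3.swap12.swap23 g4

/-- **Type `(2,1,4,3)`**: classes `1 2 3 4 = i j k l`, lowest classes `2 1 4 3` -/
theorem caseT2143_of (hC : Gives C) (H : ∀ d1 d2 d3 d4 : ℝ, Hts d1 d2 d3 d4 →
    ∃ n1 n2 n3 n4 k12 k13 k14 k23 k24 k34 w1 w2 w3 w4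
      l123 l124 l134 l213 l214 l234 l312 l314 l324 l412 l413 l423 : ℝ,
      Tot d1 d2 d3 d4 n1 n2 n3 n4 k12 k13 k14 k23 k24 k34 w1 w2 w3 w4
        l123 l124 l134 l213 l214 l234 l312 l314 l324 l412 l413 l423 ∧
      C n2 n3 n4 k23 k24 k34 l123 l124 l134 w1 d2 d3 d4 ∧
      C n1 n3 n4 k13 k14 k34 l213 l214 l234 w2 d1 d3 d4 ∧
      C n4 n1 n2 k14 k24 k12 l314 l324 l312 w3 d4 d1 d2 ∧
      C n3 n1 n2 k13 k23 k12 l413 l423 l412 w4 d3 d1 d2) : CaseT2143 := by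
  intro A P hB hO i j k l hn li lj lk ll
  obtain ⟨n1, n2, n3, n4, k12, k13, k14, k23, k24, k34, w1, w2, w3, w4, l123, l124, l134, l213,
    l214, l234, l312, l314, l324, l412, l413, l423, T, c1, c2, c3, c4⟩ :=
    H _ _ _ _ (hts_of hB i j k l)
  have g1 := hC A P hB hO i j k l
    (by clear * - hn; revert hn; revert i j k l; decide) li _ _ _ _ _ _ _ _ _ _ c1
  have g2 := hC A P hB hO j i k l
    (by clear * - hn; revert hn; revert i j k l; decide) lj _ _ _ _ _ _ _ _ _ _ c2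
  have g3 := hC A P hB hO k l i j
    (by clear * - hn; revert hn; revert i j k l; decide) lk _ _ _ _ _ _ _ _ _ _ c3
  have g4 := hC A P hB hO l k i j
    (by clear * - hn; revert hn; revert i j k l; decide) ll _ _ _ _ _ _ _ _ _ _ c4
  exact asm4 hB.of hB.hP hn T g1 g2 g3.swap12.swap23 g4.swap12.swap23

/-- **Type `(2,1,1,2)`**: classes `1 2 3 4 = i j k l`, lowest classes `2 1 1 2` -/
theorem caseT2112_of (hC : Gives C) (H : ∀ d1 d2 d3 d4 : ℝ, Hts d1 d2 d3 d4 →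
    ∃ n1 n2 n3 n4 k12 k13 k14 k23 k24 k34 w1 w2 w3 w4
      l123 l124 l134 l213 l214 l234 l312 l314 l324 l412 l413 l423 : ℝ,
      Tot d1 d2 d3 d4 n1 n2 n3 n4 k12 k13 k14 k23 k24 k34 w1 w2 w3 w4
        l123 l124 l134 l213 l214 l234 l312 l314 l324 l412 l413 l423 ∧
      C n2 n3 n4 k23 k24 k34 l123 l124 l134 w1 d2 d3 d4 ∧
      C n1 n3 n4 k13 k14 k34 l213 l214 l234 w2 d1 d3 d4 ∧
      C n1 n2 n4 k12 k14 k24 l312 l314 l324 w3 d1 d2 d4 ∧
      C n2 n1 n3 k12 k23 k13 l412 l423 l413 w4 d2 d1 d3) : CaseT2112 := by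
  intro A P hB hO i j k l hn li lj lk ll
  obtain ⟨n1, n2, n3, n4, k12, k13, k14, k23, k24, k34, w1, w2, w3, w4, l123, l124, l134, l213,
    l214, l234, l312, l314, l324, l412, l413, l423, T, c1, c2, c3, c4⟩ :=
    H _ _ _ _ (hts_of hB i j k l)
  have g1 := hC A P hB hO i j k l
    (by clear * - hn; revert hn; revert i j k l; decide) li _ _ _ _ _ _ _ _ _ _ c1
  have g2 := hC A P hB hO j i k l
    (by clear * - hn; revert hn; revert i j k l; decide) lj _ _ _ _ _ _ _ _ _ _ c2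
  have g3 := hC A P hB hO k i j l
    (by clear * - hn; revert hn; revert i j k l; decide) lk _ _ _ _ _ _ _ _ _ _ c3
  have g4 := hC A P hB hO l j i k
    (by clear * - hn; revert hn; revert i j k l; decide) ll _ _ _ _ _ _ _ _ _ _ c4
  exact asm4 hB.of hB.hP hn T g1 g2 g3 g4.swap12

/-- **Type `(2,1,1,3)`**: classes `1 2 3 4 = i j k l`, lowest classes `2 1 1 3` -/
theorem caseT2113_of (hC : Gives C) (H : ∀ d1 d2 d3 d4 : ℝ, Hts d1 d2 d3 d4 →
    ∃ n1 n2 n3 n4 k12 k13 k14 k23 k24 k34 w1 w2 w3 w4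
      l123 l124 l134 l213 l214 l234 l312 l314 l324 l412 l413 l423 : ℝ,
      Tot d1 d2 d3 d4 n1 n2 n3 n4 k12 k13 k14 k23 k24 k34 w1 w2 w3 w4
        l123 l124 l134 l213 l214 l234 l312 l314 l324 l412 l413 l423 ∧
      C n2 n3 n4 k23 k24 k34 l123 l124 l134 w1 d2 d3 d4 ∧
      C n1 n3 n4 k13 k14 k34 l213 l214 l234 w2 d1 d3 d4 ∧
      C n1 n2 n4 k12 k14 k24 l312 l314 l324 w3 d1 d2 d4 ∧
      C n3 n1 n2 k13 k23 k12 l413 l423 l412 w4 d3 d1 d2) : CaseT2113 := by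
  intro A P hB hO i j k l hn li lj lk ll
  obtain ⟨n1, n2, n3, n4, k12, k13, k14, k23, k24, k34, w1, w2, w3, w4, l123, l124, l134, l213,
    l214, l234, l312, l314, l324, l412, l413, l423, T, c1, c2, c3, c4⟩ :=
    H _ _ _ _ (hts_of hB i j k l)
  have g1 := hC A P hB hO i j k l
    (by clear * - hn; revert hn; revert i j k l; decide) li _ _ _ _ _ _ _ _ _ _ c1
  have g2 := hC A P hB hO j i k l
    (by clear * - hn; revert hn; revert i j k l; decide) lj _ _ _ _ _ _ _ _ _ _ c2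
  have g3 := hC A P hB hO k i j l
    (by clear * - hn; revert hn; revert i j k l; decide) lk _ _ _ _ _ _ _ _ _ _ c3
  have g4 := hC A P hB hO l k i j
    (by clear * - hn; revert hn; revert i j k l; decide) ll _ _ _ _ _ _ _ _ _ _ c4
  exact asm4 hB.of hB.hP hn T g1 g2 g3 g4.swap12.swap23

end

end Pool.Agent.Helper78.TS
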