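import Pool.Agent.Helper78.TS.Types
import Pool.Agent.Helper19.TS.Slot

/-!
# A column in real variables

`ColR` says what has to be proved for a column in real variables (the four states: no far cell, a
far cell of the lowest class, a far cell of one of the two other classes); `gives_colR` is the
hypothesis `hC` of the theorems `caseTxxxx_of`.
-/

set_option autoImplicit false

namespace Pool.Agent.Helper78.TS

open Pool.Agent.Helper84.TS Pool.Agent.Helper36.TS

variable {A : Fin 4 → Fin 4 → Option (Fin 4 → ℝ)} {P : Fin 4 → Fin 4 → ℝ}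

/-! ### One column in real variables -/

/-- the height and the entry of a main row cell -/
structure Row (d u : ℝ) : Prop where
  d0 : 0 ≤ d
  d1 : d < 3 / 5
  lo : -(1 - d) ≤ u
  hi : u ≤ 1

/-- a column, `e` its lowest class: multipliers `ne na nb` of the rows, `ka kb K` of the pairs
`{e, a}`, `{e, b}`, `{a, b}`, heights `de da db`, entries `ue ua ub` -/
noncomputable def Cval (ne na nb ka kb K de da db ue ua ub : ℝ) : ℝ :=
  sx ne de ue + sx na da ua + sx nb db ub - K * min ua ub - (ka + kb) * ue

/-- what has to be proved for a column in real variables: `W` bounds the column, with the shares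
`La Lb Lab` of the slacks of the pairs `{e, a}`, `{e, b}`, `{a, b}` -/
structure ColR (ne na nb ka kb K La Lb Lab W de da db : ℝ) : Prop where
  /-- no far cell -/
  none : ∀ ue ua ub, Row de ue → Row da ua → Row db ub → ue ≤ ua → ue ≤ ub →
    Cval ne na nb ka kb K de da db ue ua ub ≤ W
  /-- the far cell belongs to the lowest class -/
  low : ∀ ue ua ub f w d al be sa sb, Row de ue → Row da ua → Row db ub → ue ≤ ua → ue ≤ ub →
    FarC f w d al be ue ua ub de da db sa sb → w ≤ -ue + max (de - d) 0 → w ≤ 13 / 20 →
    f ≤ 9 / 25 → 0 ≤ sa → 0 ≤ sb →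
    Cval ne na nb ka kb K de da db ue ua ub + f ≤ W + La * sa + Lb * sb
  /-- the far cell belongs to the class `a` -/
  fa : ∀ ue ua ub f w d al be se sb, Row de ue → Row da ua → Row db ub → ue ≤ ua → ue ≤ ub →
    FarC f w d al be ua ue ub da de db se sb → w ≤ -ua + max (da - d) 0 → w ≤ 13 / 20 →
    f ≤ 9 / 25 → 0 ≤ se → 0 ≤ sb →
    Cval ne na nb ka kb K de da db ue ua ub + f ≤ W + La * se + Lab * sb
  /-- the far cell belongs to the class `b` -/
  fb : ∀ ue ua ub f w d al be se sa, Row de ue → Row da ua → Row db ub → ue ≤ ua → ue ≤ ub →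
    FarC f w d al be ub ue ua db de da se sa → w ≤ -ub + max (db - d) 0 → w ≤ 13 / 20 →
    f ≤ 9 / 25 → 0 ≤ se → 0 ≤ sa →
    Cval ne na nb ka kb K de da db ue ua ub + f ≤ W + Lb * se + Lab * sa
  la : 0 ≤ La
  lb : 0 ≤ Lb
  lab : 0 ≤ Lab

/-- a far cell with `w ≤ 13/20` is small -/
theorem far_small (hB : Base A P) {i m : Fin 4} {F : Fin 4 → ℝ} (hm : m ≠ i)
    (hF : A i m = some F) : 2 + F m ≤ 13 / 20 ∧ fcl i F ≤ 9 / 25 := by
  have hw := hB.hw i m F hm hF
  refine ⟨hw, ?_⟩
  obtain ⟨x, y, hn⟩ := exists_rest2 hm.symm
  have hP' : ∀ i, A i (id i) = some (P i) := hB.hP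
  have key := farC_rst hB.of hP' hF hn
  have f3 := Pool.Agent.Helper19.TS.FarC_le_three key
  have w0 := key.w0
  have w1 : 0 ≤ 13 / 20 - (2 + F m) := by linarith
  generalize 2 + F m = w at *
  nlinarith [mul_nonneg w1 w0.le, mul_nonneg (mul_nonneg w1 w0.le) w0.le, mul_nonneg w1 w1]

theorem row_main (hB : Base A P) {x m y z : Fin 4} (hn : [x, m, y, z].Nodup) :
    Row (P x x - 1) (-P x m) := by
  obtain ⟨c1, c2, c3, c4, -⟩ := cell_lin (hB.of.cell x x _ (hB.hP x)) hn
  exact ⟨by linarith, hB.hd x, by linarith, hB.of.main x _ (hB.hP x) m (nodup_ne hn).1⟩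

/-- **One column** with at most one far cell. -/
theorem colR_of (hB : Base A P) {m e a b : Fin 4}
    (hO : ∀ x y F G, x ≠ m → y ≠ m → A x m = some F → A y m = some G → x = y)
    (hn : [m, e, a, b].Nodup) (hl : Low P m e) {nue nua nub kea keb kab Lea Leb Lab W : ℝ}
    (hC : ColR nue nua nub kea keb kab Lea Leb Lab W (P e e - 1) (P a a - 1) (P b b - 1)) :
    ColI A P m e a b nue nua nub kea keb kab Lea Leb Lab W := by
  have ne : [e, m, a, b].Nodup := by
    clear * - hn; revert hn; revert m e a b; decide
  have na : [a, m, e, b].Nodup := by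
    clear * - hn; revert hn; revert m e a b; decide
  have nb : [b, m, e, a].Nodup := by
    clear * - hn; revert hn; revert m e a b; decide
  have na' : [e, a, m, b].Nodup := by
    clear * - hn; revert hn; revert m e a b; decide
  have nb' : [e, b, m, a].Nodup := by
    clear * - hn; revert hn; revert m e a b; decide
  have nab : [a, b, m, e].Nodup := by
    clear * - hn; revert hn; revert m e a b; decide
  have hme : m ≠ e := (nodup_ne ne).1
  have hma : m ≠ a := (nodup_ne na).1
  have hmb : m ≠ b := (nodup_ne nb).1
  have hea : e ≠ a := by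
    simp only [List.nodup_cons, List.mem_cons, List.not_mem_nil, or_false, not_or] at hn
    exact hn.2.1.1
  have heb : e ≠ b := by
    simp only [List.nodup_cons, List.mem_cons, List.not_mem_nil, or_false, not_or] at hn
    exact hn.2.1.2
  have hab : a ≠ b := by
    simp only [List.nodup_cons, List.mem_cons, List.not_mem_nil, or_false, not_or] at hn
    exact hn.2.2.1
  have hP' : ∀ i, A i (id i) = some (P i) := hB.hP
  have h := hB.of
  have re := row_main hB ne
  have ra := row_main hB na
  have rb := row_main hB nb
  have h1 : -P e m ≤ -P a m := hl.le a hma.symm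
  have h2 : -P e m ≤ -P b m := hl.le b hmb.symm
  have sa := slk_nonneg h hP' na'
  have sb := slk_nonneg h hP' nb'
  have sab := slk_nonneg h hP' nab
  have ta := mul_nonneg hC.la sa
  have tb := mul_nonneg hC.lb sb
  have tab := mul_nonneg hC.lab sab
  have small : ∀ x F, m ≠ x → A x m = some F → 2 + F m ≤ 13 / 20 ∧ fcl x F ≤ 9 / 25 :=
    fun x F hx hF => far_small hB hx hF
  have ecol : sx nue (P e e - 1) (-P e m) + sx nua (P a a - 1) (-P a m)
      + sx nub (P b b - 1) (-P b m) - kea * min (-P e m) (-P a m) - keb * min (-P e m) (-P b m)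
      - kab * min (-P a m) (-P b m) = Cval nue nua nub kea keb kab
      (P e e - 1) (P a a - 1) (P b b - 1) (-P e m) (-P a m) (-P b m) := by
    unfold Cval
    rw [min_eq_left h1, min_eq_left h2]
    ring
  unfold ColI
  rw [ecol]
  rcases he : A e m with _ | F
  · rcases ha : A a m with _ | F
    · rcases hb : A b m with _ | F
      · rw [rst_none id he, rst_none id ha, rst_none id hb]
        have := hC.none _ _ _ re ra rb h1 h2
        linarith
      · rw [rst_none id he, rst_none id ha, rst_some (s := id) hmb.symm hb]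
        have F' := farC_rst h hP' hb nb
        rw [slk_comm P b e m a, slk_comm P b a m e] at F'
        have := hC.fb _ _ _ _ _ _ _ _ _ _ re ra rb h1 h2 F' (own_rst h hP' hb hmb rfl)
          (small b F hmb hb).1 (small b F hmb hb).2 sb sab
        linarith
    · have hb : A b m = none := by
        rcases hb : A b m with _ | G
        · rfl
        · exact absurd (hO a b F G hma.symm hmb.symm ha hb) hab
      rw [rst_none id he, rst_some (s := id) hma.symm ha, rst_none id hb]
      have F' := farC_rst h hP' ha na
      rw [slk_comm P a e m b] at F'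
      have := hC.fa _ _ _ _ _ _ _ _ _ _ re ra rb h1 h2 F' (own_rst h hP' ha hma rfl)
        (small a F hma ha).1 (small a F hma ha).2 sa sab
      linarith
  · have ha : A a m = none := by
      rcases ha : A a m with _ | G
      · rfl
      · exact absurd (hO e a F G hme.symm hma.symm he ha) hea
    have hb : A b m = none := by
      rcases hb : A b m with _ | G
      · rfl
      · exact absurd (hO e b F G hme.symm hmb.symm he hb) heb
    rw [rst_some (s := id) hme.symm he, rst_none id ha, rst_none id hb]
    have := hC.low _ _ _ _ _ _ _ _ _ _ re ra rb h1 h2 (farC_rst h hP' he ne)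
      (own_rst h hP' he hme rfl) (small e F hme he).1 (small e F hme he).2 sa sb
    linarith

theorem gives_colR : Gives ColR :=
  fun A _ hB hO m _ _ _ hn hl _ _ _ _ _ _ _ _ _ _ hC =>
    colR_of (A := A) hB (fun x y F G => hO m x y F G) hn hl hC

end Pool.Agent.Helper78.TS
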