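import Pool.Agent.Helper78.TS.MTwo

/-!
# A column with any number of far cells

`multi` is the column inequality `ColI` for the classes `x, y, z` (with main cells of height less
than `3/5`) and the column `m`, with any number of far cells (with `w ≤ 13/20`) in the column. The
class `m` may be anything.
-/

set_option autoImplicit false

namespace Pool.Agent.Helper78.TS

open Pool.Agent.Helper84.TS Pool.Agent.Helper36.TS Pool.Agent.Helper23.TS Pool.Agent.Helper34.TS

/-- **All conditions of a column** with any number of far cells -/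
structure ColM (nx ny nz kxy kxz kyz Lxy Lxz Lyz W dx dy dz : ℝ) : Prop where
  t : ColT nx ny nz kxy kxz kyz Lxy Lxz Lyz W dx dy dz
  hxy : 0 ≤ kxy
  hxz : 0 ≤ kxz
  hyz : 0 ≤ kyz
  xy : Cd nx ny nz kxy kxz kyz Lxz dx dy dz W
  xz : Cd nx nz ny kxz kxy kyz Lxy dx dz dy W
  yx : Cd ny nx nz kxy kyz kxz Lyz dy dx dz W
  yz : Cd ny nz nx kyz kxy kxz Lxy dy dz dx W
  zx : Cd nz nx ny kxz kyz kxy Lyz dz dx dy W
  zy : Cd nz ny nx kyz kxz kxy Lxz dz dy dx W

section

variable {nx ny nz kxy kxz kyz Lxy Lxz Lyz W dx dy dz : ℝ}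

theorem ColM.swap12 (h : ColM nx ny nz kxy kxz kyz Lxy Lxz Lyz W dx dy dz) :
    ColM ny nx nz kxy kyz kxz Lxy Lyz Lxz W dy dx dz :=
  ⟨h.t.swap12, h.hxy, h.hyz, h.hxz, h.yx, h.yz, h.xy, h.xz, h.zy, h.zx⟩

theorem ColM.swap23 (h : ColM nx ny nz kxy kxz kyz Lxy Lxz Lyz W dx dy dz) :
    ColM nx nz ny kxz kxy kyz Lxz Lxy Lyz W dx dz dy :=
  ⟨h.t.swap23, h.hxz, h.hxy, h.hyz, h.xz, h.xy, h.zx, h.zy, h.yx, h.yz⟩

/-- two far cells, any order of the entries -/
theorem ColM.two (M : ColM nx ny nz kxy kxz kyz Lxy Lxz Lyz W dx dy dz) {ux uy uz : ℝ}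
    (rx : Row dx ux) (ry : Row dy uy) (rz : Row dz uz) {f w d al be g v e ga de sxy sxz syz : ℝ}
    (F : FarC f w d al be ux uy uz dx dy dz sxy sxz) (oF : w ≤ -ux + max (dx - d) 0)
    (w1 : w ≤ 13 / 20) (hf : f ≤ 9 / 25)
    (G : FarC g v e ga de uy ux uz dy dx dz sxy syz) (oG : v ≤ -uy + max (dy - e) 0)
    (v1 : v ≤ 13 / 20) (hg : g ≤ 9 / 25) (s1 : 0 ≤ sxy) (s2 : 0 ≤ sxz) (s3 : 0 ≤ syz)
    (R : 27 / 20 ≤ al + e ∨ 27 / 20 ≤ ga + d) :
    Tv nx ny nz kxy kxz kyz dx dy dz ux uy uz + f + g ≤ W + Lxy * sxy + Lxz * sxz + Lyz * syz := by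
  have hz := M.zx.hX
  rcases le_total uy ux with h | h
  · exact two_real M.t M.hxy M.hxz M.hyz M.yx hz rx ry rz F oF w1 hf G oG v1 hg s1 s2 s3 h R
  · have := two_real M.t.swap12 M.hxy M.hyz M.hxz M.xy (by linarith) ry rx rz G oG v1 hg F oF w1
      hf s1 s3 s2 h R.symm
    rw [Tv_swap12]
    linarith

/-- three far cells, any order of the entries -/
theorem ColM.three (M : ColM nx ny nz kxy kxz kyz Lxy Lxz Lyz W dx dy dz) {ux uy uz : ℝ}
    (rx : Row dx ux) (ry : Row dy uy) (rz : Row dz uz)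
    {f w d al be g v e ga de h p q ka la s1 s2 s3 s4 s5 s6 : ℝ}
    (F : FarC f w d al be ux uy uz dx dy dz s1 s2) (oF : w ≤ -ux + max (dx - d) 0)
    (w1 : w ≤ 13 / 20)
    (G : FarC g v e ga de uy ux uz dy dx dz s3 s4) (oG : v ≤ -uy + max (dy - e) 0)
    (v1 : v ≤ 13 / 20)
    (H : FarC h p q ka la uz ux uy dz dx dy s5 s6) (oH : p ≤ -uz + max (dz - q) 0)
    (p1 : p ≤ 13 / 20) (R1 : 7 / 20 ≤ d ∨ 7 / 20 ≤ e) (R2 : 7 / 20 ≤ d ∨ 7 / 20 ≤ q)
    (R3 : 7 / 20 ≤ e ∨ 7 / 20 ≤ q) :
    Tv nx ny nz kxy kxz kyz dx dy dz ux uy uz + f + g + h ≤ W := by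
  have FS := Pool.Agent.Helper19.TS.FarC_swap F
  have GS := Pool.Agent.Helper19.TS.FarC_swap G
  have HS := Pool.Agent.Helper19.TS.FarC_swap H
  -- `three_real` wants `uy ≤ ux ≤ uz`
  rcases le_total ux uy with h1 | h1 <;> rcases le_total uy uz with h2 | h2 <;>
    rcases le_total ux uz with h3 | h3
  · -- x ≤ y ≤ z
    have := three_real (nx := ny) (ny := nx) (nz := nz) M.hyz M.xy M.xz ry rx rz G oG v1 F oF w1
      HS oH p1 h1 h2 R1.symm R3 R2
    rw [Tv_swap12]
    linarith
  · -- x ≤ y ≤ z ≤ x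
    have := three_real (nx := ny) (ny := nx) (nz := nz) M.hyz M.xy M.xz ry rx rz G oG v1 F oF w1
      HS oH p1 h1 h2 R1.symm R3 R2
    rw [Tv_swap12]
    linarith
  · -- x ≤ z ≤ y
    have := three_real (nx := nz) (ny := nx) (nz := ny) M.hyz M.xz M.xy rz rx ry H oH p1 FS oF w1
      GS oG v1 h3 h2 R2.symm R3.symm R1
    rw [Tv_swap23, Tv_swap12]
    linarith
  · -- z ≤ x ≤ y
    have := three_real (nx := nx) (ny := nz) (nz := ny) M.hxy M.zx M.zy rx rz ry FS oF w1 H oH p1
      G oG v1 h3 h1 R2 R1 R3.symm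
    rw [Tv_swap23]
    linarith
  · -- y ≤ x ≤ z
    have := three_real (nx := nx) (ny := ny) (nz := nz) M.hxz M.yx M.yz rx ry rz F oF w1 G oG v1
      H oH p1 h1 h3 R1 R2 R3
    linarith
  · -- y ≤ z ≤ x
    have := three_real (nx := nz) (ny := ny) (nz := nx) M.hxz M.yz M.yx rz ry rx HS oH p1 GS oG v1
      FS oF w1 h2 h3 R3.symm R2.symm R1.symm
    rw [Tv_swap12, Tv_swap23, Tv_swap12]
    linarith
  · -- z ≤ y ≤ x
    have := three_real (nx := ny) (ny := nz) (nz := nx) M.hxy M.zy M.zx ry rz rx GS oG v1 HS oH p1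
      F oF w1 h2 h1 R3 R1.symm R2.symm
    rw [Tv_swap12, Tv_swap23]
    linarith
  · -- z ≤ y ≤ x
    have := three_real (nx := ny) (ny := nz) (nz := nx) M.hxy M.zy M.zx ry rz rx GS oG v1 HS oH p1
      F oF w1 h2 h1 R3 R1.symm R2.symm
    rw [Tv_swap12, Tv_swap23]
    linarith

end

/-! ### Families -/

section

variable {A : Fin 4 → Fin 4 → Option (Fin 4 → ℝ)} {P : Fin 4 → Fin 4 → ℝ}

theorem cap_loc (h : OF A) {i m x y : Fin 4} {F : Fin 4 → ℝ} (hF : A i m = some F)
    (hx : A x x = some (P x)) (hn : [i, m, x, y].Nodup) :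
    min (-P x m) (2 - (2 + F m)) ≤ (F y + (F i - 1)) + (P x x - 1) ∨
      (P i i - 1) - (F i - 1) + (min (-P x m) (2 - (2 + F m)) - min (-P i m) (-P x m)) ≤
        slk P i x m y := by
  have hix : i ≠ x := by
    simp only [List.nodup_cons, List.mem_cons, List.not_mem_nil, or_false, not_or] at hn
    exact hn.1.2.1
  have hcF := h.cell i m F hF
  have hcx := h.cell x x (P x) hx
  have hn' : [i, x, m, y].Nodup := by
    clear * - hn
    revert hn
    revert i m x y
    decide
  have hsep : Sep F (P x) := h.sep i m x x F (P x) hF hx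
    (fun e => hix (by rw [Prod.mk.injEq] at e; exact e.1))
  have h1 := (sep_min hcF hcx hn').1 hsep
  rw [show 2 - (2 + F m) = -F m by ring, min_comm (-P x m) (-F m)]
  rcases le_total (-F y) (-P x y) with h2 | h2
  · rw [min_eq_left h2] at h1
    left
    linarith
  · rw [min_eq_right h2] at h1
    right
    unfold slk
    have e1 := min_le_right (-P i y) (-P x y)
    linarith

/-- a far cell of the column `m` in real variables; the other two classes have main cells -/
theorem farC_loc (h : OF A) {i m x y : Fin 4} {F : Fin 4 → ℝ} (hF : A i m = some F)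
    (hx : A x x = some (P x)) (hy : A y y = some (P y)) (hn : [i, m, x, y].Nodup) :
    FarC (fcl i F) (2 + F m) (F i - 1) (F y + (F i - 1)) (F x + (F i - 1))
      (-P i m) (-P x m) (-P y m) (P i i - 1) (P x x - 1) (P y y - 1)
      (slk P i x m y) (slk P i y m x) := by
  have hmi : m ≠ i := (nodup_ne hn).1
  have hcell := h.cell i m F hF
  have hgt := h.far i m F hmi hF
  obtain ⟨b1, b2, b3, b4, b5, b6, b7, b8, b9⟩ := far_bounds hcell hn hgt.le
  have hf := far_formula hcell hn hgt.le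
  refine ⟨b1, by linarith, b3, b4, b5, b6, b7, b8, b9, ?_, cap_loc h hF hx hn,
    cap_loc h hF hy (nodup_swap34 hn)⟩
  rw [hf, show F i - 1 - (F y + (F i - 1)) = -F y by ring,
    show F i - 1 - (F x + (F i - 1)) = -F x by ring]

theorem slk_loc (h : OF A) {a b m n : Fin 4} (ha : A a a = some (P a)) (hb : A b b = some (P b))
    (hn : [a, b, m, n].Nodup) : 0 ≤ slk P a b m n := by
  have hab : a ≠ b := by
    simp only [List.nodup_cons, List.mem_cons, List.not_mem_nil, or_false, not_or] at hn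
    exact hn.1.1
  have hsep : Sep (P a) (P b) := h.sep a a b b (P a) (P b) ha hb
    (fun e => hab (by rw [Prod.mk.injEq] at e; exact e.1))
  have := (sep_min (h.cell a a _ ha) (h.cell b b _ hb) hn).1 hsep
  unfold slk
  linarith

theorem row_loc (h : OF A) {x m y z : Fin 4} (hx : A x x = some (P x)) (hd : P x x - 1 < 3 / 5)
    (hn : [x, m, y, z].Nodup) : Row (P x x - 1) (-P x m) := by
  obtain ⟨c1, c2, c3, c4, -⟩ := cell_lin (h.cell x x _ hx) hn
  exact ⟨by linarith, hd, by linarith, h.main x _ hx m (nodup_ne hn).1⟩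

theorem small_loc (h : OF A) {i m x y : Fin 4} {F : Fin 4 → ℝ} (hF : A i m = some F)
    (hn : [i, m, x, y].Nodup) (hw : 2 + F m ≤ 13 / 20) : fcl i F ≤ 9 / 25 := by
  have hmi : m ≠ i := (nodup_ne hn).1
  have hcell := h.cell i m F hF
  have hgt := h.far i m F hmi hF
  obtain ⟨w0, -⟩ := far_bounds hcell hn hgt.le
  have f3 := far_le hcell hn hgt.le
  have w1 : 0 ≤ 13 / 20 - (2 + F m) := by linarith
  generalize 2 + F m = w at *
  nlinarith [mul_nonneg w1 w0.le, mul_nonneg (mul_nonneg w1 w0.le) w0.le, mul_nonneg w1 w1]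

/-- three rows: the classes `x, y, z` have main cells of height less than `3/5`, and the far cells
of the column `m` have `w ≤ 13/20` -/
structure Rows3 (A : Fin 4 → Fin 4 → Option (Fin 4 → ℝ)) (P : Fin 4 → Fin 4 → ℝ)
    (m x y z : Fin 4) : Prop where
  of : OF A
  hn : [m, x, y, z].Nodup
  hx : A x x = some (P x)
  hy : A y y = some (P y)
  hz : A z z = some (P z)
  dx : P x x - 1 < 3 / 5
  dy : P y y - 1 < 3 / 5
  dz : P z z - 1 < 3 / 5
  sm : ∀ q F, q ≠ m → A q m = some F → 2 + F m ≤ 13 / 20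

theorem Rows3.swap12 {m x y z : Fin 4} (R : Rows3 A P m x y z) : Rows3 A P m y x z :=
  ⟨R.of, by have := R.hn; clear * - this; revert this; revert m x y z; decide, R.hy, R.hx, R.hz,
    R.dy, R.dx, R.dz, R.sm⟩

theorem Rows3.swap23 {m x y z : Fin 4} (R : Rows3 A P m x y z) : Rows3 A P m x z y :=
  ⟨R.of, by have := R.hn; clear * - this; revert this; revert m x y z; decide, R.hx, R.hz, R.hy,
    R.dx, R.dz, R.dy, R.sm⟩

theorem rows3_of_base (hB : Base A P) {m x y z : Fin 4} (hn : [m, x, y, z].Nodup) :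
    Rows3 A P m x y z :=
  ⟨hB.of, hn, hB.hP x, hB.hP y, hB.hP z, hB.hd x, hB.hd y, hB.hd z,
    fun q F hq hF => hB.hw q m F hq.symm hF⟩

variable {nx ny nz kxy kxz kyz Lxy Lxz Lyz W : ℝ}

section

variable {m x y z : Fin 4}

theorem Rows3.ndx (R : Rows3 A P m x y z) : [x, m, y, z].Nodup := by
  have := R.hn; clear * - this; revert this; revert m x y z; decide

theorem Rows3.ndy (R : Rows3 A P m x y z) : [y, m, x, z].Nodup := by
  have := R.hn; clear * - this; revert this; revert m x y z; decide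

theorem Rows3.ndz (R : Rows3 A P m x y z) : [z, m, x, y].Nodup := by
  have := R.hn; clear * - this; revert this; revert m x y z; decide

theorem Rows3.sxy (R : Rows3 A P m x y z) : 0 ≤ slk P x y m z :=
  slk_loc R.of R.hx R.hy (by have := R.hn; clear * - this; revert this; revert m x y z; decide)

theorem Rows3.sxz (R : Rows3 A P m x y z) : 0 ≤ slk P x z m y :=
  slk_loc R.of R.hx R.hz (by have := R.hn; clear * - this; revert this; revert m x y z; decide)

theorem Rows3.syz (R : Rows3 A P m x y z) : 0 ≤ slk P y z m x :=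
  slk_loc R.of R.hy R.hz (by have := R.hn; clear * - this; revert this; revert m x y z; decide)

theorem Rows3.rx (R : Rows3 A P m x y z) : Row (P x x - 1) (-P x m) := row_loc R.of R.hx R.dx R.ndx

theorem Rows3.ry (R : Rows3 A P m x y z) : Row (P y y - 1) (-P y m) := row_loc R.of R.hy R.dy R.ndy

theorem Rows3.rz (R : Rows3 A P m x y z) : Row (P z z - 1) (-P z m) := row_loc R.of R.hz R.dz R.ndz

theorem colI_Tv (h : Tv nx ny nz kxy kxz kyz (P x x - 1) (P y y - 1)
      (P z z - 1) (-P x m) (-P y m) (-P z m) + rst A id x m + rst A id y m + rst A id z m ≤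
      W + Lxy * slk P x y m z + Lxz * slk P x z m y + Lyz * slk P y z m x) :
    ColI A P m x y z nx ny nz kxy kxz kyz Lxy Lxz Lyz W := by
  unfold ColI
  unfold Tv at h
  linarith

/-- no far cell of the class `z` -/
theorem multi_aux (R : Rows3 A P m x y z)
    (M : ColM nx ny nz kxy kxz kyz Lxy Lxz Lyz W (P x x - 1) (P y y - 1) (P z z - 1))
    (hz0 : A z m = none) : ColI A P m x y z nx ny nz kxy kxz kyz Lxy Lxz Lyz W := by
  have h := R.of
  have s1 := R.sxy
  have s2 := R.sxz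
  have s3 := R.syz
  have q1 := mul_nonneg M.t.lxy s1
  have q2 := mul_nonneg M.t.lxz s2
  have q3 := mul_nonneg M.t.lyz s3
  have hmx : m ≠ x := (nodup_ne R.ndx).1
  have hmy : m ≠ y := (nodup_ne R.ndy).1
  apply colI_Tv
  rw [rst_none id hz0]
  rcases hX : A x m with _ | F
  · rcases hY : A y m with _ | G
    · rw [rst_none id hX, rst_none id hY]
      have := M.t.none _ _ _ R.rx R.ry R.rz
      linarith
    · rw [rst_none id hX, rst_some (s := id) hmy.symm hY]
      have G' := farC_loc h hY R.hx R.hz R.ndy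
      rw [slk_comm P y x m z] at G'
      have := M.t.fy _ _ _ _ _ _ _ _ _ _ R.rx R.ry R.rz G' (own_main h R.hy hY hmy)
        (R.sm y G hmy.symm hY) (small_loc h hY R.ndy (R.sm y G hmy.symm hY)) s1 s3
      linarith
  · have F' := farC_loc h hX R.hy R.hz R.ndx
    have w1 := R.sm x F hmx.symm hX
    rcases hY : A y m with _ | G
    · rw [rst_none id hY, rst_some (s := id) hmx.symm hX]
      have := M.t.fx _ _ _ _ _ _ _ _ _ _ R.rx R.ry R.rz F' (own_main h R.hx hX hmx)
        w1 (small_loc h hX R.ndx w1) s1 s2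
      linarith
    · rw [rst_some (s := id) hmx.symm hX, rst_some (s := id) hmy.symm hY]
      have G' := farC_loc h hY R.hx R.hz R.ndy
      have v1 := R.sm y G hmy.symm hY
      rw [slk_comm P y x m z] at G'
      have r1 := two_cap34 h hX hY R.ndx w1 v1
      have := M.two R.rx R.ry R.rz F' (own_main h R.hx hX hmx) w1 (small_loc h hX R.ndx w1)
        G' (own_main h R.hy hY hmy) v1 (small_loc h hY R.ndy v1) s1 s2 s3
        (by rcases r1 with r | r
            · left; linarith
            · right; linarith)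
      linarith

/-- the height of one of two far cells of a column -/
theorem height_two (h : OF A) {i m x y : Fin 4} {F G : Fin 4 → ℝ} (hF : A i m = some F)
    (hG : A x m = some G) (hn : [i, m, x, y].Nodup) (hn' : [x, m, i, y].Nodup)
    (hwF : 2 + F m ≤ 13 / 20) (hwG : 2 + G m ≤ 13 / 20) :
    7 / 20 ≤ F i - 1 ∨ 7 / 20 ≤ G x - 1 := by
  have r1 := two_cap34 h hF hG hn hwF hwG
  obtain ⟨-, -, -, -, -, b6, -⟩ := far_bounds (h.cell i m F hF) hn
    (h.far i m F (nodup_ne hn).1 hF).le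
  obtain ⟨-, -, -, -, a5, a6, -⟩ := far_bounds (h.cell x m G hG) hn'
    (h.far x m G (nodup_ne hn').1 hG).le
  obtain ⟨-, -, -, -, b5, -⟩ := far_bounds (h.cell i m F hF) hn
    (h.far i m F (nodup_ne hn).1 hF).le
  rcases r1 with r | r
  · right; linarith
  · left; linarith

/-- **A column with any number of far cells.** -/
theorem multi (R : Rows3 A P m x y z)
    (M : ColM nx ny nz kxy kxz kyz Lxy Lxz Lyz W (P x x - 1) (P y y - 1) (P z z - 1)) :
    ColI A P m x y z nx ny nz kxy kxz kyz Lxy Lxz Lyz W := by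
  rcases hZ : A z m with _ | H
  · exact multi_aux R M hZ
  rcases hY : A y m with _ | G
  · exact (multi_aux R.swap23 M.swap23 hY).swap23
  rcases hX : A x m with _ | F
  · have := multi_aux R.swap12.swap23 M.swap12.swap23 hX
    exact this.swap23.swap12
  have h := R.of
  have hmx : m ≠ x := (nodup_ne R.ndx).1
  have hmy : m ≠ y := (nodup_ne R.ndy).1
  have hmz : m ≠ z := (nodup_ne R.ndz).1
  have q1 := mul_nonneg M.t.lxy R.sxy
  have q2 := mul_nonneg M.t.lxz R.sxz
  have q3 := mul_nonneg M.t.lyz R.syz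
  have w1 := R.sm x F hmx.symm hX
  have v1 := R.sm y G hmy.symm hY
  have p1 := R.sm z H hmz.symm hZ
  have nzy : [z, m, y, x].Nodup := nodup_swap34 R.ndz
  have nxz : [x, m, z, y].Nodup := nodup_swap34 R.ndx
  have nyz : [y, m, z, x].Nodup := nodup_swap34 R.ndy
  apply colI_Tv
  rw [rst_some (s := id) hmx.symm hX, rst_some (s := id) hmy.symm hY,
    rst_some (s := id) hmz.symm hZ]
  have := M.three R.rx R.ry R.rz (farC_loc h hX R.hy R.hz R.ndx) (own_main h R.hx hX hmx) w1
    (farC_loc h hY R.hx R.hz R.ndy) (own_main h R.hy hY hmy) v1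
    (farC_loc h hZ R.hx R.hy R.ndz) (own_main h R.hz hZ hmz) p1
    (height_two h hX hY R.ndx R.ndy w1 v1) (height_two h hX hZ nxz R.ndz w1 p1)
    (height_two h hY hZ nyz nzy v1 p1)
  linarith

end

end

end Pool.Agent.Helper78.TS
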