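import Pool.Agent.Helper78.TS.Col2Real
import Pool.Agent.Helper78.TS.Multi

/-!
# The two-row column with the far cell of the low class
-/

set_option autoImplicit false

namespace Pool.Agent.Helper78.TS

open Pool.Agent.Helper84.TS Pool.Agent.Helper36.TS Pool.Agent.Helper74.TS Pool.Agent.Helper5.TS
  Pool.Agent.Helper34.TS

section

variable {A : Fin 4 → Fin 4 → Option (Fin 4 → ℝ)} {P : Fin 4 → Fin 4 → ℝ} {a z x y : Fin 4}

/-- a far cell of a row -/
theorem ownX_loc (h : OLB A P a) (hn : [a, z, x, y].Nodup) {F : Fin 4 → ℝ} (hF : A x z = some F) :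
    OwnX (fcl x F) (2 + F z) (1 - (F a + (F x - 1))) (1 - (F y + (F x - 1)))
      (P x x - 1) (P y y - 1) (-P x z) (-P y z) (slk P x y z a) := by
  have n := nodup_ne hn
  have hn1 : [x, z, y, a].Nodup := by
    clear * - hn; revert hn; revert a z x y; decide
  have hzx : z ≠ x := (nodup_ne hn1).1
  have hcell := h.of.cell x z F hF
  have hgt := h.of.far x z F hzx hF
  obtain ⟨b1, b2, b3, b4, b5, b6, b7, b8, b9⟩ := far_bounds hcell hn1 hgt.le
  have hf := far_formula hcell hn1 hgt.le
  have hs := cell_lin hcell hn1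
  have hw := h.hw x z F n.2.1 hzx hF
  have ho := own_main h.of (h.mn x n.2.1) hF hzx
  have hc := cap_loc h.of hF (h.mn y n.2.2) hn1
  have hcy := cell_lin (h.of.cell y y _ (h.mn y n.2.2))
    (show [y, z, x, a].Nodup by clear * - hn; revert hn; revert a z x y; decide)
  have hyz : z ≠ y := by
    clear * - hn; revert hn; revert a z x y; decide
  have hv1 := h.of.main y _ (h.mn y n.2.2) z hyz
  have e1 : 1 + (2 + F z) - (1 - (F a + (F x - 1))) - (1 - (F y + (F x - 1))) = F x - 1 := by
    linarith
  refine ⟨b1, hw, by linarith, by linarith, by linarith, by linarith, ?_, ?_, ?_⟩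
  · rw [hf, vl, show 2 + F z - (1 - (F a + (F x - 1))) = -F y by linarith,
      show 2 + F z - (1 - (F y + (F x - 1))) = -F a by linarith]
    ring
  · rw [e1]
    linarith
  · rw [e1]
    rw [min_eq_left (by linarith : -P y z ≤ 2 - (2 + F z))] at hc
    rcases hc with hc | hc
    · left
      linarith
    · right
      exact hc

private theorem nsw : ∀ {a z x y : Fin 4}, [a, z, x, y].Nodup → [a, z, y, x].Nodup := by decide

private theorem nxy : ∀ {a z x y : Fin 4}, [a, z, x, y].Nodup → [x, z, y, a].Nodup := by decide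

private theorem nrow : ∀ {a z x y : Fin 4}, [a, z, x, y].Nodup → [x, z, a, y].Nodup := by decide

private theorem nslk : ∀ {a z x y : Fin 4}, [a, z, x, y].Nodup → [x, y, z, a].Nodup := by decide

/-- the two rows -/
theorem olb_row (h : OLB A P a) (hn : [a, z, x, y].Nodup) : Row (P x x - 1) (-P x z) :=
  row_loc h.of (h.mn x (nodup_ne hn).2.1) (h.hd x (nodup_ne hn).2.1) (nrow hn)

theorem olb_slk (h : OLB A P a) (hn : [a, z, x, y].Nodup) : 0 ≤ slk P x y z a :=
  slk_loc h.of (h.mn x (nodup_ne hn).2.1) (h.mn y (nodup_ne hn).2.2) (nslk hn)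

/-- two own far cells -/
theorem own_two (h : OLB A P a) (hn : [a, z, x, y].Nodup) {F G : Fin 4 → ℝ}
    (hF : A x z = some F) (hG : A y z = some G) :
    1 - (F a + (F x - 1)) ≤ (G y - 1) - 7 / 20 ∨ 1 - (G a + (G y - 1)) ≤ (F x - 1) - 7 / 20 := by
  have n := nodup_ne hn
  have hxz : z ≠ x := (nodup_ne (nrow hn)).1
  have hyz : z ≠ y := (nodup_ne (nrow (nsw hn))).1
  have := two_cap34 h.of hF hG (nxy hn) (h.hw x z F n.2.1 hxz hF) (h.hw y z G n.2.2 hyz hG)
  rcases this with h | h
  · left
    linarith
  · right
    linarith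

/-- the height of a far cell from its three numbers -/
theorem own_d (h : OLB A P a) (hn : [a, z, x, y].Nodup) {F : Fin 4 → ℝ} (hF : A x z = some F) :
    1 + (2 + F z) - (1 - (F a + (F x - 1))) - (1 - (F y + (F x - 1))) = F x - 1 := by
  have := cell_lin (h.of.cell x z F hF) (nxy hn)
  linarith

/-- **The column without the cell of the low class.** -/
theorem colNone (h : OLB A P a) (hn : [a, z, x, y].Nodup) {nx ny k K W' : ℝ} {Q : ℝ → ℝ → Prop}
    (hQ : Q (-P x z) (-P y z)) (H : Col2 nx ny k K (P x x - 1) (P y y - 1) W' Q) :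
    cv A P a z x y nx ny k - fo a (A a z) ≤ W' + K * slk P x y z a := by
  have rx := olb_row h hn
  have ry := olb_row h (nsw hn)
  have hs := olb_slk h hn
  have es : slk P y x z a = slk P x y z a := slk_comm P y x z a
  have key : V2 nx ny k (P x x - 1) (P y y - 1) (-P x z) (-P y z) + fo x (A x z) + fo y (A y z) ≤
      W' + K * slk P x y z a := by
    rcases hX : A x z with _ | F
    · rcases hY : A y z with _ | G
      · have := H.bx.n _ _ rx ry hQ
        have := mul_nonneg H.K0 hs
        simp only [fo]
        linarith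
      · have O := ownX_loc h (nsw hn) hY
        rw [es] at O
        have := base_one H.sy H.k0 H.K0 H.uy H.by' O ry rx hQ hs
        rw [V2_swap] at this
        simp only [fo]
        linarith
    · have O := ownX_loc h hn hX
      rcases hY : A y z with _ | G
      · have := base_one H.sx H.k0 H.K0 H.ux H.bx O rx ry hQ hs
        simp only [fo]
        linarith
      · have O' := ownX_loc h (nsw hn) hY
        rw [es] at O'
        have dF := own_d h hn hX
        have dG := own_d h (nsw hn) hY
        simp only [fo]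
        rcases own_two h hn hX hY with T | T
        · have := base_two H.sx H.sy H.k0 H.K0 H.ux H.uy H.bx O O' rx ry hQ hs
            (by rw [dG]; exact T)
          linarith
        · have := base_two H.sy H.sx H.k0 H.K0 H.uy H.ux H.by' O' O ry rx hQ hs
            (by rw [dF]; exact T)
          rw [V2_swap] at this
          linarith
  unfold cv
  unfold V2 at key
  linarith

/-- the relation of the cell of the low class and a far cell of a row -/
theorem cell_rel (h : OLB A P a) (hn : [a, z, x, y].Nodup) {C F : Fin 4 → ℝ} (hC : A a z = some C)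
    (hF : A x z = some F) {w α β : ℝ} (hw : w = 2 + C z) (hα : α = 1 - (C y + (C a - 1)))
    (hβ : β = 1 - (C x + (C a - 1))) :
    α ≤ max w (2 + F z) + (1 + (2 + F z) - (1 - (F a + (F x - 1))) - (1 - (F y + (F x - 1)))) - 1 ∨
      1 - (F y + (F x - 1)) ≤ max w (2 + F z) + w - α - β := by
  have h1 := two_rst h.of hC hF hn
  have h2 := own_d h hn hF
  have h3 := cell_lin (h.of.cell a z C hC) hn
  rw [h2]
  rw [← hw] at h1
  have e1 : min (2 - w) (2 - (2 + F z)) = 2 - max w (2 + F z) := by
    rcases le_total w (2 + F z) with h | h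
    · rw [max_eq_right h, min_eq_right (by linarith)]
    · rw [max_eq_left h, min_eq_left (by linarith)]
  rw [e1] at h1
  rcases le_total (C y) (F y) with h4 | h4
  · rw [max_eq_right h4] at h1
    right
    linarith
  · rw [max_eq_left h4] at h1
    left
    linarith

/-- **The column with the cell of the low class** from its states (any height). -/
theorem colSt (h : OLB A P a) (hn : [a, z, x, y].Nodup) {nx ny k W : ℝ} {R : ℝ → ℝ → Prop}
    {C : Fin 4 → ℝ} {qx qy : Prop} {w α β φ : ℝ} (k0 : 0 ≤ k) (Sx : SideW (nx - k) (P x x - 1))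
    (Sy : SideW (ny - k) (P y y - 1)) (hR : R (-P x z) (-P y z)) (Ux : Ups R (P x x - 1))
    (Uy : Ups (fun v u => R u v) (P y y - 1)) (hC : A a z = some C) (hw : w = 2 + C z)
    (hα : α = 1 - (C y + (C a - 1))) (hβ : β = 1 - (C x + (C a - 1)))
    (kx : qx → -P x z ≤ (C y + (C a - 1)) + (P x x - 1))
    (ky : qy → -P y z ≤ (C x + (C a - 1)) + (P y y - 1))
    (S : St1W nx ny k (P x x - 1) (P y y - 1) W R qx qy w α β φ)
    (S' : St1W ny nx k (P y y - 1) (P x x - 1) W (fun v u => R u v) qy qx w β α φ) :
    cv A P a z x y nx ny k ≤ W + φ := by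
  have rx := olb_row h hn
  have ry := olb_row h (nsw hn)
  have es : slk P y x z a = slk P x y z a := slk_comm P y x z a
  have n := nodup_ne hn
  have hcell := h.of.cell a z C hC
  have hgt := h.of.far a z C n.1 hC
  obtain ⟨b1, b2, b3, b4, b5, b6, b7, b8, b9⟩ := far_bounds hcell hn hgt.le
  have hf := far_formula hcell hn hgt.le
  have hl := cell_lin hcell hn
  have hvol : fo a (A a z) = vl w α β := by
    rw [hC]
    simp only [fo]
    rw [hf, vl, hw, hα, hβ, show 2 + C z - (1 - (C y + (C a - 1))) = -C x by linarith,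
      show 2 + C z - (1 - (C x + (C a - 1))) = -C y by linarith]
    ring
  have w1 : w ≤ 1 := by rw [hw]; exact b2
  have hab1 : α + β ≤ 1 + w := by rw [hw, hα, hβ]; linarith
  have hx : qx → -P x z ≤ 1 - α + (P x x - 1) := by
    intro q
    have := kx q
    rw [hα]
    linarith
  have hy : qy → -P y z ≤ 1 - β + (P y y - 1) := by
    intro q
    have := ky q
    rw [hβ]
    linarith
  have key : V2 nx ny k (P x x - 1) (P y y - 1) (-P x z) (-P y z) + fo x (A x z) + fo y (A y z)
      + vl w α β ≤ W + φ := by
    rcases hX : A x z with _ | F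
    · rcases hY : A y z with _ | G
      · have := S.c _ _ rx ry hR hx hy
        simp only [fo]
        linarith
      · have O := ownX_loc h (nsw hn) hY
        have R1 := cell_rel h (nsw hn) hC hY hw hβ hα
        have := cell_one Sy k0 Uy S' w1 O ry rx hR hy hx R1
        rw [V2_swap, vl_comm] at this
        simp only [fo]
        linarith
    · have O := ownX_loc h hn hX
      have R1 := cell_rel h hn hC hX hw hα hβ
      rcases hY : A y z with _ | G
      · have := cell_one Sx k0 Ux S w1 O rx ry hR hx hy R1
        simp only [fo]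
        linarith
      · have O' := ownX_loc h (nsw hn) hY
        have R2 := cell_rel h (nsw hn) hC hY hw hβ hα
        have dF := own_d h hn hX
        have dG := own_d h (nsw hn) hY
        simp only [fo]
        rcases own_two h hn hX hY with T | T
        · have := cell_two Sx Sy k0 Ux Uy S S' w1 hab1 O O' rx ry hR hx hy R1 R2
            (by rw [dG]; exact T)
          linarith
        · have := cell_two Sy Sx k0 Uy Ux S' S w1 (by linarith) O' O ry rx hR hy hx R2 R1
            (by rw [dF]; exact T)
          rw [V2_swap, vl_comm] at this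
          linarith
  rw [← hvol] at key
  unfold cv
  unfold V2 at key
  linarith

/-- the numbers of the cell of the low class -/
theorem cell_num (h : OLB A P a) (hn : [a, z, x, y].Nodup) {C : Fin 4 → ℝ} (hC : A a z = some C)
    {w α β : ℝ} (hw : w = 2 + C z) (hα : α = 1 - (C y + (C a - 1)))
    (hβ : β = 1 - (C x + (C a - 1))) :
    fo a (A a z) = vl w α β ∧ 0 < w ∧ w ≤ 1 ∧ 0 ≤ α ∧ 0 ≤ β ∧ w ≤ α + β ∧ α + β ≤ 1 + w ∧
      C a - 1 = 1 + w - α - β := by
  have n := nodup_ne hn
  have hcell := h.of.cell a z C hC
  have hgt := h.of.far a z C n.1 hC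
  obtain ⟨b1, b2, b3, b4, b5, b6, b7, b8, b9⟩ := far_bounds hcell hn hgt.le
  have hf := far_formula hcell hn hgt.le
  have hl := cell_lin hcell hn
  refine ⟨?_, by rw [hw]; exact b1, by rw [hw]; exact b2, by rw [hα]; linarith,
    by rw [hβ]; linarith, by rw [hw, hα, hβ]; linarith, by rw [hw, hα, hβ]; linarith,
    by rw [hw, hα, hβ]; linarith⟩
  rw [hC]
  simp only [fo]
  rw [hf, vl, hw, hα, hβ, show 2 + C z - (1 - (C y + (C a - 1))) = -C x by linarith,
    show 2 + C z - (1 - (C x + (C a - 1))) = -C y by linarith]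
  ring

end

end Pool.Agent.Helper78.TS
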