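import Pool.Agent.Helper78.TS.TallAsm
import Pool.Agent.Helper83.TS.TallA0
import Pool.Agent.Helper83.TS.TallA1
import Pool.Agent.Helper36.TW.CAbcl
import Pool.Agent.Helper36.TW.CAcbl
import Pool.Agent.Helper36.TW.CAclb

/-!
# The column of the tall class, set A
-/

set_option autoImplicit false

namespace Pool.Agent.Helper78.TS

open Pool.Agent.Helper83.TS Pool.Agent.Helper36.TW

theorem tallColAA : TallColAA := fun _ _ _ h =>
  colM_tall TallA.k12_comm TallA.wa_comm (fun h => TallA.col0 h) (fun h => TallA.col1 h)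
    (fun h => A.cd_bcl h.x0 h.y0 h.z0 h.x1 h.y1 h.z1)
    (fun h => A.cd_cbl h.x0 h.y0 h.z0 h.x1 h.y1 h.z1)
    (fun h => A.cd_clb h.x0 h.y0 h.z0 h.x1 h.y1 h.z1) h

end Pool.Agent.Helper78.TS
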