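import Pool.Agent.Helper78.TS.TallAsm
import Pool.Agent.Helper83.TS.TallB0
import Pool.Agent.Helper83.TS.TallB1
import Pool.Agent.Helper36.TW.CBbcl
import Pool.Agent.Helper36.TW.CBcbl
import Pool.Agent.Helper36.TW.CBclb

/-!
# The column of the tall class, set B
-/

set_option autoImplicit false

namespace Pool.Agent.Helper78.TS

open Pool.Agent.Helper83.TS Pool.Agent.Helper36.TW

theorem tallColAB : TallColAB := fun _ _ _ h =>
  colM_tall TallB.k12_comm TallB.wa_comm (fun h => TallB.col0 h) (fun h => TallB.col1 h)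
    (fun h => B.cd_bcl h.x0 h.y0 h.z0 h.x1 h.y1 h.z1)
    (fun h => B.cd_cbl h.x0 h.y0 h.z0 h.x1 h.y1 h.z1)
    (fun h => B.cd_clb h.x0 h.y0 h.z0 h.x1 h.y1 h.z1) h

end Pool.Agent.Helper78.TS
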