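import Pool.Agent.Helper78.TS.TallGen
import Pool.Agent.Helper83.TS.TallAD
import Pool.Agent.Helper83.TS.TallBD

/-!
# `CaseOneTall` from its columns

`TallB A P a b F`: `a` the tall class, `F = (a; b)` with `w > 13/20`. Set A is used if `F` is of kind A
for `c` and for `l`, or if `f_F ≤ 1/10`; set B in the other cases. The classes in the order `b, c, l, a`.
-/

set_option autoImplicit false

namespace Pool.Agent.Helper78.TS

open Pool.Agent.Helper84.TS Pool.Agent.Helper36.TS Pool.Agent.Helper83.TS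

/-- kind A of `F = (a; b)` for the class `x` (`y` the fourth class): the cap -/
def TKA (P : Fin 4 → Fin 4 → ℝ) (a b x y : Fin 4) (F : Fin 4 → ℝ) : Prop :=
  -P x b ≤ (F y + (F a - 1)) + (P x x - 1)

/-- kind B: the cap is violated -/
structure TKB (P : Fin 4 → Fin 4 → ℝ) (a b x y : Fin 4) (F : Fin 4 → ℝ) : Prop where
  cap : (F y + (F a - 1)) + (P x x - 1) ≤ -P x b
  sum : -P x b + -P x y ≤ (F a - 1) + (P x x - 1)
  big : 1 - (F a - 1) ≤ -P x a

/-- the kinds of `F` for the class `x` -/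
theorem tk_cases {A : Fin 4 → Fin 4 → Option (Fin 4 → ℝ)} {P : Fin 4 → Fin 4 → ℝ}
    {a b x y : Fin 4} {F : Fin 4 → ℝ} (h : TallB A P a b F) (hn : [a, b, x, y].Nodup) :
    TKA P a b x y F ∨ TKB P a b x y F := by
  rcases le_total (-P x b) ((F y + (F a - 1)) + (P x x - 1)) with h1 | h1
  · exact Or.inl h1
  · rcases capAB (s := id) h.of h.hP h.hF hn rfl with h2 | h2
    · exact Or.inl h2
    · exact Or.inr ⟨h1, h2.1, h2.2⟩

/-! ### Set A -/

/-- the column `b`, set A -/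
def TallColBA : Prop := ∀ (A : Fin 4 → Fin 4 → Option (Fin 4 → ℝ)) (P : Fin 4 → Fin 4 → ℝ)
  (a b c l : Fin 4) (F : Fin 4 → ℝ), [a, b, c, l].Nodup → TallB A P a b F →
  ((TKA P a b c l F ∧ TKA P a b l c F) ∨ fcl a F ≤ 1 / 10) →
  ColI A P b c l a (TallA.n1 (P c c - 1)) (TallA.n1 (P l l - 1)) (TallA.n3 (P a a - 1))
    (TallA.k12 (P c c - 1) (P l l - 1)) 0 0 0 0 0
    (TallA.wb (P c c - 1) (P l l - 1) (P a a - 1))

/-- the column `m = c, l`, set A; `x` the other one of the two classes -/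
def TallColMA : Prop := ∀ (A : Fin 4 → Fin 4 → Option (Fin 4 → ℝ)) (P : Fin 4 → Fin 4 → ℝ)
  (a b m x : Fin 4) (F : Fin 4 → ℝ), [a, b, m, x].Nodup → TallB A P a b F →
  ColI A P m b x a (TallA.n0 (P b b - 1)) (TallA.n1 (P x x - 1)) (TallA.n3 (P a a - 1))
    (TallA.k01 (P b b - 1) (P x x - 1)) (TallA.q03 (P b b - 1) (P a a - 1)) 0
    (TallA.lm01 (P b b - 1) (P x x - 1)) 0 0
    (TallA.t3 (P a a - 1) + TallA.wm (P b b - 1) (P x x - 1) (P a a - 1))

/-- the column `a`, set A -/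
def TallColAA : Prop := ∀ x y z : ℝ, Bd x y z →
  ColM (TallA.n0 x) (TallA.n1 y) (TallA.n1 z) (TallA.k01 x y) (TallA.k01 x z) (TallA.k12 y z)
    (TallA.l01 x y) (TallA.l01 x z) (TallA.k12 y z) (TallA.wa x y z) x y z

/-- the total inequality, set A; `x, y, z, t` the heights of `b, c, l, a` -/
def TallTotA : Prop := ∀ x y z t : ℝ, Hts x y z t → 0 ≤ TallA.q03 x t ∧
  rowc (TallA.n0 x) x + rowc (TallA.n1 y) y + rowc (TallA.n1 z) z + rowc (TallA.n3 t) t
    + TallA.k01 x y * (x + y) + TallA.k01 x z * (x + z) + TallA.q03 x t * (x + t)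
    + TallA.k12 y z * (y + z)
    + (TallA.wb y z t + (TallA.t3 t + TallA.wm x z t) + (TallA.t3 t + TallA.wm x y t)
      + TallA.wa x y z) ≤ 613 / 200

/-! ### Set B -/

/-- the column `b`, set B, kinds (B, A) -/
def TallColB1 : Prop := ∀ (A : Fin 4 → Fin 4 → Option (Fin 4 → ℝ)) (P : Fin 4 → Fin 4 → ℝ)
  (a b c l : Fin 4) (F : Fin 4 → ℝ), [a, b, c, l].Nodup → TallB A P a b F →
  TKB P a b c l F → TKA P a b l c F → 1 / 10 < fcl a F →
  ColI A P b c l a (TallB.n1 (P c c - 1) - TallB.la (P c c - 1)) (TallB.n1 (P l l - 1))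
    (TallB.n3 (P a a - 1)) (TallB.k12 (P c c - 1) (P l l - 1)) 0 0 0 0 0
    (TallB.wb1 (P c c - 1) (P l l - 1) (P a a - 1) - TallB.la (P c c - 1) * (F a - 1))

/-- the column `b`, set B, kinds (B, B) -/
def TallColB2 : Prop := ∀ (A : Fin 4 → Fin 4 → Option (Fin 4 → ℝ)) (P : Fin 4 → Fin 4 → ℝ)
  (a b c l : Fin 4) (F : Fin 4 → ℝ), [a, b, c, l].Nodup → TallB A P a b F →
  TKB P a b c l F → TKB P a b l c F → 1 / 10 < fcl a F →
  ColI A P b c l a (TallB.n1 (P c c - 1) - TallB.la (P c c - 1))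
    (TallB.n1 (P l l - 1) - TallB.la (P l l - 1))
    (TallB.n3 (P a a - 1)) (TallB.k12 (P c c - 1) (P l l - 1)) 0 0 0 0 0
    (TallB.wb2 (P c c - 1) (P l l - 1) (P a a - 1) - TallB.la (P c c - 1) * (F a - 1)
      - TallB.la (P l l - 1) * (F a - 1))

/-- the column `m = c, l`, set B -/
def TallColMB : Prop := ∀ (A : Fin 4 → Fin 4 → Option (Fin 4 → ℝ)) (P : Fin 4 → Fin 4 → ℝ)
  (a b m x : Fin 4) (F : Fin 4 → ℝ), [a, b, m, x].Nodup → TallB A P a b F →
  ColI A P m b x a (TallB.n0 (P b b - 1)) (TallB.n1 (P x x - 1)) (TallB.n3 (P a a - 1))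
    (TallB.k01 (P b b - 1) (P x x - 1)) (TallB.q03 (P b b - 1) (P a a - 1)) 0
    (TallB.lm01 (P b b - 1) (P x x - 1)) 0 0
    (TallB.t3 (P a a - 1) + TallB.wm (P b b - 1) (P x x - 1) (P a a - 1))

/-- the column `m = c, l`, set B, the row `x` shifted -/
def TallColML : Prop := ∀ (A : Fin 4 → Fin 4 → Option (Fin 4 → ℝ)) (P : Fin 4 → Fin 4 → ℝ)
  (a b m x : Fin 4) (F : Fin 4 → ℝ), [a, b, m, x].Nodup → TallB A P a b F →
  TKB P a b x m F →
  ColI A P m b x a (TallB.n0 (P b b - 1)) (TallB.n1 (P x x - 1) - TallB.la (P x x - 1))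
    (TallB.n3 (P a a - 1))
    (TallB.k01 (P b b - 1) (P x x - 1)) (TallB.q03 (P b b - 1) (P a a - 1)) 0
    (TallB.lm01 (P b b - 1) (P x x - 1)) 0 0
    (TallB.t3 (P a a - 1) + TallB.wml (P b b - 1) (P x x - 1) (P a a - 1))

/-- the column `a`, set B -/
def TallColAB : Prop := ∀ x y z : ℝ, Bd x y z →
  ColM (TallB.n0 x) (TallB.n1 y) (TallB.n1 z) (TallB.k01 x y) (TallB.k01 x z) (TallB.k12 y z)
    (TallB.l01 x y) (TallB.l01 x z) (TallB.k12 y z) (TallB.wa x y z) x y z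

/-- the total inequalities, set B; `x, y, z, t` the heights of `b, c, l, a` -/
def TallTotB : Prop := ∀ x y z t : ℝ, Hts x y z t → 0 ≤ TallB.q03 x t ∧ 0 ≤ TallB.la y ∧
  rowc (TallB.n0 x) x + rowc (TallB.n1 y) y + rowc (TallB.n1 z) z + rowc (TallB.n3 t) t
    + TallB.k01 x y * (x + y) + TallB.k01 x z * (x + z) + TallB.q03 x t * (x + t)
    + TallB.k12 y z * (y + z) + TallB.la y * y
    + (TallB.wb1 y z t + (TallB.t3 t + TallB.wm x z t) + (TallB.t3 t + TallB.wml x y t)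
      + TallB.wa x y z) ≤ 613 / 200 ∧
  rowc (TallB.n0 x) x + rowc (TallB.n1 y) y + rowc (TallB.n1 z) z + rowc (TallB.n3 t) t
    + TallB.k01 x y * (x + y) + TallB.k01 x z * (x + z) + TallB.q03 x t * (x + t)
    + TallB.k12 y z * (y + z) + TallB.la y * y + TallB.la z * z
    + (TallB.wb2 y z t + (TallB.t3 t + TallB.wml x z t) + (TallB.t3 t + TallB.wml x y t)
      + TallB.wa x y z) ≤ 613 / 200

section

variable {A : Fin 4 → Fin 4 → Option (Fin 4 → ℝ)} {P : Fin 4 → Fin 4 → ℝ} {a b c l : Fin 4}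
  {F : Fin 4 → ℝ}

private theorem nd1 : ∀ {a b c l : Fin 4}, [a, b, c, l].Nodup → [b, c, l, a].Nodup := by decide

private theorem nd2 : ∀ {a b c l : Fin 4}, [a, b, c, l].Nodup → [a, b, l, c].Nodup := by decide

/-- set A -/
theorem tall_A (hB : TallColBA) (hM : TallColMA) (hA : TallColAA) (hT : TallTotA)
    (hn : [a, b, c, l].Nodup) (h : TallB A P a b F)
    (hk : (TKA P a b c l F ∧ TKA P a b l c F) ∨ fcl a F ≤ 1 / 10) :
    ∑ i, VV A i ≤ 613 / 200 := by
  have cb := hB A P a b c l F hn h hk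
  have cc := hM A P a b c l F hn h
  have cl := hM A P a b l c F (nd2 hn) h
  have ca := multi (h.rows3 hn) (hA _ _ _ (h.bd b c l))
  obtain ⟨q0, tot⟩ := hT _ _ _ _ (h.hts b c l a)
  refine asm4 h.of h.hP (nd1 hn) ?_ cb cc cl ca
  refine ⟨?_, ?_, ?_, ?_, ?_, ?_, ?_⟩
  · unfold TallA.l01
    linarith
  · unfold TallA.l01
    linarith
  · linarith
  · linarith
  · linarith
  · linarith
  · linarith

/-- set B, kinds (B, A) -/
theorem tall_B1 (hB : TallColB1) (hM : TallColMB) (hL : TallColML) (hA : TallColAB)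
    (hT : TallTotB) (hn : [a, b, c, l].Nodup) (h : TallB A P a b F)
    (k1 : TKB P a b c l F) (k2 : TKA P a b l c F) (hf : 1 / 10 < fcl a F) :
    ∑ i, VV A i ≤ 613 / 200 := by
  have cb := (hB A P a b c l F hn h k1 k2 hf).shift1
  have cc := hM A P a b c l F hn h
  have cl := (hL A P a b l c F (nd2 hn) h k1).shift2
  have ca := multi (h.rows3 hn) (hA _ _ _ (h.bd b c l))
  obtain ⟨q0, l0, tot, -⟩ := hT _ _ _ _ (h.hts b c l a)
  have ks := mul_le_mul_of_nonneg_left k1.sum l0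
  refine asm4 h.of h.hP (nd1 hn) ?_ cb cc cl ca
  refine ⟨?_, ?_, ?_, ?_, ?_, ?_, ?_⟩
  · unfold TallB.l01
    linarith
  · unfold TallB.l01
    linarith
  · linarith
  · linarith
  · linarith
  · linarith
  · linarith

/-- set B, kinds (B, B) -/
theorem tall_B2 (hB : TallColB2) (hL : TallColML) (hA : TallColAB)
    (hT : TallTotB) (hn : [a, b, c, l].Nodup) (h : TallB A P a b F)
    (k1 : TKB P a b c l F) (k2 : TKB P a b l c F) (hf : 1 / 10 < fcl a F) :
    ∑ i, VV A i ≤ 613 / 200 := by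
  have cb := (hB A P a b c l F hn h k1 k2 hf).shift1.shift2
  have cc := (hL A P a b c l F hn h k2).shift2
  have cl := (hL A P a b l c F (nd2 hn) h k1).shift2
  have ca := multi (h.rows3 hn) (hA _ _ _ (h.bd b c l))
  obtain ⟨q0, l0, -, tot⟩ := hT _ _ _ _ (h.hts b c l a)
  obtain ⟨-, l1, -, -⟩ := hT _ _ _ _ (h.hts b l c a)
  have ks := mul_le_mul_of_nonneg_left k1.sum l0
  have kt := mul_le_mul_of_nonneg_left k2.sum l1
  refine asm4 h.of h.hP (nd1 hn) ?_ cb cc cl ca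
  refine ⟨?_, ?_, ?_, ?_, ?_, ?_, ?_⟩
  · unfold TallB.l01
    linarith
  · unfold TallB.l01
    linarith
  · linarith
  · linarith
  · linarith
  · linarith
  · linarith

end

/-- **`CaseOneTall` from its columns** -/
theorem caseOneTall_cols (hBA : TallColBA) (hMA : TallColMA) (hAA : TallColAA) (hTA : TallTotA)
    (hB1 : TallColB1) (hB2 : TallColB2) (hMB : TallColMB) (hML : TallColML) (hAB : TallColAB)
    (hTB : TallTotB) : CaseOneTall := by
  refine caseOneTall_of fun A P a b c l F hn h => ?_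
  rcases le_or_gt (fcl a F) (1 / 10) with hf | hf
  · exact tall_A hBA hMA hAA hTA hn h (Or.inr hf)
  rcases tk_cases h hn with k1 | k1 <;> rcases tk_cases h (nd2 hn) with k2 | k2
  · exact tall_A hBA hMA hAA hTA hn h (Or.inl ⟨k1, k2⟩)
  · exact tall_B1 hB1 hMB hML hAB hTB (nd2 hn) h k2 k1 hf
  · exact tall_B1 hB1 hMB hML hAB hTB hn h k1 k2 hf
  · exact tall_B2 hB2 hML hAB hTB hn h k1 k2 hf

end Pool.Agent.Helper78.TS
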