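import Pool.Agent.Helper74.TS.ColLo
import Pool.Agent.Helper83.TS.T2311C1
import Pool.Agent.Helper83.TS.T2311C2
import Pool.Agent.Helper83.TS.T2311C3
import Pool.Agent.Helper83.TS.T2311C4
import Pool.Agent.Helper83.TS.T2311T

/-!
# The type `(2,3,1,1)`
-/

set_option autoImplicit false

namespace Pool.Agent.Helper78.TS

open Pool.Agent.Helper84.TS Pool.Agent.Helper36.TS Pool.Agent.Helper83.TS
  Pool.Agent.Helper83.TS.T2311

/-- the polynomial inequalities of a column give the column -/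
def Gcol : Prop := ∀ ne na nb ka kb K La Lb Lab W de da db : ℝ, Bd de da db →
  Col (ne - ka - kb) de na da nb db K La Lb Lab W → ColR ne na nb ka kb K La Lb Lab W de da db

theorem caseT2311_of_gcol (hR : Gcol) : CaseT2311 := by
  refine caseT2311_of gives_colR ?_
  intro d1 d2 d3 d4 h
  have b1 : Bd d2 d3 d4 := ⟨h.b0, h.c0, h.e0, h.b1.le, h.c1.le, h.e1.le⟩
  have b2 : Bd d3 d1 d4 := ⟨h.c0, h.a0, h.e0, h.c1.le, h.a1.le, h.e1.le⟩
  have b3 : Bd d1 d2 d4 := ⟨h.a0, h.b0, h.e0, h.a1.le, h.b1.le, h.e1.le⟩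
  have b4 : Bd d1 d2 d3 := ⟨h.a0, h.b0, h.c0, h.a1.le, h.b1.le, h.c1.le⟩
  refine ⟨n1 d1, n2 d2, n3 d3, n4 d4, k12 d1 d2, k13 d1 d3, k14 d1 d4, k23 d2 d3, k24 d2 d4,
    k34 d3 d4, w1 d2 d3 d4, w2 d1 d3 d4, w3 d1 d2 d4, w4 d1 d2 d3,
    l231 d2 d3, l241 d2 d4, l341 d3 d4, l132 d1 d3, l142 d1 d4, l342 d3 d4,
    l123 d1 d2, l143 d1 d4, l243 d2 d4, l124 d1 d2, l134 d1 d3, l234 d2 d3, ?_,
    hR _ _ _ _ _ _ _ _ _ _ _ _ _ b1 (col1 b1), hR _ _ _ _ _ _ _ _ _ _ _ _ _ b2 (col2 b2),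
    hR _ _ _ _ _ _ _ _ _ _ _ _ _ b3 (col3 b3), hR _ _ _ _ _ _ _ _ _ _ _ _ _ b4 (col4 b4)⟩
  exact ⟨by unfold l124; linarith, by unfold l134; linarith, by unfold l143; linarith,
    by unfold l234; linarith, by unfold l243; linarith, by unfold l342; linarith,
    tot h.a0 h.b0 h.c0 h.e0 h.a1.le h.b1.le h.c1.le h.e1.le⟩

theorem gcol : Gcol := fun _ _ _ _ _ _ _ _ _ _ _ _ _ _ h => Pool.Agent.Helper74.TS.colR_of_col h

/-- **The type `(2,3,1,1)`** -/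
theorem caseT2311 : CaseT2311 := caseT2311_of_gcol gcol

end Pool.Agent.Helper78.TS
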