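import Pool.Agent.Helper78.TS.MDefs
import Pool.Agent.Helper78.TS.Asm
import Pool.Agent.Helper34.TS.TwoFar
import Pool.Agent.Helper74.TS.Col0

/-!
# Several far cells in a column: real lemmas
-/

set_option autoImplicit false

namespace Pool.Agent.Helper78.TS

open Pool.Agent.Helper36.TS Pool.Agent.Helper83.TS Pool.Agent.Helper74.TS Pool.Agent.Helper34.TS

/-! ### Volumes -/

theorem fm_mono {w v : ℝ} (h0 : 0 ≤ w) (h : w ≤ v) (h1 : v ≤ 13 / 20) : fm w ≤ fm v := by
  unfold fm
  have a := sub_nonneg.2 h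
  have b := sub_nonneg.2 h1
  have c : 0 ≤ v := h0.trans h
  nlinarith [mul_nonneg a h0, mul_nonneg a c, mul_nonneg a (mul_nonneg c b),
    mul_nonneg a (mul_nonneg h0 b), mul_nonneg a (mul_nonneg h0 (b.trans (by linarith : 13 / 20 - v
      ≤ 13 / 20 - w)))]

theorem vm_mono {w v : ℝ} (h0 : 0 ≤ w) (h : w ≤ v) (h1 : v ≤ 13 / 20) : vm w ≤ vm v := by
  unfold vm
  have a := sub_nonneg.2 h
  have b := sub_nonneg.2 h1
  have c : 0 ≤ v := h0.trans h
  nlinarith [mul_nonneg a h0, mul_nonneg a c, mul_nonneg a (mul_nonneg c b),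
    mul_nonneg a (mul_nonneg h0 b), mul_nonneg a (mul_nonneg h0 (b.trans (by linarith : 13 / 20 - v
      ≤ 13 / 20 - w)))]

theorem fm_nonneg {w : ℝ} (h0 : 0 ≤ w) (h1 : w ≤ 13 / 20) : 0 ≤ fm w := by
  have := fm_mono le_rfl h0 h1
  have e : fm 0 = 0 := by simp [fm]
  linarith

/-- the volume of a far cell of height at least `7/20` -/
theorem vl_fm {w A B : ℝ} (w0 : 0 ≤ w) (w1 : w ≤ 13 / 20) (hA : 0 ≤ A) (hB : 0 ≤ B)
    (h1 : w ≤ A + B) (h2 : A + B ≤ 13 / 20 + w) : vl w A B ≤ fm w := by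
  have e1 := vl_mono_r (w := w) (A := A) (B := B) (B' := 13 / 20 + w - A) w0 hA hB h1
    (by linarith)
  have e2 := vl_mid34 (w := w) (A := A) (B := 13 / 20 + w - A) w0 hA (by linarith) (by linarith)
  rw [show A + (13 / 20 + w - A) = 13 / 20 + w by ring,
    max_eq_right (by linarith : w - (13 / 20 + w) / 2 ≤ 0)] at e2
  unfold fm
  linarith

/-- the same, with the smaller of `A`, `B` -/
theorem vl_65 {w A B : ℝ} (w0 : 0 ≤ w) (w1 : w ≤ 13 / 20) (hA : 0 ≤ A) (hB : 0 ≤ B)
    (h1 : w ≤ A + B) (h2 : A + B ≤ 13 / 20 + w) : vl w A B ≤ 13 / 20 * w * min A B := by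
  have key : ∀ A B : ℝ, 0 ≤ A → 0 ≤ B → w ≤ A + B → A + B ≤ 13 / 20 + w → B ≤ A →
      vl w A B ≤ 13 / 20 * w * B := by
    intro A B hA hB h1 h2 h
    have e1 := vl_mono_l (w := w) (A := A) (A' := 13 / 20 + w - B) (B := B) w0 hA hB h1
      (by linarith)
    refine e1.trans ?_
    rcases le_total w B with h3 | h3
    · rw [vl_b (by linarith) h3]
      nlinarith [mul_nonneg w0 (mul_nonneg hB (sub_nonneg.2 h3)), pow_nonneg w0 3]
    · have h4 : vl w (13 / 20 + w - B) B =
          w * (13 / 20 + w - B) * B - w ^ 3 / 3 + (w - B) ^ 3 / 3 := by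
        unfold vl
        rw [max_eq_right (by linarith : w - (13 / 20 + w - B) ≤ 0),
          max_eq_left (by linarith : 0 ≤ w - B)]
        ring
      rw [h4]
      nlinarith [pow_nonneg hB 3]
  rcases le_total A B with h | h
  · rw [min_eq_left h, vl_comm]
    exact key B A hB hA (by linarith) (by linarith) h
  · rw [min_eq_right h]
    exact key A B hA hB h1 h2 h

section

variable {f w d al be ui ux uy di dx dy s t : ℝ}

/-- the volume of a far cell of height at least `7/20` -/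
theorem farC_fm (F : FarC f w d al be ui ux uy di dx dy s t) (hw : w ≤ 13 / 20)
    (hd : 7 / 20 ≤ d) : f ≤ fm w := by
  obtain ⟨h1, h2, h3, h4, h5, h6⟩ := farC_vl F
  rw [h1]
  exact vl_fm F.w0.le hw h2.le h3.le h4.le (by linarith)

/-- the volume of any far cell -/
theorem farC_vm (F : FarC f w d al be ui ux uy di dx dy s t) (hw : w ≤ 13 / 20) :
    f ≤ vm w := by
  obtain ⟨h1, h2, h3, h4, h5, h6⟩ := farC_vl F
  rw [h1]
  exact vl_vm F.w0.le hw h2.le h3.le h4.le (by linarith)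

end

/-! ### The slot of a far class -/

/-- a row entry is raised to `7/20 + d` in place of its far cell of height at least `7/20` -/
theorem dropU {c d u w : ℝ} (r : Row d u) (hc : 1 / 4 ≤ c) (hc3 : 7 / 20 ≤ d → 1 / 3 ≤ c)
    (w0 : 0 ≤ w) (w1 : w ≤ 13 / 20) (hu : u ≤ -w + max (d - 7 / 20) 0) :
    sx c d u + fm w ≤ sx c d (7 / 20 + d) := by
  have d0 := r.d0
  have d1 := r.d1
  have lo := r.lo
  rw [sx_of_nonneg (u := 7 / 20 + d) (by linarith) (by linarith)]
  rcases le_total d (7 / 20) with h | h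
  · rw [max_eq_right (by linarith : d - 7 / 20 ≤ 0)] at hu
    have e := Pool.Agent.Helper19.TS.sx_mono_neg (c := c) (d := d) (u := u) (U := -w)
      (by linarith) lo (by linarith) (by linarith)
    have k1 : 0 ≤ (c - 1 / 4) * (7 / 20 + d + w) := mul_nonneg (by linarith) (by linarith)
    have k2 : 0 ≤ (7 / 20 + d) * (1 / 4 - (1 - d) * (7 / 20 + d) / 2) := by
      refine mul_nonneg (by linarith) ?_
      nlinarith [sq_nonneg (d - 13 / 40)]
    have k3 : 0 ≤ w * (1 / 4 + (1 - d) * w / 2 - (13 / 20 + w) ^ 2 / 4) := by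
      refine mul_nonneg w0 ?_
      nlinarith [mul_nonneg w0 (by linarith : 0 ≤ 7 / 20 - d), mul_nonneg w0
        (by linarith : 0 ≤ 13 / 20 - w)]
    unfold fm
    nlinarith
  · rw [max_eq_left (by linarith : 0 ≤ d - 7 / 20)] at hu
    have c3 := hc3 h
    have k1 : 0 ≤ (c - 1 / 3) * (7 / 10 + w) := mul_nonneg (by linarith) (by linarith)
    have k2 : 0 ≤ (7 / 10 + w) * (1 / 3 - (1 - d) * (2 * d) / 2 - 1 / 12) := by
      refine mul_nonneg (by linarith) ?_
      nlinarith [sq_nonneg (d - 1 / 2)]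
    have k3 : 0 ≤ (7 / 10 + w) * (w * (3 / 5 - d)) :=
      mul_nonneg (by linarith) (mul_nonneg w0 (by linarith))
    have k4 : 0 ≤ (7 / 10 + w) * (1 / 12 + w / 5) - w * (13 / 20 + w) ^ 2 / 4 := by
      nlinarith [mul_nonneg w0 (by linarith : 0 ≤ 13 / 20 - w),
        mul_nonneg (mul_nonneg w0 w0) (by linarith : 0 ≤ 13 / 20 - w)]
    rcases le_total (d - 7 / 20) w with h2 | h2
    · have e := Pool.Agent.Helper19.TS.sx_mono_neg (c := c) (d := d) (u := u)
        (U := -w + (d - 7 / 20)) (by linarith) lo hu (by linarith)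
      have k5 : (-(-w + (d - 7 / 20))) ^ 3 ≤ w ^ 3 :=
        pow_le_pow_left₀ (by linarith) (by linarith) 3
      unfold fm
      nlinarith
    · have e := Pool.Agent.Helper19.TS.sx_mono_pos (c := c) (d := d) (u := u)
        (U := -w + (d - 7 / 20)) (by linarith) lo hu (by linarith) (by linarith)
        (by nlinarith)
      unfold fm
      have k5 : 0 ≤ w ^ 3 := pow_nonneg w0 3
      nlinarith

/-- the part of a class with a far cell of height at least `7/20` is at most `hc c d 0` -/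
theorem hipart {c d u w : ℝ} (r : Row d u) (hc4 : 1 / 4 ≤ c) (hc3 : 7 / 20 ≤ d → 1 / 3 ≤ c)
    (w0 : 0 ≤ w) (w1 : w ≤ 13 / 20) (hu : u ≤ -w + max (d - 7 / 20) 0) :
    sx c d u + fm w ≤ hc c d 0 := by
  have d0 := r.d0
  have d1 := r.d1
  have lo := r.lo
  rcases le_total d (7 / 20) with h | h
  · rw [max_eq_right (by linarith : d - 7 / 20 ≤ 0)] at hu
    have e := Pool.Agent.Helper19.TS.sx_mono_neg (c := c) (d := d) (u := u) (U := -w)
      (by linarith) lo (by linarith) (by linarith)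
    have k1 : 0 ≤ (c - 1 / 4) * (d + w) := mul_nonneg (by linarith) (by linarith)
    have k2 : 0 ≤ d * (1 / 4 - (1 - d) * d / 2) := by
      refine mul_nonneg (by linarith) ?_
      nlinarith [sq_nonneg (d - 1 / 2)]
    have k3 : 0 ≤ w * (1 / 4 + (1 - d) * w / 2 - (13 / 20 + w) ^ 2 / 4) := by
      refine mul_nonneg w0 ?_
      nlinarith [mul_nonneg w0 (by linarith : 0 ≤ 7 / 20 - d), mul_nonneg w0
        (by linarith : 0 ≤ 13 / 20 - w)]
    unfold fm hc
    nlinarith
  · rw [max_eq_left (by linarith : 0 ≤ d - 7 / 20)] at hu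
    have c3 := hc3 h
    have k1 : 0 ≤ (c - 1 / 3) * (7 / 20 + w) := mul_nonneg (by linarith) (by linarith)
    have k2 : 0 ≤ (7 / 20 + w) * (1 / 3 - (1 - d) * (2 * d - 7 / 20) / 2 - 13 / 80) := by
      refine mul_nonneg (by linarith) ?_
      nlinarith [sq_nonneg (d - 47 / 80)]
    have k3 : 0 ≤ (7 / 20 + w) * (w * (3 / 5 - d)) :=
      mul_nonneg (by linarith) (mul_nonneg w0 (by linarith))
    have k4 : 0 ≤ (7 / 20 + w) * (13 / 80 + w / 5) - w * (13 / 20 + w) ^ 2 / 4 := by
      nlinarith [mul_nonneg w0 (by linarith : 0 ≤ 13 / 20 - w),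
        mul_nonneg (mul_nonneg w0 w0) (by linarith : 0 ≤ 13 / 20 - w)]
    rcases le_total (d - 7 / 20) w with h2 | h2
    · have e := Pool.Agent.Helper19.TS.sx_mono_neg (c := c) (d := d) (u := u)
        (U := -w + (d - 7 / 20)) (by linarith) lo hu (by linarith)
      have k5 : (-(-w + (d - 7 / 20))) ^ 3 ≤ w ^ 3 :=
        pow_le_pow_left₀ (by linarith) (by linarith) 3
      unfold fm hc
      nlinarith
    · have e := Pool.Agent.Helper19.TS.sx_mono_pos (c := c) (d := d) (u := u)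
        (U := -w + (d - 7 / 20)) (by linarith) lo hu (by linarith) (by linarith)
        (by nlinarith)
      unfold fm hc
      have k5 : 0 ≤ w ^ 3 := pow_nonneg w0 3
      nlinarith

/-- `hc` is convex in its third argument -/
theorem hc_conv {m d r R M : ℝ} (d0 : 0 ≤ d) (h0 : 0 ≤ r) (h1 : r ≤ R) (e0 : hc m d 0 ≤ M)
    (e1 : hc m d R ≤ M) : hc m d r ≤ M := by
  rcases eq_or_lt_of_le (h0.trans h1) with hR | hR
  · have : r = 0 := le_antisymm (by rw [hR]; exact h1) h0
    rw [this]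
    exact e0
  · have k1 : 0 ≤ (R - r) * (M - hc m d 0) := mul_nonneg (by linarith) (by linarith)
    have k2 : 0 ≤ r * (M - hc m d R) := mul_nonneg h0 (by linarith)
    have k3 : 0 ≤ R * (r * (R - r) * (11 / 20 + d / 2 - 1 / 20 + (r + R) / 4)) := by
      refine mul_nonneg hR.le (mul_nonneg (mul_nonneg h0 (by linarith)) (by linarith))
    have key : 0 ≤ R * (M - hc m d r) := by
      unfold hc at *
      nlinarith
    by_contra hcon
    have := mul_neg_of_pos_of_neg hR (by linarith : M - hc m d r < 0)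
    linarith

/-- the part of a class with its far cell -/
theorem lowpart {m d u w f R M : ℝ} (r : Row d u) (hm : d * (1 - d) ≤ m) (w0 : 0 ≤ w)
    (w1 : w ≤ 13 / 20) (hu : u ≤ d - w) (hf : f ≤ vm w) (hR : w ≤ R) (e0 : hc m d 0 ≤ M)
    (e1 : hc m d R ≤ M) : sx m d u + f ≤ M := by
  have d0 := r.d0
  have d1 := r.d1
  have hd2 := mul_nonneg d0 (by linarith : 0 ≤ 1 - d)
  have g1 := sx_mono (c := m) (d := d) (u := u) (b := d - w) (by linarith) (by linarith)
    r.lo r.hi hu (by nlinarith [mul_nonneg w0 (by linarith : 0 ≤ 1 - d)])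
  have g2 : sx m d (d - w) ≤ m * (d - w) - (1 - d) * (d - w) ^ 2 / 2 + w ^ 3 / 3 := by
    rw [sx_of_le (by linarith)]
    have : (max (-(d - w)) 0) ^ 3 ≤ w ^ 3 :=
      pow_le_pow_left₀ (le_max_right _ _) (max_le (by linarith) w0) 3
    linarith
  have g3 := hc_conv (m := m) (r := w) (R := R) (M := M) d0 w0 hR e0 e1
  unfold vm at hf
  unfold hc at g3
  linarith

/-- the entry of a class, negative part -/
theorem yt_le {X d u t : ℝ} (hX : 0 ≤ X) (lo : -(1 - d) ≤ u) (h : u ≤ -t) (ht : 0 ≤ t) :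
    sx X d u ≤ yt X d t := by
  have := Pool.Agent.Helper19.TS.sx_mono_neg (c := X) (d := d) (u := u) (U := -t) hX lo h
    (by linarith)
  unfold yt
  linarith

end Pool.Agent.Helper78.TS
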