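import Pool.Agent.Helper5.TS.AsmLow
import Pool.Agent.Helper78.TS.MReal

/-!
# The two-row column with the far cell of the low class: the list of the real states

The column `z` with the rows `x`, `y` (heights `X`, `Y`, entries `u`, `v`) and the far cell
`C = (a; z)` of the low class. `V2` is the value of the column without far cells. A far cell has
three real numbers: `w` (the base), `A = 1 - cap` on the first and `B = 1 - cap` on the second other
class, its height is `1 + w - A - B` and its volume `vl w A B`.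

`Q u v` is any condition on the two entries that stays true if an entry is raised to `0` or to the
height of its row (take `True` if nothing is needed).

* `SideW c X`: the condition under which a high far cell of a row is dropped, `c = nx - k`;
* `Side c X`: the same for the low far cells (as far as possible);
* `Base1`: the states without `C`, the row `x` may have a far cell of height less than `7/20`;
* `St1`: the states with `C`, height less than `11/20`, `φ` the gain, for a row with `Side`;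
* `St1W`: the same for a row with `SideW` only.

All lists are wanted for `(x, y)` and for `(y, x)`.
-/

set_option autoImplicit false

namespace Pool.Agent.Helper78.TS

open Pool.Agent.Helper84.TS Pool.Agent.Helper36.TS Pool.Agent.Helper74.TS Pool.Agent.Helper5.TS

/-- the value of a column with two rows -/
noncomputable def V2 (nx ny k X Y u v : ℝ) : ℝ := sx nx X u + sx ny Y v - k * min u v

theorem V2_swap (nx ny k X Y u v : ℝ) : V2 nx ny k X Y u v = V2 ny nx k Y X v u := by
  unfold V2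
  rw [min_comm]
  ring

/-- a high far cell of the row `x` is dropped, `c = nx - k` -/
def SideW (c X : ℝ) : Prop := 53 / 500 + 6 / 25 * X ≤ c

/-- a far cell of the row `x` is dropped, `c = nx - k` -/
structure Side (c X : ℝ) : Prop where
  u4 : 1 / 4 ≤ c
  u3 : 3 / 10 ≤ X → 1 / 3 ≤ c
  u2 : X ≤ 7 / 20 → (1 - X) ^ 2 / 4 + 169 / 1600 ≤ c

/-- the condition `Q` survives raising the first entry -/
structure Ups (Q : ℝ → ℝ → Prop) (X : ℝ) : Prop where
  top : ∀ u v, Q u v → u ≤ X → Q X v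
  zero : ∀ u v, Q u v → u ≤ 0 → Q 0 v

/-- **The states without the cell of the low class.** `s`-multiplier `K`. The far cell of `x` has
`A = 1 - cap on y`, `B = 1 - cap on a`. -/
structure Base1 (nx ny k K X Y W' : ℝ) (Q : ℝ → ℝ → Prop) : Prop where
  n : ∀ u v, Row X u → Row Y v → Q u v → V2 nx ny k X Y u v ≤ W'
  /-- kind A on `y` -/
  a : ∀ u v w A B, Row X u → Row Y v → Q u v → 0 < w → w ≤ 13 / 20 → 0 ≤ A → 0 ≤ B →
    w + 13 / 20 ≤ A + B → A + B ≤ 1 + w → u ≤ -w + max (X - (1 + w - A - B)) 0 →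
    v ≤ 1 - A + Y → V2 nx ny k X Y u v + vl w A B ≤ W'
  /-- kind B on `y` -/
  b : ∀ u v w A B, Row X u → Row Y v → Q u v → 0 < w → w ≤ 13 / 20 → 0 ≤ A → 0 ≤ B →
    w + 13 / 20 ≤ A + B → A + B ≤ 1 + w → u ≤ -w + max (X - (1 + w - A - B)) 0 →
    1 - A + Y ≤ v → 0 ≤ X - (1 + w - A - B) + (v - min u v) →
    V2 nx ny k X Y u v + vl w A B - K * (X - (1 + w - A - B) + (v - min u v)) ≤ W'

/-- the largest volume of a far cell of base `o` if one of its numbers is at most `t` -/
noncomputable def bn (o t : ℝ) : ℝ := o * t - (min o t) ^ 3 / 3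

/-- **The states with the cell `C = (w, A, B)` of the low class**, `A = 1 - cap on x`,
`B = 1 - cap on y`, height `1 + w - A - B` less than `11/20`, gain `φ`. `qx`, `qy`: `C` is of kind A on
`x`, on `y`. `o`, `p` the bases of the far cells of `x`, `y`. -/
structure St1 (nx ny k X Y W : ℝ) (Q : ℝ → ℝ → Prop) (qx qy : Prop) (w A B φ : ℝ) : Prop where
  c : ∀ u v, Row X u → Row Y v → Q u v → (qx → u ≤ 1 - A + X) → (qy → v ≤ 1 - B + Y) →
    V2 nx ny k X Y u v + vl w A B ≤ W + φ
  /-- a far cell of `x`, its cap on the low class is high -/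
  x : ∀ u v o, Row X u → Row Y v → Q u v → (qx → u ≤ 1 - A + X) → (qy → v ≤ 1 - B + Y) →
    0 < o → o ≤ 13 / 20 → u ≤ X - o → 0 ≤ max w o + w - A - B →
    V2 nx ny k X Y u v + bn o (max w o + w - A - B) + vl w A B ≤ W + φ
  /-- a low far cell of `x` of height `d`, the cap of `C` on `x` is high -/
  r : ∀ u v o d, Row X u → Row Y v → Q u v → (qx → u ≤ 1 - A + X) → (qy → v ≤ 1 - B + Y) →
    0 < o → o ≤ 13 / 20 → 0 ≤ d → d ≤ 3 / 10 → d ≤ X → A ≤ w + d - 1 → u ≤ X - d - o →
    V2 nx ny k X Y u v + (o * (1 + o - d) ^ 2 / 4 - o ^ 3 / 3) + vl w A B ≤ W + φ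
  /-- far cells of `x` and `y`, as in `x` -/
  xy : qy → 1 < B → ∀ u v o p, Row X u → Row Y v → Q u v → (qx → u ≤ 1 - A + X) →
    v ≤ 1 - B + Y → 0 < o → o ≤ 13 / 20 → u ≤ X - o → 0 ≤ max w o + w - A - B →
    0 < p → p ≤ 13 / 20 → v ≤ Y - p → 0 ≤ max w p + w - A - B →
    V2 nx ny k X Y u v + 13 / 20 * o * (max w o + w - A - B) + bn p (max w p + w - A - B)
      + vl w A B ≤ W + φ
  /-- far cells of `x` and `y`, as in `r` -/
  xr : qy → 1 < B → ∀ u v o d p, Row X u → Row Y v → Q u v → (qx → u ≤ 1 - A + X) →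
    v ≤ 1 - B + Y → 0 < o → o ≤ 13 / 20 → 0 ≤ d → d ≤ 3 / 10 → d ≤ X → A ≤ w + d - 1 →
    u ≤ X - d - o → 0 < p → p ≤ 13 / 20 → v ≤ Y - p → 0 ≤ 2 * w - A - B →
    V2 nx ny k X Y u v + (o * (1 + o - d) ^ 2 / 4 - o ^ 3 / 3) + bn p (2 * w - A - B)
      + vl w A B ≤ W + φ

/-- **The same for a row `x` with `SideW` only**: all the far cells of `x` of height at most `7/20`
in the field `r`. -/
structure St1W (nx ny k X Y W : ℝ) (Q : ℝ → ℝ → Prop) (qx qy : Prop) (w A B φ : ℝ) : Prop where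
  c : ∀ u v, Row X u → Row Y v → Q u v → (qx → u ≤ 1 - A + X) → (qy → v ≤ 1 - B + Y) →
    V2 nx ny k X Y u v + vl w A B ≤ W + φ
  /-- a far cell of `x`, its cap on the low class is high -/
  x : ∀ u v o, Row X u → Row Y v → Q u v → (qx → u ≤ 1 - A + X) → (qy → v ≤ 1 - B + Y) →
    0 < o → o ≤ 13 / 20 → u ≤ X - o → 0 ≤ max w o + w - A - B →
    V2 nx ny k X Y u v + bn o (max w o + w - A - B) + vl w A B ≤ W + φ
  /-- a far cell of `x` of height `d`, the cap of `C` on `x` is high -/
  r : ∀ u v o d, Row X u → Row Y v → Q u v → (qx → u ≤ 1 - A + X) → (qy → v ≤ 1 - B + Y) →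
    0 < o → o ≤ 13 / 20 → 0 ≤ d → d ≤ 7 / 20 → A ≤ max w o + d - 1 →
    u ≤ -o + max (X - d) 0 →
    V2 nx ny k X Y u v + (o * (1 + o - d) ^ 2 / 4 - o ^ 3 / 3) + vl w A B ≤ W + φ
  /-- far cells of `x` and `y`, as in `x` -/
  xy : qy → 1 < B → ∀ u v o p, Row X u → Row Y v → Q u v → (qx → u ≤ 1 - A + X) →
    v ≤ 1 - B + Y → 0 < o → o ≤ 13 / 20 → u ≤ X - o → 0 ≤ max w o + w - A - B →
    0 < p → p ≤ 13 / 20 → v ≤ Y - p → 0 ≤ max w p + w - A - B →
    V2 nx ny k X Y u v + 13 / 20 * o * (max w o + w - A - B) + bn p (max w p + w - A - B)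
      + vl w A B ≤ W + φ
  /-- far cells of `x` and `y`, as in `r` -/
  xr : qy → 1 < B → ∀ u v o d p, Row X u → Row Y v → Q u v → (qx → u ≤ 1 - A + X) →
    v ≤ 1 - B + Y → 0 < o → o ≤ 13 / 20 → 0 ≤ d → d ≤ 7 / 20 → A ≤ max w o + d - 1 →
    u ≤ -o + max (X - d) 0 → 0 < p → p ≤ 13 / 20 → v ≤ Y - p → 0 ≤ max w p + w - A - B →
    V2 nx ny k X Y u v + (o * (1 + o - d) ^ 2 / 4 - o ^ 3 / 3) + bn p (max w p + w - A - B)
      + vl w A B ≤ W + φ

/-- **All the data of a column**: the multipliers `nx ny k`, the share `K`, the bound `W'`. -/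
structure Col2 (nx ny k K X Y W' : ℝ) (Q : ℝ → ℝ → Prop) : Prop where
  k0 : 0 ≤ k
  K0 : 0 ≤ K
  sx : SideW (nx - k) X
  sy : SideW (ny - k) Y
  ux : Ups Q X
  uy : Ups (fun v u => Q u v) Y
  bx : Base1 nx ny k K X Y W' Q
  by' : Base1 ny nx k K Y X W' (fun v u => Q u v)

end Pool.Agent.Helper78.TS
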