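import Pool.Agent.Helper78.TS.Col2Def

/-!
# The two-row column: the reductions, in real variables
-/

set_option autoImplicit false

namespace Pool.Agent.Helper78.TS

open Pool.Agent.Helper84.TS Pool.Agent.Helper36.TS Pool.Agent.Helper74.TS Pool.Agent.Helper34.TS

/-! ### Volumes -/

/-- the volume is at most the base times the second number -/
theorem vl_le_w {w A B : ℝ} (w0 : 0 ≤ w) (hA : 0 ≤ A) (hB : 0 ≤ B)
    (h1 : w ≤ A + B) (h2 : A + B ≤ 1 + w) : vl w A B ≤ w * B := by
  have key : ∀ A B : ℝ, 0 ≤ A → 0 ≤ B → w ≤ A + B → A + B ≤ 1 + w → B ≤ A →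
      vl w A B ≤ w * B := by
    intro A B hA hB h1 h2 h
    have e1 := vl_mono_l (w := w) (A := A) (A' := 1 + w - B) (B := B) w0 hA hB h1
      (by linarith)
    refine e1.trans ?_
    rcases le_total w B with h3 | h3
    · have h4 : vl w (1 + w - B) B =
          w * (1 + w - B) * B - w ^ 3 / 3 + (max (w - (1 + w - B)) 0) ^ 3 / 3 := by
        unfold vl
        rw [max_eq_right (by linarith : w - B ≤ 0)]
        ring
      rw [h4]
      have h5 : (max (w - (1 + w - B)) 0) ^ 3 ≤ w ^ 3 :=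
        pow_le_pow_left₀ (le_max_right _ _) (max_le (by linarith) w0) 3
      nlinarith [mul_nonneg w0 (mul_nonneg hB (sub_nonneg.2 h3))]
    · rcases le_total B 1 with h6 | h6
      · have h4 : vl w (1 + w - B) B =
            w * (1 + w - B) * B - w ^ 3 / 3 + (w - B) ^ 3 / 3 := by
          unfold vl
          rw [max_eq_right (by linarith : w - (1 + w - B) ≤ 0),
            max_eq_left (by linarith : 0 ≤ w - B)]
          ring
        rw [h4]
        nlinarith [pow_nonneg hB 3]
      · have h4 : vl w (1 + w - B) B =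
            w * (1 + w - B) * B - w ^ 3 / 3 + ((B - 1) ^ 3 + (w - B) ^ 3) / 3 := by
          unfold vl
          rw [max_eq_left (by linarith : 0 ≤ w - (1 + w - B)),
            max_eq_left (by linarith : 0 ≤ w - B)]
          ring
        rw [h4]
        nlinarith [pow_nonneg hB 3, pow_le_pow_left₀ (by linarith : 0 ≤ B - 1)
          (by linarith : B - 1 ≤ B) 3]
  rcases le_total A B with h | h
  · rw [vl_comm]
    exact (key B A hB hA (by linarith) (by linarith) h).trans (mul_le_mul_of_nonneg_left h w0)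
  · exact key A B hA hB h1 h2 h

theorem bn_mono {o s t : ℝ} (o0 : 0 ≤ o) (o1 : o ≤ 1) (hs : 0 ≤ s) (h : s ≤ t) :
    bn o s ≤ bn o t := by
  unfold bn
  rcases le_total o s with h1 | h1
  · rw [min_eq_left h1, min_eq_left (h1.trans h)]
    have := mul_le_mul_of_nonneg_left h o0
    linarith
  · rw [min_eq_right h1]
    rcases le_total o t with h2 | h2
    · rw [min_eq_left h2]
      have k1 : 0 ≤ o * (t - o) := mul_nonneg o0 (by linarith)
      have k2 : 0 ≤ (o - s) * (3 * o - o ^ 2 - o * s - s ^ 2) := by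
        refine mul_nonneg (by linarith) ?_
        nlinarith [mul_nonneg o0 (by linarith : 0 ≤ 1 - o), mul_nonneg o0 (by linarith : 0 ≤ o - s),
          mul_nonneg hs (by linarith : 0 ≤ o - s)]
      nlinarith
    · rw [min_eq_right h2]
      have k2 : 0 ≤ (t - s) * (3 * o - t ^ 2 - t * s - s ^ 2) := by
        refine mul_nonneg (by linarith) ?_
        nlinarith [mul_nonneg o0 (by linarith : 0 ≤ 1 - o), mul_nonneg o0 (by linarith : 0 ≤ o - t),
          mul_nonneg (by linarith : 0 ≤ t) (by linarith : 0 ≤ o - t),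
          mul_nonneg hs (by linarith : 0 ≤ t - s), mul_nonneg hs (by linarith : 0 ≤ o - s),
          mul_nonneg o0 (by linarith : 0 ≤ o - s)]
      nlinarith

/-- the volume if one of the two numbers is at most `t` -/
theorem vl_bn {w A B t : ℝ} (w0 : 0 ≤ w) (w1 : w ≤ 1) (hA : 0 ≤ A) (hB : 0 ≤ B)
    (h1 : w ≤ A + B) (h2 : A + B ≤ 1 + w) (ht : B ≤ t) : vl w A B ≤ bn w t := by
  have key : ∀ A B : ℝ, 0 ≤ A → 0 ≤ B → w ≤ A + B → A + B ≤ 1 + w → B ≤ A →
      vl w A B ≤ bn w B := by
    intro A B hA hB h1 h2 h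
    have e1 := vl_mono_l (w := w) (A := A) (A' := 1 + w - B) (B := B) w0 hA hB h1
      (by linarith)
    refine e1.trans ?_
    unfold bn
    rcases le_total w B with h3 | h3
    · have hB1 : B ≤ 1 := by linarith
      have h4 : vl w (1 + w - B) B =
          w * (1 + w - B) * B - w ^ 3 / 3 := by
        unfold vl
        rw [max_eq_right (by linarith : w - B ≤ 0), max_eq_right (by linarith : w - (1 + w - B) ≤ 0)]
        ring
      rw [h4, min_eq_left h3]
      nlinarith [mul_nonneg w0 (mul_nonneg hB (sub_nonneg.2 h3))]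
    · have h4 : vl w (1 + w - B) B =
          w * (1 + w - B) * B - w ^ 3 / 3 + (w - B) ^ 3 / 3 := by
        unfold vl
        rw [max_eq_right (by linarith : w - (1 + w - B) ≤ 0),
          max_eq_left (by linarith : 0 ≤ w - B)]
        ring
      rw [h4, min_eq_right h3]
      nlinarith [pow_nonneg hB 3]
  rcases le_total A B with h | h
  · rw [vl_comm]
    exact (key B A hB hA (by linarith) (by linarith) h).trans (bn_mono w0 w1 hA (h.trans ht))
  · exact (key A B hA hB h1 h2 h).trans (bn_mono w0 w1 hB ht)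

/-- the volume of a low far cell with base at most `13/20` -/
theorem vl_low {w A B S : ℝ} (w0 : 0 ≤ w) (w1 : w ≤ 13 / 20) (hA : 0 ≤ A) (hB : 0 ≤ B)
    (h1 : w + 13 / 20 ≤ A + B) (h2 : A + B ≤ S) :
    vl w A B ≤ w * S ^ 2 / 4 - w ^ 3 / 3 := by
  have e := vl_mid34 (w := w) (A := A) (B := B) w0 hA hB (by linarith)
  rw [max_eq_right (by linarith : w - (A + B) / 2 ≤ 0)] at e
  have e2 : (A + B) ^ 2 ≤ S ^ 2 := pow_le_pow_left₀ (by linarith) h2 2
  have e3 := mul_le_mul_of_nonneg_left e2 w0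
  nlinarith

/-! ### Own far cells -/

/-- a far cell of the row `x` with the volume `f`: `A = 1 - cap on y`, `B = 1 - cap on a`; `s` the
slack of the pair -/
structure OwnX (f w A B X Y u v s : ℝ) : Prop where
  w0 : 0 < w
  w1 : w ≤ 13 / 20
  A0 : 0 ≤ A
  B0 : 0 ≤ B
  lo : w ≤ A + B
  hi : A + B ≤ 1 + w
  vol : f = vl w A B
  own : u ≤ -w + max (X - (1 + w - A - B)) 0
  kind : v ≤ 1 - A + Y ∨ X - (1 + w - A - B) + (v - min u v) ≤ s

section

variable {nx ny k K X Y W W' u v f w A B s θ : ℝ}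

/-- an entry is raised -/
theorem v2_raise (k0 : 0 ≤ k) (h : u ≤ θ) (g : sx (nx - k) X u + f ≤ sx (nx - k) X θ) :
    V2 nx ny k X Y u v + f ≤ V2 nx ny k X Y θ v := by
  have hm : min θ v - min u v ≤ θ - u := by
    rcases le_total u v with h' | h'
    · rw [min_eq_left h']
      have := min_le_left θ v
      linarith
    · rw [min_eq_right h', min_eq_right (h'.trans h)]
      linarith
  have hm' := mul_le_mul_of_nonneg_left hm k0
  rw [sx_sub, sx_sub] at g
  unfold V2
  nlinarith

theorem OwnX.le (O : OwnX f w A B X Y u v s) (r : Row X u) : u ≤ X - w := by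
  have h1 := O.own
  have h2 := O.hi
  have h3 := r.d0
  rcases max_cases (X - (1 + w - A - B)) 0 with ⟨h, -⟩ | ⟨h, -⟩ <;> rw [h] at h1 <;> linarith

private theorem hw1 {X o : ℝ} (X0 : 0 ≤ X) (X1 : X ≤ 7 / 20) (o0 : 0 ≤ o) (o1 : o ≤ 13 / 20) :
    0 ≤ (53 / 500 + 6 / 25 * X) * (X + o) + (1 - X) * (o ^ 2 - X ^ 2) / 2
      - o * (13 / 20 + o) ^ 2 / 4 := by
  have a := sub_nonneg.2 X1
  have b := sub_nonneg.2 o1
  nlinarith [mul_nonneg X0 a, mul_nonneg o0 b, mul_nonneg X0 o0, mul_nonneg X0 b, mul_nonneg a o0,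
    mul_nonneg (mul_nonneg X0 a) o0, mul_nonneg (mul_nonneg o0 b) X0, mul_nonneg (mul_nonneg o0 b) a,
    mul_nonneg (mul_nonneg o0 b) o0, mul_nonneg (mul_nonneg o0 b) b, mul_nonneg (mul_nonneg X0 a) X0,
    mul_nonneg (mul_nonneg X0 a) a, mul_nonneg (mul_nonneg X0 a) b, sq_nonneg (X - o)]

private theorem hw2 {X o : ℝ} (X0 : 7 / 20 ≤ X) (X1 : X ≤ 3 / 5) (o0 : 0 ≤ o)
    (o1 : o ≤ X - 7 / 20) :
    0 ≤ (o + 7 / 20) * (53 / 500 + 6 / 25 * X - (1 - X) * (2 * X - 7 / 20 - o) / 2)
      - o * (13 / 20 + o) ^ 2 / 4 + o ^ 3 / 3 := by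
  have a := sub_nonneg.2 X0
  have a' := sub_nonneg.2 X1
  have b := sub_nonneg.2 o1
  nlinarith [mul_nonneg a a', mul_nonneg o0 b, mul_nonneg a o0, mul_nonneg a b, mul_nonneg a' o0,
    mul_nonneg (mul_nonneg a a') o0, mul_nonneg (mul_nonneg o0 b) a, mul_nonneg (mul_nonneg o0 b) a',
    mul_nonneg (mul_nonneg o0 b) o0, mul_nonneg (mul_nonneg o0 b) b, mul_nonneg (mul_nonneg a a') a,
    mul_nonneg (mul_nonneg a a') a', mul_nonneg (mul_nonneg a a') b]

private theorem hw3 {X o : ℝ} (X0 : 7 / 20 ≤ X) (X1 : X ≤ 3 / 5) (o0 : X - 7 / 20 ≤ o)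
    (o1 : o ≤ 13 / 20) :
    0 ≤ (53 / 500 + 6 / 25 * X) * (o + 7 / 20)
      - (1 - X) * (X ^ 2 - (o - (X - 7 / 20)) ^ 2) / 2 - (o - (X - 7 / 20)) ^ 3 / 3
      - (o * (13 / 20 + o) ^ 2 / 4 - o ^ 3 / 3) := by
  have g0 := hw2 X0 X1 (sub_nonneg.2 X0) le_rfl
  have g1 : 0 ≤ (53 / 500 + 6 / 25 * X) - (1 - X) * (2 * X - 1) / 2 - (1 - X) ^ 3 / 3 -
     (13 / 20 * (13 / 10) ^ 2 / 4 - (13 / 20) ^ 3 / 3) := by
    nlinarith [mul_nonneg (sub_nonneg.2 X1) (sq_nonneg (X - 51 / 100)),
      mul_nonneg (sub_nonneg.2 X0) (sq_nonneg (X - 51 / 100)), sq_nonneg (X - 51 / 100)]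
  have a := sub_nonneg.2 o0
  have b := sub_nonneg.2 o1
  have key : 0 ≤ (1 - X) * ((53 / 500 + 6 / 25 * X) * (o + 7 / 20)
      - (1 - X) * (X ^ 2 - (o - (X - 7 / 20)) ^ 2) / 2 - (o - (X - 7 / 20)) ^ 3 / 3
      - (o * (13 / 20 + o) ^ 2 / 4 - o ^ 3 / 3)) := by
    have c1 := mul_nonneg b g0
    have c2 := mul_nonneg a g1
    have c3 := mul_nonneg (mul_nonneg a b) (mul_nonneg (by linarith : 0 ≤ 1 - X)
      (by linarith : 0 ≤ o + 13 / 20 - (X - 7 / 20)))
    nlinarith
  exact nonneg_of_mul_nonneg_right key (by linarith)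

/-- the slot with a high far cell is at most the slot at the height -/
theorem hipartW {c X u o : ℝ} (r : Row X u) (h : SideW c X) (o0 : 0 ≤ o) (o1 : o ≤ 13 / 20)
    (hu : u ≤ -o + max (X - 7 / 20) 0) : sx c X u + fm o ≤ sx c X X := by
  unfold SideW at h
  have d0 := r.d0
  have d1 := r.d1
  have c0 : 0 ≤ c := by linarith
  rw [sx_of_nonneg (u := X) d0 (by linarith)]
  rcases le_total X (7 / 20) with hX | hX
  · rw [max_eq_right (by linarith : X - 7 / 20 ≤ 0)] at hu
    have e := yt_le (X := c) (d := X) (u := u) (t := o) c0 r.lo (by linarith) o0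
    have k := hw1 d0 hX o0 o1
    have k2 := mul_nonneg (by linarith : 0 ≤ c - (53 / 500 + 6 / 25 * X))
      (by linarith : 0 ≤ X + o)
    unfold yt at e
    unfold fm
    nlinarith
  · rw [max_eq_left (by linarith : 0 ≤ X - 7 / 20)] at hu
    have k2 := mul_nonneg (by linarith : 0 ≤ c - (53 / 500 + 6 / 25 * X))
      (by linarith : 0 ≤ o + 7 / 20)
    rcases le_total (X - 7 / 20) o with h2 | h2
    · have e := yt_le (X := c) (d := X) (u := u) (t := o - (X - 7 / 20)) c0 r.lo (by linarith)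
        (by linarith)
      have k := hw3 hX d1.le h2 o1
      unfold yt at e
      unfold fm
      nlinarith
    · have e := Pool.Agent.Helper19.TS.sx_mono_pos (c := c) (d := X) (u := u)
        (U := X - 7 / 20 - o) (by linarith) r.lo (by linarith) (by linarith) (by linarith)
        (by nlinarith)
      have k := hw2 hX d1.le o0 h2
      unfold fm
      nlinarith

/-- a high far cell is dropped -/
theorem OwnX.high (O : OwnX f w A B X Y u v s) (S : SideW (nx - k) X) (k0 : 0 ≤ k) (r : Row X u)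
    (hd : A + B ≤ w + 13 / 20) :
    u ≤ X ∧ V2 nx ny k X Y u v + f ≤ V2 nx ny k X Y X v := by
  have hu := O.le r
  have w0 := O.w0
  refine ⟨by linarith, v2_raise k0 (by linarith) ?_⟩
  have e1 := vl_fm O.w0.le O.w1 O.A0 O.B0 O.lo (by linarith)
  rw [← O.vol] at e1
  have e2 := hipartW r S O.w0.le O.w1
    (O.own.trans (add_le_add_right (max_le_max_right 0 (by linarith : X - (1 + w - A - B) ≤
      X - 7 / 20)) _))
  linarith

/-- the volume of a low far cell of height `d` is decreasing in `d` -/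
theorem f4_mono {w d e : ℝ} (w0 : 0 ≤ w) (h : e ≤ d) (hd : d ≤ 1) :
    w * (1 + w - d) ^ 2 / 4 - w ^ 3 / 3 ≤ w * (1 + w - e) ^ 2 / 4 - w ^ 3 / 3 := by
  have := mul_le_mul_of_nonneg_left (pow_le_pow_left₀ (by linarith : 0 ≤ 1 + w - d)
    (by linarith : 1 + w - d ≤ 1 + w - e) 2) w0
  linarith

/-- a low far cell of height `d` at least the one of the row is dropped -/
theorem drop_zero {w d : ℝ} (S : Side (nx - k) X) (k0 : 0 ≤ k) (r : Row X u) (w0 : 0 ≤ w)
    (w1 : w ≤ 13 / 20) (hd : d ≤ 7 / 20) (hX : X ≤ d) (hu : u ≤ -w) :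
    V2 nx ny k X Y u v + (w * (1 + w - d) ^ 2 / 4 - w ^ 3 / 3) ≤ V2 nx ny k X Y 0 v := by
  have d0 := r.d0
  have d1 := r.d1
  refine v2_raise k0 (by linarith) ?_
  have c2 := S.u2 (by linarith)
  have c4 := S.u4
  have e1 := f4_mono w0 hX (by linarith)
  have e2 := yt_le (X := nx - k) (d := X) (u := u) (t := w) (by linarith) r.lo (by linarith) w0
  rw [sx_of_nonneg (u := 0) le_rfl zero_le_one]
  unfold yt at e2
  have k1 : 0 ≤ w * (nx - k - (1 - X) ^ 2 / 4 - 169 / 1600) := mul_nonneg w0 (by linarith)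
  have k2 : 0 ≤ w * ((13 / 20) ^ 2 - w ^ 2) :=
    mul_nonneg w0 (sub_nonneg.2 (pow_le_pow_left₀ w0 w1 2))
  nlinarith

/-- a low far cell of height `d` at least `3/10` is dropped -/
theorem drop_mid {w d : ℝ} (S : Side (nx - k) X) (k0 : 0 ≤ k) (r : Row X u) (w0 : 0 ≤ w)
    (w1 : w ≤ 13 / 20) (hd : d ≤ 7 / 20) (hX : d ≤ X) (h3 : 3 / 10 ≤ d) (hu : u ≤ -w + (X - d)) :
    V2 nx ny k X Y u v + (w * (1 + w - d) ^ 2 / 4 - w ^ 3 / 3) ≤ V2 nx ny k X Y X v := by
  have d0 := r.d0
  have d1 := r.d1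
  refine v2_raise k0 (by linarith) ?_
  have c3 := S.u3 (by linarith)
  have e1 := f4_mono w0 h3 (by linarith)
  rw [show 1 + w - 3 / 10 = w + 7 / 10 by ring] at e1
  rw [sx_of_nonneg (u := X) d0 (by linarith)]
  have hX3 : 3 / 10 ≤ X := by linarith
  have k0' : 0 ≤ (nx - k - 1 / 3) * (w + 3 / 10) := mul_nonneg (by linarith) (by linarith)
  generalize nx - k = c at *
  rcases le_total 0 (X - 3 / 10 - w) with h | h
  · have e2 := Pool.Agent.Helper19.TS.sx_mono_pos (c := c) (d := X) (u := u)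
      (U := X - 3 / 10 - w) (by linarith) r.lo (by linarith) h (by linarith)
      (by nlinarith)
    have k1 : 0 ≤ (w + 3 / 10) * (1 / 3 - (1 - X) * (2 * X - 3 / 10) / 2 - 3 / 20) :=
      mul_nonneg (by linarith) (by nlinarith [sq_nonneg (X - 23 / 40)])
    have k2 : 0 ≤ (w + 3 / 10) * (w * (3 / 5 - X)) :=
      mul_nonneg (by linarith) (mul_nonneg w0 (by linarith))
    have k3 : 0 ≤ w * (3 / 10 - w) := mul_nonneg w0 (by linarith)
    nlinarith [pow_nonneg w0 3]
  · have e2 := yt_le (X := c) (d := X) (u := u) (t := w + 3 / 10 - X) (by linarith) r.lo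
      (by linarith) (by linarith)
    unfold yt at e2
    have t0 : 0 ≤ w + 3 / 10 - X := by linarith
    have key : 0 ≤ (w + 3 / 10) / 3 - (1 - X) * X ^ 2 / 2 + (1 - X) * (w + 3 / 10 - X) ^ 2 / 2
        - (w + 3 / 10 - X) ^ 3 / 3 - (w * (w + 7 / 10) ^ 2 / 4 - w ^ 3 / 3) := by
      nlinarith [mul_nonneg w0 (sub_nonneg.2 w1), mul_nonneg t0 (sub_nonneg.2 w1),
        mul_nonneg t0 w0, mul_nonneg (sub_nonneg.2 hX3) (by linarith : 0 ≤ 3 / 5 - X),
        mul_nonneg (mul_nonneg t0 (sub_nonneg.2 w1)) w0,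
        mul_nonneg (mul_nonneg t0 t0) (sub_nonneg.2 w1),
        mul_nonneg (mul_nonneg w0 w0) (sub_nonneg.2 w1),
        mul_nonneg (mul_nonneg w0 (sub_nonneg.2 w1)) (by linarith : 0 ≤ 3 / 5 - X),
        mul_nonneg (mul_nonneg t0 (sub_nonneg.2 w1)) (by linarith : 0 ≤ 3 / 5 - X),
        mul_nonneg (mul_nonneg w0 (sub_nonneg.2 w1)) (sub_nonneg.2 hX3),
        mul_nonneg (mul_nonneg t0 (sub_nonneg.2 w1)) (sub_nonneg.2 hX3)]
    nlinarith

end

/-! ### The column without the cell of the low class -/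

section

variable {nx ny k K X Y W' u v f w A B s g o α β : ℝ} {Q : ℝ → ℝ → Prop}

/-- one own far cell -/
theorem base_one (S : SideW (nx - k) X) (k0 : 0 ≤ k) (K0 : 0 ≤ K) (U : Ups Q X)
    (D : Base1 nx ny k K X Y W' Q) (O : OwnX f w A B X Y u v s) (rx : Row X u) (ry : Row Y v)
    (q : Q u v) (hs : 0 ≤ s) : V2 nx ny k X Y u v + f ≤ W' + K * s := by
  have hKs := mul_nonneg K0 hs
  have d0 := rx.d0
  have d1 := rx.d1
  rcases le_total (A + B) (w + 13 / 20) with h1 | h1
  · obtain ⟨e1, e2⟩ := O.high (ny := ny) S k0 rx h1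
    have e3 := D.n X v ⟨d0, d1, by linarith, by linarith⟩ ry (U.top u v q e1)
    linarith
  have kA : v ≤ 1 - A + Y → V2 nx ny k X Y u v + f ≤ W' + K * s := by
    intro h
    have := D.a u v w A B rx ry q O.w0 O.w1 O.A0 O.B0 h1 O.hi O.own h
    rw [O.vol]
    linarith
  rcases le_total v (1 - A + Y) with h2 | h2
  · exact kA h2
  rcases O.kind with h3 | h3
  · exact kA h3
  have h4 : 0 ≤ X - (1 + w - A - B) + (v - min u v) := by
    rcases le_total (1 + w - A - B) X with h5 | h5
    · have := min_le_right u v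
      linarith
    · have h6 := O.own
      rw [max_eq_right (by linarith : X - (1 + w - A - B) ≤ 0)] at h6
      have := min_le_left u v
      have := O.B0
      have := ry.d0
      linarith
  have h5 := D.b u v w A B rx ry q O.w0 O.w1 O.A0 O.B0 h1 O.hi O.own h2 h4
  have h6 := mul_le_mul_of_nonneg_left h3 K0
  rw [O.vol]
  linarith

/-- the entry of the other row is raised to its height -/
theorem OwnX.raise (O : OwnX f w A B X Y u v s) (h : A ≤ 1) : OwnX f w A B X Y u Y s :=
  ⟨O.w0, O.w1, O.A0, O.B0, O.lo, O.hi, O.vol, O.own, Or.inl (by linarith)⟩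

/-- two own far cells, the one of `y` is high -/
theorem base_two (Sx : SideW (nx - k) X) (Sy : SideW (ny - k) Y) (k0 : 0 ≤ k) (K0 : 0 ≤ K)
    (Ux : Ups Q X) (Uy : Ups (fun v u => Q u v) Y) (D : Base1 nx ny k K X Y W' Q)
    (O : OwnX f w A B X Y u v s) (O' : OwnX g o α β Y X v u s) (rx : Row X u)
    (ry : Row Y v) (q : Q u v) (hs : 0 ≤ s) (R : A ≤ (1 + o - α - β) - 7 / 20) :
    V2 nx ny k X Y u v + f + g ≤ W' + K * s := by
  have h1 := O.A0
  have h2 := O'.lo
  have d0 := ry.d0
  have d1 := ry.d1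
  obtain ⟨e1, e2⟩ := O'.high (ny := nx) Sy k0 ry (by linarith)
  rw [V2_swap ny nx, V2_swap ny nx] at e2
  have e3 := base_one Sx k0 K0 Ux D (O.raise (by linarith)) rx
    ⟨d0, d1, by linarith, by linarith⟩ (Uy.top v u q e1) hs
  linarith

end

/-! ### The column with the cell of the low class -/

section

variable {nx ny k X Y W u v f s g s' o a b p α β w A B φ : ℝ} {Q : ℝ → ℝ → Prop} {qx qy : Prop}

/-- a row with `Side`: the list `St1W` follows from `St1` -/
theorem St1.toW (S : Side (nx - k) X) (k0 : 0 ≤ k) (U : Ups Q X)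
    (H : St1 nx ny k X Y W Q qx qy w A B φ)
    (H' : St1 ny nx k Y X W (fun v u => Q u v) qy qx w B A φ) (w1 : w ≤ 1) (A0 : 0 ≤ A) :
    St1W nx ny k X Y W Q qx qy w A B φ := by
  refine ⟨H.c, H.x, ?_, H.xy, ?_⟩
  · intro u v o d rx ry q hx hy o0 o1 d0 d1 hA hu
    have x0 := rx.d0
    have x1 := rx.d1
    have hm : max w o ≤ 1 := max_le w1 (by linarith)
    rcases le_total X d with h1 | h1
    · rw [max_eq_right (by linarith : X - d ≤ 0)] at hu
      have e1 := drop_zero (ny := ny) (Y := Y) (v := v) S k0 rx o0.le o1 d1 h1 (by linarith)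
      have := H.c 0 v ⟨x0, x1, by linarith, by linarith⟩ ry (U.zero u v q (by linarith))
        (fun _ => by linarith) hy
      linarith
    rw [max_eq_left (by linarith : 0 ≤ X - d)] at hu
    rcases le_total (3 / 10) d with h2 | h2
    · have e1 := drop_mid (ny := ny) (Y := Y) (v := v) S k0 rx o0.le o1 d1 h1 h2 (by linarith)
      have := H.c X v ⟨x0, x1, by linarith, by linarith⟩ ry (U.top u v q (by linarith))
        (fun _ => by linarith) hy
      linarith
    · have hw : max w o = w := by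
        rcases max_cases w o with ⟨h, -⟩ | ⟨h, -⟩
        · exact h
        · rw [h] at hA
          linarith
      rw [hw] at hA
      exact H.r u v o d rx ry q hx hy o0 o1 d0 h2 h1 hA (by linarith)
  · intro hq hB u v o d p rx ry q hx hy o0 o1 d0 d1 hA hu p0 p1 hv ht
    have x0 := rx.d0
    have x1 := rx.d1
    have hm : max w o ≤ 1 := max_le w1 (by linarith)
    rcases le_total X d with h1 | h1
    · rw [max_eq_right (by linarith : X - d ≤ 0)] at hu
      have e1 := drop_zero (ny := ny) (Y := Y) (v := v) S k0 rx o0.le o1 d1 h1 (by linarith)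
      have := H'.x v 0 p ry ⟨x0, x1, by linarith, by linarith⟩ (U.zero u v q (by linarith))
        (fun _ => hy) (fun _ => by linarith) p0 p1 hv (by linarith)
      rw [V2_swap ny nx, vl_comm w B A, show max w p + w - B - A = max w p + w - A - B by ring]
        at this
      linarith
    rw [max_eq_left (by linarith : 0 ≤ X - d)] at hu
    rcases le_total (3 / 10) d with h2 | h2
    · have e1 := drop_mid (ny := ny) (Y := Y) (v := v) S k0 rx o0.le o1 d1 h1 h2 (by linarith)
      have := H'.x v X p ry ⟨x0, x1, by linarith, by linarith⟩ (U.top u v q (by linarith))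
        (fun _ => hy) (fun _ => by linarith) p0 p1 hv (by linarith)
      rw [V2_swap ny nx, vl_comm w B A, show max w p + w - B - A = max w p + w - A - B by ring]
        at this
      linarith
    · have hw : max w o = w := by
        rcases max_cases w o with ⟨h, -⟩ | ⟨h, -⟩
        · exact h
        · rw [h] at hA
          linarith
      have hwp : max w p = w := by
        rcases max_cases w p with ⟨h, -⟩ | ⟨h, h'⟩
        · exact h
        · exfalso
          rw [hw] at hA
          linarith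
      rw [hw] at hA
      rw [hwp] at ht ⊢
      have := H.xr hq hB u v o d p rx ry q hx hy o0 o1 d0 h2 h1 hA (by linarith) p0 p1 hv
        (by linarith)
      rw [show w + w - A - B = 2 * w - A - B by ring]
      linarith

/-- one own far cell `(o, a, b)` -/
theorem cell_one (S : SideW (nx - k) X) (k0 : 0 ≤ k) (U : Ups Q X)
    (H : St1W nx ny k X Y W Q qx qy w A B φ) (w1 : w ≤ 1)
    (O : OwnX f o a b X Y u v s) (rx : Row X u) (ry : Row Y v)
    (q : Q u v) (hx : qx → u ≤ 1 - A + X) (hy : qy → v ≤ 1 - B + Y)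
    (R : A ≤ max w o + (1 + o - a - b) - 1 ∨ b ≤ max w o + w - A - B) :
    V2 nx ny k X Y u v + f + vl w A B ≤ W + φ := by
  have d0 := rx.d0
  have d1 := rx.d1
  have o1 := O.w1
  have lo := O.lo
  have hi := O.hi
  have hu := O.le rx
  rcases R with R | R
  · have hm : max w o ≤ 1 := max_le w1 (by linarith)
    rcases le_total (a + b) (o + 13 / 20) with h1 | h1
    · obtain ⟨e1, e2⟩ := O.high (ny := ny) S k0 rx h1
      have := H.c X v ⟨d0, d1, by linarith, by linarith⟩ ry (U.top u v q e1)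
        (fun _ => by linarith) hy
      linarith
    · have e1 := H.r u v o (1 + o - a - b) rx ry q hx hy O.w0 o1 (by linarith) (by linarith)
        R O.own
      have e2 := vl_low (S := a + b) O.w0.le o1 O.A0 O.B0 (by linarith) le_rfl
      rw [← O.vol] at e2
      rw [show 1 + o - (1 + o - a - b) = a + b by ring] at e1
      linarith
  · have hb := O.B0
    have e1 := H.x u v o rx ry q hx hy O.w0 o1 hu (hb.trans R)
    have e2 := vl_bn O.w0.le (by linarith) O.A0 O.B0 O.lo O.hi R
    rw [← O.vol] at e2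
    linarith

/-- two own far cells, the one `(p, α, β)` of `y` is high -/
theorem cell_two (Sx : SideW (nx - k) X) (Sy : SideW (ny - k) Y) (k0 : 0 ≤ k)
    (Ux : Ups Q X) (Uy : Ups (fun v u => Q u v) Y)
    (H : St1W nx ny k X Y W Q qx qy w A B φ)
    (H' : St1W ny nx k Y X W (fun v u => Q u v) qy qx w B A φ) (w1 : w ≤ 1)
    (hAB : A + B ≤ 1 + w)
    (O : OwnX f o a b X Y u v s) (O' : OwnX g p α β Y X v u s') (rx : Row X u) (ry : Row Y v)
    (q : Q u v) (hx : qx → u ≤ 1 - A + X) (hy : qy → v ≤ 1 - B + Y)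
    (R : A ≤ max w o + (1 + o - a - b) - 1 ∨ b ≤ max w o + w - A - B)
    (R' : B ≤ max w p + (1 + p - α - β) - 1 ∨ β ≤ max w p + w - B - A)
    (T : a ≤ (1 + p - α - β) - 7 / 20) :
    V2 nx ny k X Y u v + f + g + vl w A B ≤ W + φ := by
  have lo' := O'.lo
  have a0 := O.A0
  have d0 := ry.d0
  have d1 := ry.d1
  have x0 := rx.d0
  have x1 := rx.d1
  by_cases hB : qy → B ≤ 1
  · obtain ⟨e1, e2⟩ := O'.high (ny := nx) Sy k0 ry (by linarith)
    rw [V2_swap ny nx, V2_swap ny nx] at e2
    have e3 := cell_one Sx k0 Ux H w1 (O.raise (by linarith)) rx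
      ⟨d0, d1, by linarith, by linarith⟩ (Uy.top v u q e1) hx
      (fun h => by have := hB h; linarith) R
    linarith
  push Not at hB
  obtain ⟨hq, hB⟩ := hB
  have p0 := O'.w0
  have p1 := O'.w1
  have hmp : max w p ≤ 1 := max_le w1 (by linarith)
  have R2 : β ≤ max w p + w - B - A := by
    rcases R' with h | h
    · exfalso
      linarith
    · exact h
  have e1 := vl_bn O'.w0.le (by linarith) O'.A0 O'.B0 O'.lo O'.hi
    (by linarith : β ≤ max w p + w - A - B)
  rw [← O'.vol] at e1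
  have hv := O'.le ry
  have b0 := O'.B0
  have o1 := O.w1
  have lo := O.lo
  have hi := O.hi
  have hu := O.le rx
  rcases R with R | R
  · have hm : max w o ≤ 1 := max_le w1 (by linarith)
    rcases le_total (a + b) (o + 13 / 20) with h1 | h1
    · obtain ⟨e3, e4⟩ := O.high (ny := ny) Sx k0 rx h1
      have := H'.x v X p ry ⟨x0, x1, by linarith, by linarith⟩ (Ux.top u v q e3) hy
        (fun _ => by linarith) p0 p1 hv (by linarith)
      rw [V2_swap ny nx, vl_comm w B A, show max w p + w - B - A = max w p + w - A - B by ring]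
        at this
      linarith
    · have e3 := H.xr hq hB u v o (1 + o - a - b) p rx ry q hx (hy hq) O.w0 o1 (by linarith)
        (by linarith) R O.own p0 p1 hv (by linarith)
      have e4 := vl_low (S := a + b) O.w0.le o1 O.A0 O.B0 (by linarith) le_rfl
      rw [← O.vol] at e4
      rw [show 1 + o - (1 + o - a - b) = a + b by ring] at e3
      nlinarith
  · have hb := O.B0
    have e3 := H.xy hq hB u v o p rx ry q hx (hy hq) O.w0 o1 hu (hb.trans R) p0 p1 hv
      (by linarith)
    have e4 := vl_le O.w0.le O.A0 O.B0 O.lo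
    rw [← O.vol] at e4
    have e5 : o * a * b ≤ o * (13 / 20) * b :=
      mul_le_mul_of_nonneg_right (mul_le_mul_of_nonneg_left (by linarith) O.w0.le) hb
    have e6 := mul_le_mul_of_nonneg_left R (by linarith [O.w0] : 0 ≤ o * (13 / 20))
    nlinarith

end

end Pool.Agent.Helper78.TS
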