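import Pool.Agent.Helper78.TS.MReal

/-!
# The one-far column without an order of the entries
-/

set_option autoImplicit false

namespace Pool.Agent.Helper78.TS

open Pool.Agent.Helper36.TS Pool.Agent.Helper83.TS Pool.Agent.Helper74.TS Pool.Agent.Helper34.TS

/-- the value of a column, any order of the entries -/
noncomputable def Tv (nx ny nz kxy kxz kyz dx dy dz ux uy uz : ℝ) : ℝ :=
  sx nx dx ux + sx ny dy uy + sx nz dz uz - kxy * min ux uy - kxz * min ux uz - kyz * min uy uz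

theorem Tv_swap12 (nx ny nz kxy kxz kyz dx dy dz ux uy uz : ℝ) :
    Tv nx ny nz kxy kxz kyz dx dy dz ux uy uz = Tv ny nx nz kxy kyz kxz dy dx dz uy ux uz := by
  unfold Tv
  rw [min_comm ux uy]
  ring

theorem Tv_swap23 (nx ny nz kxy kxz kyz dx dy dz ux uy uz : ℝ) :
    Tv nx ny nz kxy kxz kyz dx dy dz ux uy uz = Tv nx nz ny kxz kxy kyz dx dz dy ux uz uy := by
  unfold Tv
  rw [min_comm uy uz]
  ring

/-- at most one far cell, any order of the entries -/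
structure ColT (nx ny nz kxy kxz kyz Lxy Lxz Lyz W dx dy dz : ℝ) : Prop where
  none : ∀ ux uy uz, Row dx ux → Row dy uy → Row dz uz →
    Tv nx ny nz kxy kxz kyz dx dy dz ux uy uz ≤ W
  fx : ∀ ux uy uz f w d al be sy sz, Row dx ux → Row dy uy → Row dz uz →
    FarC f w d al be ux uy uz dx dy dz sy sz → w ≤ -ux + max (dx - d) 0 → w ≤ 13 / 20 →
    f ≤ 9 / 25 → 0 ≤ sy → 0 ≤ sz →
    Tv nx ny nz kxy kxz kyz dx dy dz ux uy uz + f ≤ W + Lxy * sy + Lxz * sz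
  fy : ∀ ux uy uz f w d al be sx sz, Row dx ux → Row dy uy → Row dz uz →
    FarC f w d al be uy ux uz dy dx dz sx sz → w ≤ -uy + max (dy - d) 0 → w ≤ 13 / 20 →
    f ≤ 9 / 25 → 0 ≤ sx → 0 ≤ sz →
    Tv nx ny nz kxy kxz kyz dx dy dz ux uy uz + f ≤ W + Lxy * sx + Lyz * sz
  fz : ∀ ux uy uz f w d al be sx sy, Row dx ux → Row dy uy → Row dz uz →
    FarC f w d al be uz ux uy dz dx dy sx sy → w ≤ -uz + max (dz - d) 0 → w ≤ 13 / 20 →
    f ≤ 9 / 25 → 0 ≤ sx → 0 ≤ sy →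
    Tv nx ny nz kxy kxz kyz dx dy dz ux uy uz + f ≤ W + Lxz * sx + Lyz * sy
  lxy : 0 ≤ Lxy
  lxz : 0 ≤ Lxz
  lyz : 0 ≤ Lyz

section

variable {nx ny nz kxy kxz kyz Lxy Lxz Lyz W dx dy dz : ℝ}

theorem ColT.swap12 (h : ColT nx ny nz kxy kxz kyz Lxy Lxz Lyz W dx dy dz) :
    ColT ny nx nz kxy kyz kxz Lxy Lyz Lxz W dy dx dz where
  none := fun ux uy uz rx ry rz => by
    rw [Tv_swap12]
    exact h.none _ _ _ ry rx rz
  fx := fun ux uy uz f w d al be sy sz rx ry rz F o hw hf h1 h2 => by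
    rw [Tv_swap12]
    exact h.fy _ _ _ _ _ _ _ _ _ _ ry rx rz F o hw hf h1 h2
  fy := fun ux uy uz f w d al be sx sz rx ry rz F o hw hf h1 h2 => by
    rw [Tv_swap12]
    exact h.fx _ _ _ _ _ _ _ _ _ _ ry rx rz F o hw hf h1 h2
  fz := fun ux uy uz f w d al be sx sy rx ry rz F o hw hf h1 h2 => by
    rw [Tv_swap12]
    have := h.fz _ _ _ _ _ _ _ _ _ _ ry rx rz (Pool.Agent.Helper19.TS.FarC_swap F) o hw hf h2 h1
    linarith
  lxy := h.lxy
  lxz := h.lyz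
  lyz := h.lxz

theorem ColT.swap23 (h : ColT nx ny nz kxy kxz kyz Lxy Lxz Lyz W dx dy dz) :
    ColT nx nz ny kxz kxy kyz Lxz Lxy Lyz W dx dz dy where
  none := fun ux uy uz rx ry rz => by
    rw [Tv_swap23]
    exact h.none _ _ _ rx rz ry
  fx := fun ux uy uz f w d al be sy sz rx ry rz F o hw hf h1 h2 => by
    rw [Tv_swap23]
    have := h.fx _ _ _ _ _ _ _ _ _ _ rx rz ry (Pool.Agent.Helper19.TS.FarC_swap F) o hw hf h2 h1
    linarith
  fy := fun ux uy uz f w d al be sx sz rx ry rz F o hw hf h1 h2 => by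
    rw [Tv_swap23]
    exact h.fz _ _ _ _ _ _ _ _ _ _ rx rz ry F o hw hf h1 h2
  fz := fun ux uy uz f w d al be sx sy rx ry rz F o hw hf h1 h2 => by
    rw [Tv_swap23]
    exact h.fy _ _ _ _ _ _ _ _ _ _ rx rz ry F o hw hf h1 h2
  lxy := h.lxz
  lxz := h.lxy
  lyz := h.lyz

private theorem Tv_low {ux uy uz : ℝ} (h1 : ux ≤ uy) (h2 : ux ≤ uz) :
    Tv nx ny nz kxy kxz kyz dx dy dz ux uy uz = Cval nx ny nz kxy kxz kyz dx dy dz ux uy uz := by
  unfold Tv Cval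
  rw [min_eq_left h1, min_eq_left h2]
  ring

/-- the three orders of the one-far column -/
theorem colT_of (hx : ColR nx ny nz kxy kxz kyz Lxy Lxz Lyz W dx dy dz)
    (hy : ColR ny nx nz kxy kyz kxz Lxy Lyz Lxz W dy dx dz)
    (hz : ColR nz nx ny kxz kyz kxy Lxz Lyz Lxy W dz dx dy) :
    ColT nx ny nz kxy kxz kyz Lxy Lxz Lyz W dx dy dz := by
  have low : ∀ ux uy uz : ℝ, (ux ≤ uy ∧ ux ≤ uz) ∨ (uy ≤ ux ∧ uy ≤ uz) ∨ (uz ≤ ux ∧ uz ≤ uy) := by
    intro ux uy uz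
    rcases le_total ux uy with h | h
    · rcases le_total ux uz with h' | h'
      · exact Or.inl ⟨h, h'⟩
      · exact Or.inr (Or.inr ⟨h', h'.trans h⟩)
    · rcases le_total uy uz with h' | h'
      · exact Or.inr (Or.inl ⟨h, h'⟩)
      · exact Or.inr (Or.inr ⟨h'.trans h, h'⟩)
  have ez : ∀ ux uy uz : ℝ, Tv nx ny nz kxy kxz kyz dx dy dz ux uy uz =
      Tv nz nx ny kxz kyz kxy dz dx dy uz ux uy := by
    intro ux uy uz
    rw [Tv_swap23, Tv_swap12]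
  refine ⟨?_, ?_, ?_, ?_, hx.la, hx.lb, hx.lab⟩
  · intro ux uy uz rx ry rz
    rcases low ux uy uz with ⟨h1, h2⟩ | ⟨h1, h2⟩ | ⟨h1, h2⟩
    · rw [Tv_low h1 h2]
      exact hx.none _ _ _ rx ry rz h1 h2
    · rw [Tv_swap12, Tv_low h1 h2]
      exact hy.none _ _ _ ry rx rz h1 h2
    · rw [ez, Tv_low h1 h2]
      exact hz.none _ _ _ rz rx ry h1 h2
  · intro ux uy uz f w d al be sy sz rx ry rz F o hw hf h3 h4
    rcases low ux uy uz with ⟨h1, h2⟩ | ⟨h1, h2⟩ | ⟨h1, h2⟩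
    · rw [Tv_low h1 h2]
      exact hx.low _ _ _ _ _ _ _ _ _ _ rx ry rz h1 h2 F o hw hf h3 h4
    · rw [Tv_swap12, Tv_low h1 h2]
      have := hy.fa _ _ _ _ _ _ _ _ _ _ ry rx rz h1 h2 F o hw hf h3 h4
      linarith
    · rw [ez, Tv_low h1 h2]
      have := hz.fa _ _ _ _ _ _ _ _ _ _ rz rx ry h1 h2
        (Pool.Agent.Helper19.TS.FarC_swap F) o hw hf h4 h3
      linarith
  · intro ux uy uz f w d al be sx sz rx ry rz F o hw hf h3 h4
    rcases low ux uy uz with ⟨h1, h2⟩ | ⟨h1, h2⟩ | ⟨h1, h2⟩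
    · rw [Tv_low h1 h2]
      have := hx.fa _ _ _ _ _ _ _ _ _ _ rx ry rz h1 h2 F o hw hf h3 h4
      linarith
    · rw [Tv_swap12, Tv_low h1 h2]
      exact hy.low _ _ _ _ _ _ _ _ _ _ ry rx rz h1 h2 F o hw hf h3 h4
    · rw [ez, Tv_low h1 h2]
      have := hz.fb _ _ _ _ _ _ _ _ _ _ rz rx ry h1 h2
        (Pool.Agent.Helper19.TS.FarC_swap F) o hw hf h4 h3
      linarith
  · intro ux uy uz f w d al be sx sy rx ry rz F o hw hf h3 h4
    rcases low ux uy uz with ⟨h1, h2⟩ | ⟨h1, h2⟩ | ⟨h1, h2⟩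
    · rw [Tv_low h1 h2]
      have := hx.fb _ _ _ _ _ _ _ _ _ _ rx ry rz h1 h2 F o hw hf h3 h4
      linarith
    · rw [Tv_swap12, Tv_low h1 h2]
      have := hy.fb _ _ _ _ _ _ _ _ _ _ ry rx rz h1 h2
        (Pool.Agent.Helper19.TS.FarC_swap F) o hw hf h4 h3
      linarith
    · rw [ez, Tv_low h1 h2]
      have := hz.low _ _ _ _ _ _ _ _ _ _ rz rx ry h1 h2 F o hw hf h3 h4
      linarith

end

end Pool.Agent.Helper78.TS
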