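import Pool.Agent.Helper83.TS.Defs

/-!
# The polynomial conditions of a column with several far cells

Three rows `x, y, z` with the multipliers `nx, ny, nz` and the pair multipliers `kxy, kxz, kyz`.
`Cd` is the list for one ordered triple `(y; x, z)`: `y` and `x` have far cells, the entry of `y` is
not above the entry of `x`, and `z` is the third class.
-/

set_option autoImplicit false

namespace Pool.Agent.Helper78.TS

open Pool.Agent.Helper83.TS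

/-- the maximum of the volume of a far cell of height at least `7/20` -/
noncomputable def fm (w : ℝ) : ℝ := w * (13 / 20 + w) ^ 2 / 4 - w ^ 3 / 3

/-- a slot with the entry `d - r` and the far cell of the same class, `w = r` -/
noncomputable def hc (m d r : ℝ) : ℝ := m * (d - r) - (1 - d) * (d - r) ^ 2 / 2 + r * (1 + r) ^ 2 / 4

/-- the loss of the entry `-t` -/
noncomputable def yt (X d t : ℝ) : ℝ := -X * t - (1 - d) * t ^ 2 / 2 + t ^ 3 / 3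

/-- the entry of `y` is raised to `7/20 + dy`; `dy ≤ 7/20`, `w` the far cell of `y` -/
def IA (X c dy dx : ℝ) : Prop := ∀ w : ℝ, 0 ≤ w → w ≤ 13 / 20 →
  (1 - dy) * ((7 / 20 + dy) ^ 2 - w ^ 2) / 2 + w * (13 / 20 + w) ^ 2 / 4 ≤
    c * (7 / 20 + dy - (dx - 1 / 5)) + X * (dx - 1 / 5 + w)

/-- the same, `7/20 ≤ dy`, the entry `-v ≤ 0` -/
def IB (X c dy dx : ℝ) : Prop := ∀ v : ℝ, 0 ≤ v → v ≤ 1 - dy →
  (1 - dy) * ((7 / 20 + dy) ^ 2 - v ^ 2) / 2 + v ^ 3 / 3 + fm (v + (dy - 7 / 20)) ≤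
    c * (7 / 20 + dy - (dx - 1 / 5)) + X * (dx - 1 / 5 + v)

/-- the same, `7/20 ≤ dy`, the entry `u ≥ 0`; `k = kxy` -/
def IC (c k dy dx : ℝ) : Prop := ∀ u : ℝ, 0 ≤ u → u ≤ dy - 7 / 20 →
  (1 - dy) * ((7 / 20 + dy) ^ 2 - u ^ 2) / 2 + fm (dy - 7 / 20 - u) + k * (dx - u) ≤
    c * (7 / 20 + dy - u)

/-- two far cells, no entry is raised, kind A for `z`; `e` the part of `x`, `c` the multiplier of `z`,
`t` the negative entry of `y` -/
def SA (X dy e c dz W : ℝ) : Prop := ∀ t B v : ℝ, 0 ≤ t → dy + t ≤ 13 / 20 → 0 ≤ B →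
  B ≤ 13 / 20 → 0 ≤ v → v ≤ 1 → v ≤ 1 - B + dz →
  yt X dy t + e + st c dz v + 13 / 20 * (dy + t) * B ≤ W

/-- the same, kind B for `z`, `L` the share of the pair `y, z` -/
def SB (X dy e c dz L W : ℝ) : Prop := ∀ w t v : ℝ, 0 ≤ w → 0 ≤ t → w ≤ dy + t →
  dy + t ≤ 13 / 20 → 0 ≤ v → v ≤ 1 → 27 / 20 ≤ w + 2 * v →
  yt X dy t + e + st c dz v + w * (13 / 20 + w) ^ 2 / 4 - w ^ 3 / 4 - L * (v + w - 7 / 20) ≤ W

/-- both parts of `x` -/
def SS (X dy m dx c dz L W : ℝ) : Prop :=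
  SA X dy (hc m dx 0) c dz W ∧ SA X dy (hc m dx (1 / 5)) c dz W ∧
  SB X dy (hc m dx 0) c dz L W ∧ SB X dy (hc m dx (1 / 5)) c dz L W

/-- three far cells, `y` lowest, any height of the far cell of `y` -/
def T0 (X dy e W : ℝ) : Prop := ∀ w : ℝ, 0 ≤ w → w ≤ 13 / 20 →
  mj X (1 - dy) dy w + vm w + e ≤ W

/-- three far cells, `y` lowest, the far cell of `y` has height at least `7/20` -/
def T1 (X dy e W : ℝ) : Prop := ∀ w : ℝ, 0 ≤ w → w ≤ 13 / 20 →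
  (dy ≤ 7 / 20 → mj X (1 - dy) 0 w + fm w + e ≤ W) ∧
  (7 / 20 ≤ dy → mj X (1 - dy) (dy - 7 / 20) w + fm w + e ≤ W)

/-- **The list for the ordered triple `(y; x, z)`.** `L` is the share of the pair `y, z`. -/
structure Cd (ny nx nz kxy kyz kxz L dy dx dz W : ℝ) : Prop where
  hX : 0 ≤ ny - kxy - kyz
  mx : dx * (1 - dx) ≤ nx - kxz
  u4 : 1 / 4 ≤ nx - kxz
  u3 : 7 / 20 ≤ dx → 1 / 3 ≤ nx - kxz
  i : dy ≤ 7 / 20 → 169 / 1600 + 13 / 40 * dy ≤ ny - kxy - kyz ∨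
    (IA (ny - kxy - kyz) (ny - kyz) dy dx ∧ SS (ny - kxy - kyz) dy (nx - kxz) dx nz dz L W ∧
      SS (ny - kxy - kyz) dy nx dx (nz - kxz) dz L W)
  ib : 7 / 20 ≤ dy → IB (ny - kxy - kyz) (ny - kyz) dy dx ∧ IC (ny - kyz) kxy dy dx ∧
    SS (ny - kxy - kyz) dy (nx - kxz) dx nz dz L W ∧
      SS (ny - kxy - kyz) dy nx dx (nz - kxz) dz L W
  t0 : T0 (ny - kxy - kyz) dy (hc (nx - kxz) dx 0 + hc nz dz 0) W
  tx : T1 (ny - kxy - kyz) dy (hc (nx - kxz) dx (13 / 20) + hc nz dz 0) W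
  tz : T1 (ny - kxy - kyz) dy (hc (nx - kxz) dx 0 + hc nz dz (13 / 20)) W

end Pool.Agent.Helper78.TS
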