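import Pool.Agent.Helper78.TS.MCol

/-!
# Two or three far cells in a column, real variables
-/

set_option autoImplicit false

namespace Pool.Agent.Helper78.TS

open Pool.Agent.Helper36.TS Pool.Agent.Helper83.TS Pool.Agent.Helper74.TS Pool.Agent.Helper34.TS

section

variable {nx ny nz kxy kxz kyz Lxy Lxz Lyz W dx dy dz ux uy uz : ℝ}

/-- the entry of `y` is raised to `θ` and the far cell of `y` (volume `g`) is dropped -/
theorem raise (hT : ColT nx ny nz kxy kxz kyz Lxy Lxz Lyz W dx dy dz) (hk : 0 ≤ kyz)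
    (rx : Row dx ux) (ry : Row dy uy) (rz : Row dz uz) {f w d al be sxy sxz g θ : ℝ}
    (F : FarC f w d al be ux uy uz dx dy dz sxy sxz) (o : w ≤ -ux + max (dx - d) 0)
    (hw : w ≤ 13 / 20) (hf : f ≤ 9 / 25) (hs : 0 ≤ sxz) (h0 : uy ≤ θ) (h1 : θ ≤ 1)
    (hθ : θ ≤ al + dy)
    (hg : sx (ny - kyz) dy uy + g + kxy * (min ux θ - min ux uy) ≤ sx (ny - kyz) dy θ) :
    Tv nx ny nz kxy kxz kyz dx dy dz ux uy uz + f + g ≤ W + Lxz * sxz := by
  have F' : FarC f w d al be ux θ uz dx dy dz 0 sxz :=
    ⟨F.w0, F.w1, F.d0, F.d1, F.al1, F.be1, F.sum, F.al0, F.be0, F.vol,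
      Or.inl ((min_le_left _ _).trans hθ), F.capy⟩
  have ry' : Row dy θ := ⟨ry.d0, ry.d1, ry.lo.trans h0, h1⟩
  have key := hT.fx ux θ uz f w d al be 0 sxz rx ry' rz F' o hw hf le_rfl hs
  have hm : min θ uz - min uy uz ≤ θ - uy := by
    rcases le_total uy uz with h | h
    · rw [min_eq_left h]
      have := min_le_left θ uz
      linarith
    · rw [min_eq_right h, min_eq_right (h.trans h0)]
      linarith
  have hm' := mul_le_mul_of_nonneg_left hm hk
  rw [sx_sub, sx_sub] at hg
  unfold Tv at *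
  linarith

/-- the part of `x` is one of the two numbers -/
theorem SS.part {X m c L : ℝ} (h : SS X dy m dx c dz L W) (rx : Row dx ux)
    (hm : dx * (1 - dx) ≤ m) {w f : ℝ} (w0 : 0 ≤ w) (w1 : w ≤ 1 / 5) (hu : ux ≤ dx - w)
    (hf : f ≤ vm w) : ∃ E, sx m dx ux + f ≤ E ∧ SA X dy E c dz W ∧ SB X dy E c dz L W := by
  obtain ⟨a0, a1, b0, b1⟩ := h
  rcases le_total (hc m dx 0) (hc m dx (1 / 5)) with h | h
  · exact ⟨_, lowpart rx hm w0 (by linarith) hu hf w1 h le_rfl, a1, b1⟩
  · exact ⟨_, lowpart rx hm w0 (by linarith) hu hf w1 le_rfl h, a0, b0⟩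

section

variable {X m c L f w g v e ga de sxy syz : ℝ}

/-- two far cells, no entry raised, `uz ≤ 0` or kind A -/
theorem ss_A {E B : ℝ} (hA : SA X dy E c dz W) (hX : 0 ≤ X) (ry : Row dy uy) (ez : En c dz uz)
    (hy : uy ≤ 0) (v1 : v ≤ 13 / 20) (ho : uy ≤ dy - v) (hB0 : 0 ≤ B)
    (hB : B ≤ 13 / 20) (hg : g ≤ 13 / 20 * v * B) (hz : max uz 0 ≤ 1 - B + dz) :
    sx X dy uy + E + sx c dz uz + g ≤ W := by
  have dy1 := ry.d1
  have t0 := le_max_right (v - dy) 0
  have t1 := le_max_left (v - dy) 0
  have t2 : dy + max (v - dy) 0 ≤ 13 / 20 := by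
    rcases max_cases (v - dy) 0 with ⟨h, -⟩ | ⟨h, -⟩ <;> rw [h] <;> linarith
  have hu : uy ≤ -max (v - dy) 0 := by
    rcases max_cases (v - dy) 0 with ⟨h, -⟩ | ⟨h, -⟩ <;> rw [h] <;> linarith
  have e1 := yt_le hX ry.lo hu t0
  have e2 := sx_le_st ez
  have e3 := hA _ B _ t0 t2 hB0 hB (le_max_right uz 0) (max_le ez.hi zero_le_one) hz
  have e4 : 13 / 20 * v * B ≤ 13 / 20 * (dy + max (v - dy) 0) * B :=
    mul_le_mul_of_nonneg_right (by linarith) hB0
  linarith

/-- two far cells, no entry raised, `z` above `y` -/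
theorem ss_bound (hS : SS X dy m dx c dz L W) (hX : 0 ≤ X) (hm : dx * (1 - dx) ≤ m) (hc0 : 0 ≤ c)
    (hL : 0 ≤ L) (rx : Row dx ux) (ry : Row dy uy) (rz : Row dz uz)
    (w0 : 0 ≤ w) (w1 : w ≤ 1 / 5) (hux : ux ≤ dx - w) (hf : f ≤ vm w)
    (G : FarC g v e ga de uy ux uz dy dx dz sxy syz) (o : v ≤ -uy + max (dy - e) 0)
    (v1 : v ≤ 13 / 20) (he : 7 / 20 ≤ e) (hy : uy ≤ 0) (hyz : uy ≤ uz) (hs : 0 ≤ syz) :
    sx X dy uy + sx m dx ux + sx c dz uz + f + g ≤ W + L * syz := by
  obtain ⟨E, hE, hA, hB⟩ := hS.part rx hm w0 w1 hux hf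
  obtain ⟨g1, g2, g3, g4, g5, g6⟩ := farC_vl G
  have v0 := G.w0
  have dy0 := ry.d0
  have dy1 := ry.d1
  have dz0 := rz.d0
  have ho : uy ≤ dy - v := by
    rcases max_cases (dy - e) 0 with ⟨h, -⟩ | ⟨h, -⟩ <;> rw [h] at o <;> linarith
  have ez : En c dz uz := ⟨hc0, rz.d0, rz.d1.le, rz.lo, rz.hi⟩
  have b0 : 0 ≤ min (1 - ga) (1 - de) := le_min g2.le g3.le
  have b1 : min (1 - ga) (1 - de) ≤ (1 + v - e) / 2 := by
    rcases le_total (1 - ga) (1 - de) with h | h
    · rw [min_eq_left h]; linarith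
    · rw [min_eq_right h]; linarith
  have hg : g ≤ 13 / 20 * v * min (1 - ga) (1 - de) := by
    rw [g1]
    exact vl_65 v0.le v1 g2.le g3.le g4.le (by linarith)
  have kA : max uz 0 ≤ 1 - min (1 - ga) (1 - de) + dz →
      sx X dy uy + sx m dx ux + sx c dz uz + f + g ≤ W + L * syz := by
    intro hz
    have := ss_A hA hX ry ez hy v1 ho b0 (by linarith) hg hz
    have := mul_nonneg hL hs
    linarith
  rcases le_total uz 0 with hz | hz
  · refine kA ?_
    rw [max_eq_right hz]
    linarith
  · rw [max_eq_left hz] at kA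
    have hz1 := rz.hi
    rcases G.capy with hc | hc
    · rw [min_eq_left (by linarith : uz ≤ 2 - v)] at hc
      refine kA ?_
      have := min_le_right (1 - ga) (1 - de)
      linarith
    · rw [min_eq_left (by linarith : uz ≤ 2 - v), min_eq_left hyz] at hc
      rcases le_total (v + 2 * uz - 1) e with h | h
      · refine kA ?_
        linarith
      · -- kind B
        have hsl : uz + v - e ≤ syz := by
          rcases max_cases (dy - e) 0 with ⟨h, -⟩ | ⟨h, -⟩ <;> rw [h] at o <;> linarith
        have hsl' := mul_le_mul_of_nonneg_left hsl hL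
        have f4 := Pool.Agent.Helper19.TS.FarC_le_four G
        -- the two ends
        have a1 := ss_A (g := 13 / 20 * v * (1 - uz)) (B := 1 - uz) hA hX ry ez hy v1 ho
          (by linarith) (by linarith) le_rfl (by rw [max_eq_left hz]; linarith)
        have t0 := le_max_right (v - dy) 0
        have t1 := le_max_left (v - dy) 0
        have t2 : dy + max (v - dy) 0 ≤ 13 / 20 := by
          rcases max_cases (v - dy) 0 with ⟨h, -⟩ | ⟨h, -⟩ <;> rw [h] <;> linarith
        have hu : uy ≤ -max (v - dy) 0 := by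
          rcases max_cases (v - dy) 0 with ⟨h, -⟩ | ⟨h, -⟩ <;> rw [h] <;> linarith
        have e1 := yt_le hX ry.lo hu t0
        have b1 := hB v (max (v - dy) 0) uz v0.le t0 (by linarith) t2 hz hz1 (by linarith)
        rw [← sx_eq_st hz hz1] at b1
        -- `R` is the rest
        obtain ⟨R, hR⟩ : ∃ R, R = W - (sx X dy uy + E + sx c dz uz) := ⟨_, rfl⟩
        have a2 : v * (1 - uz) ^ 2 - v ^ 3 / 4 - L * (1 - uz) ≤ R := by
          have k1 : 0 ≤ v * (1 - uz) * (13 / 20 - (1 - uz)) :=
            mul_nonneg (mul_nonneg v0.le (by linarith)) (by linarith)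
          have k2 : 0 ≤ L * (1 - uz) := mul_nonneg hL (by linarith)
          have k3 : 0 ≤ v ^ 3 := pow_nonneg v0.le 3
          rw [hR]
          linarith
        have b2 : v * (13 / 20 + v) ^ 2 / 4 - v ^ 3 / 4 - L * (uz + v - 7 / 20) ≤ R := by
          rw [hR]
          linarith
        have key : v * (1 + v - e) ^ 2 / 4 - v ^ 3 / 4 - L * (uz + v - e) ≤ R := by
          -- `e` lies between `7/20` and `D = v + 2 uz - 1`
          obtain ⟨D, hD⟩ : ∃ D, D = v + 2 * uz - 1 := ⟨_, rfl⟩
          have a2' : v * (1 + v - D) ^ 2 / 4 - v ^ 3 / 4 - L * (uz + v - D) ≤ R := by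
            refine le_trans (le_of_eq ?_) a2
            rw [hD]
            ring
          have hDe : e ≤ D := by linarith
          rcases eq_or_lt_of_le (he.trans hDe) with h7 | h7
          · have : e = 7 / 20 := by linarith
            rw [this]
            refine le_trans (le_of_eq ?_) b2
            ring
          · have k1 : 0 ≤ (D - e) * (R - (v * (13 / 20 + v) ^ 2 / 4 - v ^ 3 / 4
                - L * (uz + v - 7 / 20))) := mul_nonneg (by linarith) (by linarith)
            have k2 : 0 ≤ (e - 7 / 20) * (R - (v * (1 + v - D) ^ 2 / 4 - v ^ 3 / 4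
                - L * (uz + v - D))) := mul_nonneg (by linarith) (by linarith)
            have k3 : 0 ≤ (D - 7 / 20) * (v * ((D - e) * (e - 7 / 20))) :=
              mul_nonneg (by linarith) (mul_nonneg v0.le
                (mul_nonneg (by linarith) (by linarith)))
            have key : 0 ≤ (D - 7 / 20) * (R - (v * (1 + v - e) ^ 2 / 4 - v ^ 3 / 4
                - L * (uz + v - e))) := by
              linarith
            by_contra hcon
            have := mul_neg_of_pos_of_neg (by linarith : 0 < D - 7 / 20)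
              (by linarith : R - (v * (1 + v - e) ^ 2 / 4 - v ^ 3 / 4 - L * (uz + v - e)) < 0)
            linarith
        rw [hR] at key
        linarith

end

/-- **Two far cells**: `y` lower, `x` upper, `z` the third class. -/
theorem two_real (hT : ColT nx ny nz kxy kxz kyz Lxy Lxz Lyz W dx dy dz) (hxy : 0 ≤ kxy)
    (hxz : 0 ≤ kxz) (hyz : 0 ≤ kyz) (C : Cd ny nx nz kxy kyz kxz Lyz dy dx dz W)
    (hz : 0 ≤ nz - kxz - kyz) (rx : Row dx ux) (ry : Row dy uy) (rz : Row dz uz)
    {f w d al be g v e ga de sxy sxz syz : ℝ}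
    (F : FarC f w d al be ux uy uz dx dy dz sxy sxz) (oF : w ≤ -ux + max (dx - d) 0)
    (w1 : w ≤ 13 / 20) (hf : f ≤ 9 / 25)
    (G : FarC g v e ga de uy ux uz dy dx dz sxy syz) (oG : v ≤ -uy + max (dy - e) 0)
    (v1 : v ≤ 13 / 20) (hg : g ≤ 9 / 25) (s1 : 0 ≤ sxy) (s2 : 0 ≤ sxz) (s3 : 0 ≤ syz)
    (hle : uy ≤ ux) (R : 27 / 20 ≤ al + e ∨ 27 / 20 ≤ ga + d) :
    Tv nx ny nz kxy kxz kyz dx dy dz ux uy uz + f + g ≤ W + Lxy * sxy + Lxz * sxz + Lyz * syz := by
  have q1 := mul_nonneg hT.lxy s1
  have q2 := mul_nonneg hT.lxz s2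
  have q3 := mul_nonneg hT.lyz s3
  have dx0 := rx.d0
  have dx1 := rx.d1
  have dy0 := ry.d0
  have dy1 := ry.d1
  have w0 := F.w0
  have v0 := G.w0
  have hux : ux ≤ dx - w := by
    have := F.d0
    rcases max_cases (dx - d) 0 with ⟨h, -⟩ | ⟨h, -⟩ <;> rw [h] at oF <;> linarith
  rcases R with R | R
  · -- the cap of `F` on `y` is high
    have he : 7 / 20 ≤ e := by linarith [F.al1]
    have hal : 7 / 20 ≤ al := by linarith [G.d1]
    have hgm := farC_fm G v1 he
    have oG' : v ≤ -uy + max (dy - 7 / 20) 0 :=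
      oG.trans (by linarith [max_le_max_right (0 : ℝ) (by linarith : dy - e ≤ dy - 7 / 20)])
    -- the direct bound
    have direct : uy ≤ 0 → w ≤ 1 / 5 →
        SS (ny - kxy - kyz) dy (nx - kxz) dx nz dz Lyz W →
        SS (ny - kxy - kyz) dy nx dx (nz - kxz) dz Lyz W →
        Tv nx ny nz kxy kxz kyz dx dy dz ux uy uz + f + g ≤
          W + Lxy * sxy + Lxz * sxz + Lyz * syz := by
      intro hy hw5 S0 S1
      have hfv := farC_vm F w1
      have hmx := C.mx
      rcases le_total uy uz with hyz' | hyz'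
      · rcases le_total ux uz with hxz' | hxz'
        · have key := ss_bound S0 C.hX C.mx (by linarith) hT.lyz rx ry rz w0.le hw5 hux hfv G oG
            v1 he hy hyz' s3
          unfold Tv
          rw [min_eq_right hle, min_eq_left hxz', min_eq_left hyz']
          have e1 : sx (ny - kxy - kyz) dy uy = sx ny dy uy - kxy * uy - kyz * uy := by
            rw [sx_sub, sx_sub]
          rw [e1, sx_sub] at key
          linarith
        · have key := ss_bound S1 C.hX (by linarith) (by linarith) hT.lyz rx ry rz w0.le hw5 hux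
            hfv G oG v1 he hy hyz' s3
          unfold Tv
          rw [min_eq_right hle, min_eq_right hxz', min_eq_left hyz']
          have e1 : sx (ny - kxy - kyz) dy uy = sx ny dy uy - kxy * uy - kyz * uy := by
            rw [sx_sub, sx_sub]
          rw [e1, sx_sub] at key
          linarith
      · -- `z` lowest
        obtain ⟨E, hE, hA, -⟩ := S1.part rx (by linarith) w0.le hw5 hux hfv
        obtain ⟨g1, g2, g3, g4, g5, g6⟩ := farC_vl G
        have b0 : 0 ≤ min (1 - ga) (1 - de) := le_min g2.le g3.le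
        have b1 : min (1 - ga) (1 - de) ≤ (1 + v - e) / 2 := by
          rcases le_total (1 - ga) (1 - de) with h | h
          · rw [min_eq_left h]; linarith
          · rw [min_eq_right h]; linarith
        have hg65 : g ≤ 13 / 20 * v * min (1 - ga) (1 - de) := by
          rw [g1]
          exact vl_65 v0.le v1 g2.le g3.le g4.le (by linarith)
        have ho : uy ≤ dy - v := by
          rcases max_cases (dy - e) 0 with ⟨h, -⟩ | ⟨h, -⟩ <;> rw [h] at oG <;> linarith
        have dz0 := rz.d0
        have ez : En (nz - kxz) dz 0 :=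
          ⟨by linarith, rz.d0, rz.d1.le, by linarith [rz.d1], zero_le_one⟩
        have key := ss_A hA C.hX ry ez hy v1 ho b0 (by linarith) hg65
          (by rw [max_self]; linarith)
        have e0 : sx (nz - kxz) dz 0 = 0 := by
          rw [sx_of_nonneg le_rfl zero_le_one]
          ring
        have ez' : sx (nz - kxz - kyz) dz uz ≤ 0 :=
          Pool.Agent.Helper19.TS.sx_nonpos hz (by linarith [rz.d1]) rz.lo (hyz'.trans hy)
        unfold Tv
        rw [min_eq_right hle, min_eq_right (hyz'.trans hle), min_eq_right hyz']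
        have e1 : sx (ny - kxy - kyz) dy uy = sx ny dy uy - kxy * uy - kyz * uy := by
          rw [sx_sub, sx_sub]
        have e2 : sx (nz - kxz - kyz) dz uz = sx nz dz uz - kxz * uz - kyz * uz := by
          rw [sx_sub, sx_sub]
        have e3 : kyz * uy ≤ 0 := mul_nonpos_of_nonneg_of_nonpos hyz hy
        rw [e1, e0] at key
        rw [e2] at ez'
        linarith
    rcases le_total dy (7 / 20) with h | h
    · rw [max_eq_right (by linarith : dy - 7 / 20 ≤ 0)] at oG'
      have hyt := yt_le C.hX ry.lo (by linarith : uy ≤ -v) v0.le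
      have e1 : sx (ny - kxy - kyz) dy uy = sx (ny - kyz) dy uy - kxy * uy := by
        rw [← sx_sub]
        congr 1
        ring
      rw [e1] at hyt
      rcases C.i h with hX | ⟨hI, S0, S1⟩
      · -- raised to `0`
        have key := raise (g := g) (θ := 0) hT hyz rx ry rz F oF w1 hf s2 (by linarith)
          zero_le_one (by linarith) (by
            rw [min_eq_right hle, sx_of_nonneg (u := 0) le_rfl zero_le_one]
            have k1 : kxy * (min ux 0 - uy) ≤ kxy * (0 - uy) :=
              mul_le_mul_of_nonneg_left (by linarith [min_le_right ux 0]) hxy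
            have k2 : 0 ≤ v * (ny - kxy - kyz + (1 - dy) * v / 2 - (13 / 20 + v) ^ 2 / 4) := by
              refine mul_nonneg v0.le ?_
              nlinarith [mul_nonneg v0.le (by linarith : 0 ≤ 13 / 20 - v),
                mul_nonneg dy0 (by linarith : 0 ≤ 13 / 20 - v)]
            unfold yt at hyt
            unfold fm at hgm
            linarith)
        linarith
      · rcases le_total w (1 / 5) with hw5 | hw5
        · exact direct (by linarith) hw5 S0 S1
        · -- raised to `7/20 + dy`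
          have key := raise (g := g) (θ := 7 / 20 + dy) hT hyz rx ry rz F oF w1 hf s2
            (by linarith) (by linarith) (by linarith) (by
              rw [min_eq_right hle, sx_of_nonneg (u := 7 / 20 + dy) (by linarith) (by linarith)]
              have k1 : kxy * (min ux (7 / 20 + dy) - uy) ≤ kxy * (dx - 1 / 5 - uy) :=
                mul_le_mul_of_nonneg_left (by linarith [min_le_left ux (7 / 20 + dy)]) hxy
              have k2 := hI v v0.le v1
              unfold yt at hyt
              unfold fm at hgm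
              linarith)
          linarith
    · rw [max_eq_left (by linarith : 0 ≤ dy - 7 / 20)] at oG'
      obtain ⟨hB, hC, S0, S1⟩ := C.ib h
      rcases le_total uy 0 with hy | hy
      · rcases le_total w (1 / 5) with hw5 | hw5
        · exact direct hy hw5 S0 S1
        · have key := raise (g := g) (θ := 7 / 20 + dy) hT hyz rx ry rz F oF w1 hf s2
            (by linarith) (by linarith) (by linarith) (by
              rw [min_eq_right hle, sx_of_nonneg (u := 7 / 20 + dy) (by linarith) (by linarith),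
                sx_of_nonpos hy]
              have k1 : kxy * (min ux (7 / 20 + dy) - uy) ≤ kxy * (dx - 1 / 5 - uy) :=
                mul_le_mul_of_nonneg_left (by linarith [min_le_left ux (7 / 20 + dy)]) hxy
              have k2 := hB (-uy) (by linarith) (by linarith [ry.lo])
              have k3 := fm_mono v0.le (by linarith : v ≤ -uy + (dy - 7 / 20))
                (by linarith [ry.lo])
              linarith)
          linarith
      · have key := raise (g := g) (θ := 7 / 20 + dy) hT hyz rx ry rz F oF w1 hf s2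
            (by linarith) (by linarith) (by linarith) (by
              rw [min_eq_right hle, sx_of_nonneg (u := 7 / 20 + dy) (by linarith) (by linarith),
                sx_of_nonneg hy ry.hi]
              have k1 : kxy * (min ux (7 / 20 + dy) - uy) ≤ kxy * (dx - uy) :=
                mul_le_mul_of_nonneg_left (by linarith [min_le_left ux (7 / 20 + dy)]) hxy
              have k2 := hC uy hy (by linarith)
              have k3 := fm_mono v0.le (by linarith : v ≤ dy - 7 / 20 - uy)
                (by linarith)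
              linarith)
        linarith
  · -- the cap of `G` on `x` is high: `x` is raised
    have hd : 7 / 20 ≤ d := by linarith [G.al1]
    have hga : 7 / 20 ≤ ga := by linarith [F.d1]
    have hfm := farC_fm F w1 hd
    have oF' : ux ≤ -w + max (dx - 7 / 20) 0 := by
      have := max_le_max_right (0 : ℝ) (by linarith : dx - d ≤ dx - 7 / 20)
      linarith
    have hdr := dropU rx C.u4 C.u3 w0.le w1 oF'
    have hθ : ux ≤ 7 / 20 + dx := by linarith
    have key := raise (g := f) (θ := 7 / 20 + dx) hT.swap12 hxz ry rx rz G oG v1 hg s3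
      hθ (by linarith) (by linarith) (by
        rw [min_eq_left hle, min_eq_left (hle.trans hθ)]
        linarith)
    rw [← Tv_swap12] at key
    linarith

/-- the entry and the far cell of the lowest class -/
theorem ylow {X d u w D g : ℝ} {φ : ℝ → ℝ} (hX : 0 ≤ X) (r : Row d u) (w0 : 0 ≤ w)
    (w1 : w ≤ 13 / 20) (hD0 : 0 ≤ D) (hD : D ≤ 13 / 20) (hu : u ≤ D - w) (hg : g ≤ φ w)
    (hφ : ∀ a b, 0 ≤ a → a ≤ b → b ≤ 13 / 20 → φ a ≤ φ b) :
    ∃ s, 0 ≤ s ∧ s ≤ 13 / 20 ∧ sx X d u + g ≤ mj X (1 - d) D s + φ s := by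
  rcases le_total (D - u) (13 / 20) with h | h
  · refine ⟨D - u, by linarith, h, ?_⟩
    have e1 := sx_le_mj (X := X) (d := d) (u := u) (D := D) (s := D - u) hD0 (by linarith) rfl r.hi
    have e2 := hφ w (D - u) w0 (by linarith) h
    linarith
  · refine ⟨13 / 20, by norm_num, le_rfl, ?_⟩
    have e0 := sx_mono (c := X) (d := d) (u := u) (b := D - 13 / 20) hX (by linarith [r.d1]) r.lo
      r.hi (by linarith) (by nlinarith [r.d1])
    have e1 := sx_le_mj (X := X) (d := d) (u := D - 13 / 20) (D := D) (s := 13 / 20) hD0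
      (by norm_num) (by ring) (by linarith)
    have e2 := hφ w (13 / 20) w0 w1 le_rfl
    linarith

/-- **Three far cells**: `uy ≤ ux ≤ uz`. -/
theorem three_real (hxz : 0 ≤ kxz) (C : Cd ny nx nz kxy kyz kxz Lyz dy dx dz W)
    {L' : ℝ} (C' : Cd ny nz nx kyz kxy kxz L' dy dz dx W)
    (rx : Row dx ux) (ry : Row dy uy) (rz : Row dz uz)
    {f w d al be g v e ga de h p q ka la s1 s2 s3 s4 s5 s6 : ℝ}
    (F : FarC f w d al be ux uy uz dx dy dz s1 s2) (oF : w ≤ -ux + max (dx - d) 0)
    (w1 : w ≤ 13 / 20)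
    (G : FarC g v e ga de uy ux uz dy dx dz s3 s4) (oG : v ≤ -uy + max (dy - e) 0)
    (v1 : v ≤ 13 / 20)
    (H : FarC h p q ka la uz ux uy dz dx dy s5 s6) (oH : p ≤ -uz + max (dz - q) 0)
    (p1 : p ≤ 13 / 20) (h1 : uy ≤ ux) (h2 : ux ≤ uz)
    (R1 : 7 / 20 ≤ d ∨ 7 / 20 ≤ e) (R2 : 7 / 20 ≤ d ∨ 7 / 20 ≤ q)
    (R3 : 7 / 20 ≤ e ∨ 7 / 20 ≤ q) :
    Tv nx ny nz kxy kxz kyz dx dy dz ux uy uz + f + g + h ≤ W := by
  have dx0 := rx.d0
  have dx1 := rx.d1
  have dy0 := ry.d0
  have dy1 := ry.d1
  have dz0 := rz.d0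
  have dz1 := rz.d1
  have w0 := F.w0
  have v0 := G.w0
  have p0 := H.w0
  have hux : ux ≤ dx - w := by
    have := F.d0
    rcases max_cases (dx - d) 0 with ⟨h, -⟩ | ⟨h, -⟩ <;> rw [h] at oF <;> linarith
  have huz : uz ≤ dz - p := by
    have := H.d0
    rcases max_cases (dz - q) 0 with ⟨h, -⟩ | ⟨h, -⟩ <;> rw [h] at oH <;> linarith
  have huy : uy ≤ dy - v := by
    have := G.d0
    rcases max_cases (dy - e) 0 with ⟨h, -⟩ | ⟨h, -⟩ <;> rw [h] at oG <;> linarith
  have eT : Tv nx ny nz kxy kxz kyz dx dy dz ux uy uz =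
      sx (ny - kxy - kyz) dy uy + sx (nx - kxz) dx ux + sx nz dz uz := by
    unfold Tv
    rw [min_eq_right h1, min_eq_left h2, min_eq_left (h1.trans h2), sx_sub, sx_sub, sx_sub]
    ring
  have mz : dz * (1 - dz) ≤ nz := by linarith [C'.mx]
  have u4 : 1 / 4 ≤ nz := by linarith [C'.u4]
  have u3 : 7 / 20 ≤ dz → 1 / 3 ≤ nz := fun h => by linarith [C'.u3 h]
  -- the parts
  have ph : ∀ {c d' u' w' : ℝ} {t t' : ℝ}, w' ≤ -u' + max (d' - t) 0 → t' ≤ t →
      u' ≤ -w' + max (d' - t') 0 := by
    intro c d' u' w' t t' h ht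
    have := max_le_max_right (0 : ℝ) (by linarith : d' - t ≤ d' - t')
    linarith
  have px : 7 / 20 ≤ d → sx (nx - kxz) dx ux + f ≤ hc (nx - kxz) dx 0 := by
    intro hd
    have a := farC_fm F w1 hd
    have b := hipart rx C.u4 C.u3 w0.le w1 (ph (c := 0) oF hd)
    linarith
  have pz : 7 / 20 ≤ q → sx nz dz uz + h ≤ hc nz dz 0 := by
    intro hd
    have a := farC_fm H p1 hd
    have b := hipart rz u4 u3 p0.le p1 (ph (c := 0) oH hd)
    linarith
  have low : sx (nx - kxz) dx ux + f ≤ hc (nx - kxz) dx 0 → sx nz dz uz + h ≤ hc nz dz 0 →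
      Tv nx ny nz kxy kxz kyz dx dy dz ux uy uz + f + g + h ≤ W := by
    intro a b
    obtain ⟨s, k0, k1, k2⟩ := ylow (φ := vm) C.hX ry v0.le v1 dy0 (by linarith) huy
      (farC_vm G v1) (fun a b => vm_mono)
    have := C.t0 s k0 k1
    linarith
  have high : ∀ {e' : ℝ}, 7 / 20 ≤ e → T1 (ny - kxy - kyz) dy e' W →
      sx (ny - kxy - kyz) dy uy + g + e' ≤ W := by
    intro e' he T
    have a := farC_fm G v1 he
    have b := ph (c := 0) oG he
    rcases le_total dy (7 / 20) with hd | hd
    · rw [max_eq_right (by linarith : dy - 7 / 20 ≤ 0)] at b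
      obtain ⟨s, k0, k1, k2⟩ := ylow (φ := fm) (D := 0) C.hX ry v0.le v1 le_rfl (by norm_num)
        (by linarith) a (fun a b => fm_mono)
      have := (T s k0 k1).1 hd
      linarith
    · rw [max_eq_left (by linarith : 0 ≤ dy - 7 / 20)] at b
      obtain ⟨s, k0, k1, k2⟩ := ylow (φ := fm) (D := dy - 7 / 20) C.hX ry v0.le v1 (by linarith)
        (by linarith) (by linarith) a (fun a b => fm_mono)
      have := (T s k0 k1).2 hd
      linarith
  by_cases hd : 7 / 20 ≤ d
  · by_cases hq : 7 / 20 ≤ q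
    · exact low (px hd) (pz hq)
    · have he := R3.resolve_right hq
      rcases le_total (hc nz dz (13 / 20)) (hc nz dz 0) with hh | hh
      · exact low (px hd) (lowpart rz mz p0.le p1 huz (farC_vm H p1) p1 le_rfl hh)
      · have a := lowpart rz mz p0.le p1 huz (farC_vm H p1) p1 hh le_rfl
        have b := high he C.tz
        have c := px hd
        linarith
  · have he := R1.resolve_left hd
    have hq := R2.resolve_left hd
    rcases le_total (hc (nx - kxz) dx (13 / 20)) (hc (nx - kxz) dx 0) with hh | hh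
    · exact low (lowpart rx C.mx w0.le w1 hux (farC_vm F w1) w1 le_rfl hh) (pz hq)
    · have a := lowpart rx C.mx w0.le w1 hux (farC_vm F w1) w1 hh le_rfl
      have b := high he C.tx
      have c := pz hq
      linarith

end

end Pool.Agent.Helper78.TS
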