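import Pool.Agent.Helper84.TS.Cases
import Pool.Agent.Helper36.TS.FrameG

/-!
# A class with a main cell of height `< 3/5` and a far cell with `w > 13/20`
-/

set_option autoImplicit false

namespace Pool.Agent.Helper78.TS

open Pool.Agent.Helper84.TS Pool.Agent.Helper36.TS

/-- four main cells of height less than `3/5`, `F = (a; b)` with `w > 13/20`, and the far cells of
the other classes have `w ≤ 13/20` -/
structure TallB (A : Fin 4 → Fin 4 → Option (Fin 4 → ℝ)) (P : Fin 4 → Fin 4 → ℝ) (a b : Fin 4)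
    (F : Fin 4 → ℝ) : Prop where
  of : OF A
  hP : ∀ i, A i i = some (P i)
  hd : ∀ i, P i i - 1 < 3 / 5
  hF : A a b = some F
  hw : 13 / 20 < 2 + F b
  small : ∀ i j G, i ≠ a → j ≠ i → A i j = some G → 2 + G j ≤ 13 / 20

/-- `CaseOneTall` from its normal form -/
theorem caseOneTall_of (H : ∀ (A : Fin 4 → Fin 4 → Option (Fin 4 → ℝ)) (P : Fin 4 → Fin 4 → ℝ)
    (a b c l : Fin 4) (F : Fin 4 → ℝ), [a, b, c, l].Nodup → TallB A P a b F →
    ∑ i, VV A i ≤ 613 / 200) : CaseOneTall := by
  classical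
  intro A h a b c l hn M F hM hd hF hw hb hc hl
  obtain ⟨Mb, b1, b2, b3⟩ := hb
  obtain ⟨Mc, c1, c2, c3⟩ := hc
  obtain ⟨Ml, l1, l2, l3⟩ := hl
  have ha : ∀ i, ∃ N, A i i = some N ∧ N i - 1 < 3 / 5 := by
    intro i
    rcases mem4 hn i with rfl | rfl | rfl | rfl
    · exact ⟨M, hM, hd⟩
    · exact ⟨Mb, b1, b2⟩
    · exact ⟨Mc, c1, c2⟩
    · exact ⟨Ml, l1, l2⟩
  choose P hP hPd using ha
  refine H A P a b c l F hn ⟨h, hP, hPd, hF, hw, ?_⟩
  intro i j G hi hj hG
  rcases mem4 hn i with rfl | rfl | rfl | rfl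
  · exact absurd rfl hi
  · exact b3 j G hj hG
  · exact c3 j G hj hG
  · exact l3 j G hj hG

section

variable {A : Fin 4 → Fin 4 → Option (Fin 4 → ℝ)} {P : Fin 4 → Fin 4 → ℝ} {a b c l : Fin 4}
  {F : Fin 4 → ℝ}

theorem TallB.own (h : TallB A P a b F) (hba : b ≠ a) :
    2 + F b ≤ -(-P a b) + max ((P a a - 1) - (F a - 1)) 0 :=
  own_rst (s := id) h.of h.hP h.hF hba rfl

/-- the entry of the column `b` -/
theorem TallB.lo (h : TallB A P a b F) (hba : b ≠ a) :
    -P a b ≤ -(2 + F b) + (P a a - 1) := by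
  have h1 := h.own hba
  have h2 := (h.of.cell a b F h.hF).one
  have h3 := (h.of.cell a a _ (h.hP a)).one
  have : max ((P a a - 1) - (F a - 1)) 0 ≤ P a a - 1 := max_le (by linarith) (by linarith)
  linarith

/-- the other two entries are at least `w` -/
theorem TallB.hi (h : TallB A P a b F) (hn : [a, b, c, l].Nodup) :
    2 + F b ≤ -P a c ∧ 2 + F b ≤ -P a l := by
  have hne := nodup_ne hn
  have h1 := h.own hne.1
  have h2 := (h.of.cell a b F h.hF).one
  have h3 := (h.of.cell a a _ (h.hP a)).one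
  have h4 := (cell_lin (h.of.cell a a _ (h.hP a)) hn).1
  have hc := h.of.main a _ (h.hP a) c hne.2.1
  have hl := h.of.main a _ (h.hP a) l hne.2.2
  have : max ((P a a - 1) - (F a - 1)) 0 ≤ P a a - 1 := max_le (by linarith) (by linarith)
  constructor <;> linarith

/-- the class `a` has no other far cell -/
theorem TallB.one (h : TallB A P a b F) (hn : [a, b, c, l].Nodup) :
    A a c = none ∧ A a l = none := by
  have hne := nodup_ne hn
  have hi := h.hi hn
  have hw := h.hw
  have hd := h.hd a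
  have key : ∀ m, m ≠ a → 2 + F b ≤ -P a m → A a m = none := by
    intro m hm hx
    rcases hG : A a m with _ | G
    · rfl
    · exfalso
      have h1 := own_rst (s := id) h.of h.hP hG hm rfl
      have h2 := (h.of.cell a m G hG).one
      have h3 := (h.of.cell a a _ (h.hP a)).one
      obtain ⟨x, y, hn'⟩ := exists_rest2 hm.symm
      have h5 := (farC_rst (s := id) h.of h.hP hG hn').w0
      have : max ((P a a - 1) - (G a - 1)) 0 ≤ P a a - 1 := max_le (by linarith) (by linarith)
      have hid : P (id a) a = P a a := rfl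
      linarith
  exact ⟨key c hne.2.1 hi.1, key l hne.2.2 hi.2⟩

/-- the slack of the pair `{a, b}` -/
theorem TallB.slk_ab (h : TallB A P a b F) (hn : [a, b, c, l].Nodup) :
    min (13 / 20) (-P b c) + min (13 / 20) (-P b l) ≤ (P a a - 1) + (P b b - 1) := by
  have h1 := slk_nonneg (s := id) h.of h.hP hn
  have hi := h.hi hn
  have hw := h.hw
  have h2 : min (13 / 20) (-P b c) ≤ min (-P a c) (-P b c) :=
    min_le_min_right _ (by linarith [hi.1])
  have h3 : min (13 / 20) (-P b l) ≤ min (-P a l) (-P b l) :=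
    min_le_min_right _ (by linarith [hi.2])
  unfold slk at h1
  linarith

end

end Pool.Agent.Helper78.TS
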