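import Pool.Agent.Helper78.TS.MGlue
import Pool.Agent.Helper78.TS.Tall
import Pool.Agent.Helper83.TS.Kinds

/-!
# The column of the tall class, and shifted columns

`TallB A P a b F`: the column `a` has three ordinary rows `b, c, l`.
-/

set_option autoImplicit false

namespace Pool.Agent.Helper78.TS

open Pool.Agent.Helper84.TS Pool.Agent.Helper36.TS Pool.Agent.Helper83.TS

section

variable {n0 n1 : ℝ → ℝ} {k01 k12 l01 : ℝ → ℝ → ℝ} {wa : ℝ → ℝ → ℝ → ℝ}

/-- the column with one row `b` (`n0`) and two rows `c`, `l` (`n1`), all lists -/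
theorem colM_tall (hk : ∀ x y, k12 x y = k12 y x) (hw : ∀ x y z, wa x y z = wa x z y)
    (c0 : ∀ {x y z : ℝ}, Bd x y z → Col (n0 x - k01 x y - k01 x z) x (n1 y) y (n1 z) z (k12 y z)
      (l01 x y) (l01 x z) (k12 y z) (wa x y z))
    (c1 : ∀ {x y z : ℝ}, Bd x y z → Col (n1 x - k01 y x - k12 x z) x (n0 y) y (n1 z) z (k01 y z)
      (l01 y x) (k12 x z) (l01 y z) (wa y x z))
    (d1 : ∀ {x y z : ℝ}, Bd x y z → Cd (n0 x) (n1 y) (n1 z) (k01 x y) (k01 x z) (k12 y z)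
      (l01 x z) x y z (wa x y z))
    (d2 : ∀ {x y z : ℝ}, Bd x y z → Cd (n1 y) (n0 x) (n1 z) (k01 x y) (k12 y z) (k01 x z)
      (k12 y z) y x z (wa x y z))
    (d3 : ∀ {x y z : ℝ}, Bd x y z → Cd (n1 y) (n1 z) (n0 x) (k12 y z) (k01 x y) (k01 x z)
      (l01 x y) y z x (wa x y z)) {x y z : ℝ} (h : Bd x y z) :
    ColM (n0 x) (n1 y) (n1 z) (k01 x y) (k01 x z) (k12 y z) (l01 x y) (l01 x z) (k12 y z)
      (wa x y z) x y z := by
  have s1 : Bd x z y := ⟨h.x0, h.z0, h.y0, h.x1, h.z1, h.y1⟩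
  have s2 : Bd y x z := ⟨h.y0, h.x0, h.z0, h.y1, h.x1, h.z1⟩
  have s3 : Bd z x y := ⟨h.z0, h.x0, h.y0, h.z1, h.x1, h.y1⟩
  have e1 := c0 h
  have e2 := c1 s2
  have e3 := c1 s3
  have f1 := d1 h
  have f2 := d1 s1
  have f3 := d2 h
  have f4 := d3 h
  have f5 := d2 s1
  have f6 := d3 s1
  rw [hk z y, hw x z y] at e3 f2 f5 f6
  exact colM_of e1 e2 e3 f1 f2 f3 f4 f5 f6

end

section

variable {A : Fin 4 → Fin 4 → Option (Fin 4 → ℝ)} {P : Fin 4 → Fin 4 → ℝ}

/-- the multiplier of the first row is changed by `t` -/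
theorem ColI.shift1 {m a b c : Fin 4} {na nb nc kab kac kbc Lab Lac Lbc W t : ℝ}
    (h : ColI A P m a b c (na - t) nb nc kab kac kbc Lab Lac Lbc W) :
    ColI A P m a b c na nb nc kab kac kbc Lab Lac Lbc (W + t * (-P a m)) := by
  unfold ColI at *
  rw [Pool.Agent.Helper19.TS.sx_sub] at h
  linarith [h]

/-- the multiplier of the second row is changed by `t` -/
theorem ColI.shift2 {m a b c : Fin 4} {na nb nc kab kac kbc Lab Lac Lbc W t : ℝ}
    (h : ColI A P m a b c na (nb - t) nc kab kac kbc Lab Lac Lbc W) :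
    ColI A P m a b c na nb nc kab kac kbc Lab Lac Lbc (W + t * (-P b m)) :=
  h.swap12.shift1.swap12

/-- the multiplier of the third row is changed by `t` -/
theorem ColI.shift3 {m a b c : Fin 4} {na nb nc kab kac kbc Lab Lac Lbc W t : ℝ}
    (h : ColI A P m a b c na nb (nc - t) kab kac kbc Lab Lac Lbc W) :
    ColI A P m a b c na nb nc kab kac kbc Lab Lac Lbc (W + t * (-P c m)) :=
  h.swap23.shift2.swap23

theorem ColI.mono {m a b c : Fin 4} {na nb nc kab kac kbc Lab Lac Lbc W W' : ℝ}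
    (h : ColI A P m a b c na nb nc kab kac kbc Lab Lac Lbc W) (hW : W ≤ W') :
    ColI A P m a b c na nb nc kab kac kbc Lab Lac Lbc W' := by
  unfold ColI at *
  linarith [h]

variable {a b c l : Fin 4} {F : Fin 4 → ℝ}

theorem TallB.ht0 (h : TallB A P a b F) (x : Fin 4) : 0 ≤ P x x - 1 := by
  have := (h.of.cell x x _ (h.hP x)).one
  linarith

theorem TallB.bd (h : TallB A P a b F) (x y z : Fin 4) :
    Bd (P x x - 1) (P y y - 1) (P z z - 1) :=
  ⟨h.ht0 x, h.ht0 y, h.ht0 z, (h.hd x).le, (h.hd y).le, (h.hd z).le⟩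

theorem TallB.hts (h : TallB A P a b F) (x y z t : Fin 4) :
    Hts (P x x - 1) (P y y - 1) (P z z - 1) (P t t - 1) :=
  ⟨h.ht0 x, h.hd x, h.ht0 y, h.hd y, h.ht0 z, h.hd z, h.ht0 t, h.hd t⟩

/-- the three rows of the column `a` -/
theorem TallB.rows3 (h : TallB A P a b F) (hn : [a, b, c, l].Nodup) : Rows3 A P a b c l :=
  ⟨h.of, hn, h.hP b, h.hP c, h.hP l, h.hd b, h.hd c, h.hd l,
    fun q G hq hG => h.small q a G hq hq.symm hG⟩

end

end Pool.Agent.Helper78.TS
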